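import Pool.Agent.W910.NS.Stmts

/-! Reflection of an obstruction to length `ℵ₁`. -/

set_option autoImplicit false

open Cardinal Set

namespace Pool.Agent.W910.NS.T_O5

universe u

/-- Above every point there is a limit point closed under a given function. -/
theorem club_unb (L : Type u) [LinearOrder L] [WellFoundedLT L] (hL : Reg L) (f : L → L) (m : L) :
    ∃ i, m < i ∧ Lm i ∧ ∀ a < i, f a < i := by
  classical
  have hinf : ℵ₀ ≤ #L := hL.unc.le
  have hIic : ∀ a : L, #(Iic a) < #L := by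
    intro a
    have h1 : (Iic a : Set L) = Iio a ∪ {a} := by
      ext x
      simp [le_iff_lt_or_eq, or_comm]
    rw [h1]
    refine lt_of_le_of_lt (Cardinal.mk_union_le _ _) ?_
    refine Cardinal.add_lt_of_lt hinf (hL.seg a) ?_
    rw [Cardinal.mk_singleton]
    exact lt_of_lt_of_le Cardinal.one_lt_aleph0 hinf
  have hnx : ∀ a : L, ∃ b, a < b ∧ ∀ x, x ≤ a → f x < b := by
    intro a
    have h2 : #((Iic a ∪ f '' (Iic a) : Set L)) < #L := by
      refine lt_of_le_of_lt (Cardinal.mk_union_le _ _) ?_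
      refine Cardinal.add_lt_of_lt hinf (hIic a) ?_
      exact lt_of_le_of_lt Cardinal.mk_image_le (hIic a)
    obtain ⟨b, hb⟩ := hL.bd _ h2
    refine ⟨b, hb a (Or.inl (mem_Iic.2 le_rfl)), fun x hx => hb _ (Or.inr ⟨x, hx, rfl⟩)⟩
  choose nx hnx1 hnx2 using hnx
  let s : ℕ → L := fun n => Nat.rec m (fun _ a => nx a) n
  have hs0 : s 0 = m := rfl
  have hsS : ∀ n, s (n + 1) = nx (s n) := fun _ => rfl
  have hr : #(range s) < #L := by
    refine lt_of_le_of_lt ?_ hL.unc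
    exact Cardinal.mk_le_aleph0_iff.2 (Set.countable_range s).to_subtype
  obtain ⟨b0, hb0⟩ := hL.bd _ hr
  have hne : ({b | ∀ n, s n < b} : Set L).Nonempty := ⟨b0, fun n => hb0 _ ⟨n, rfl⟩⟩
  let i := wellFounded_lt.min {b : L | ∀ n, s n < b} hne
  have hi : ∀ n, s n < i := WellFounded.min_mem wellFounded_lt {b : L | ∀ n, s n < b} hne
  have hlt : ∀ b, b < i → ∃ n, b ≤ s n := by
    intro b hb
    by_contra hcon
    push Not at hcon
    exact WellFounded.not_lt_min wellFounded_lt {b : L | ∀ n, s n < b} (x := b) hcon hb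
  refine ⟨i, hi 0, ⟨⟨m, hi 0⟩, ?_⟩, ?_⟩
  · intro a ha
    obtain ⟨n, hn⟩ := hlt a ha
    exact ⟨s (n + 1), lt_of_le_of_lt hn (hnx1 (s n)), hi (n + 1)⟩
  · intro a ha
    obtain ⟨n, hn⟩ := hlt a ha
    exact lt_trans (hnx2 (s n) a hn) (hi (n + 1))

/-- The largest limit point closed under `f` which is at most `j`. -/
theorem club_max (L : Type u) [LinearOrder L] [WellFoundedLT L] (f : L → L) (j i : L)
    (hi : Lm i) (hic : ∀ a < i, f a < i) (hij : i ≤ j) :
    ∃ i₀, Lm i₀ ∧ (∀ a < i₀, f a < i₀) ∧ i₀ ≤ j ∧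
      ∀ i', Lm i' → (∀ a < i', f a < i') → i' ≤ j → i' ≤ i₀ := by
  have hne : ({b | ∀ i', Lm i' → (∀ a < i', f a < i') → i' ≤ j → i' ≤ b} : Set L).Nonempty :=
    ⟨j, fun _ _ _ h => h⟩
  let i₀ := wellFounded_lt.min {b : L | ∀ i', Lm i' → (∀ a < i', f a < i') → i' ≤ j → i' ≤ b} hne
  have h0 : ∀ i', Lm i' → (∀ a < i', f a < i') → i' ≤ j → i' ≤ i₀ :=
    WellFounded.min_mem wellFounded_lt
      {b : L | ∀ i', Lm i' → (∀ a < i', f a < i') → i' ≤ j → i' ≤ b} hne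
  have hlt : ∀ b, b < i₀ → ∃ i', Lm i' ∧ (∀ a < i', f a < i') ∧ i' ≤ j ∧ b < i' := by
    intro b hb
    by_contra hcon
    push Not at hcon
    exact WellFounded.not_lt_min wellFounded_lt
      {b : L | ∀ i', Lm i' → (∀ a < i', f a < i') → i' ≤ j → i' ≤ b} (x := b) hcon hb
  have hj : i₀ ≤ j := by
    by_contra hcon
    push Not at hcon
    exact WellFounded.not_lt_min wellFounded_lt
      {b : L | ∀ i', Lm i' → (∀ a < i', f a < i') → i' ≤ j → i' ≤ b} (x := j)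
      (fun _ _ _ h => h) hcon
  refine ⟨i₀, ⟨?_, ?_⟩, ?_, hj, h0⟩
  · obtain ⟨a, ha⟩ := hi.1
    exact ⟨a, lt_of_lt_of_le ha (h0 i hi hic hij)⟩
  · intro a ha
    obtain ⟨i', h1, h2, h3, h4⟩ := hlt a ha
    obtain ⟨b, hb1, hb2⟩ := h1.2 a h4
    exact ⟨b, hb1, lt_of_lt_of_le hb2 (h0 i' h1 h2 h3)⟩
  · intro a ha
    obtain ⟨i', h1, h2, h3, h4⟩ := hlt a ha
    exact lt_of_lt_of_le (h2 a h4) (h0 i' h1 h2 h3)

theorem main (hI : S_inter.{u}) (h1 : S_Cw1.{u}) (hR : S_reg.{u}) (hS : S_swap.{u}) :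
    S_red.{u} := by
  classical
  intro L _ _ hL hL1 hFR V G hOb
  obtain ⟨B, S, hB, hdisj, hSt, hCw, hinf⟩ := hOb
  -- the countable sets `g a`
  have hg : ∀ a, ∃ g : Set L, g.Countable ∧
      (a ∈ S → g.Infinite ∧ g ⊆ {x | x < a ∧ Ed G (B x) (B a)}) := by
    intro a
    by_cases ha : a ∈ S
    · refine ⟨range (fun n => (((hinf a ha).natEmbedding _ n : _) : L)), Set.countable_range _,
        fun _ => ⟨?_, ?_⟩⟩
      · refine Set.infinite_range_of_injective ?_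
        intro n m hnm
        exact ((hinf a ha).natEmbedding _).injective (Subtype.ext hnm)
      · rintro _ ⟨n, rfl⟩
        exact ((hinf a ha).natEmbedding _ n).2
    · exact ⟨∅, Set.countable_empty, fun h => absurd h ha⟩
  choose g hgc hg2 using hg
  obtain ⟨I, hIc, hIcl, hIf⟩ := hFR S g hSt hCw hgc
    (fun a ha => ⟨(hg2 a ha).1.nonempty, fun b hb => ((hg2 a ha).2 hb).1⟩)
  -- the order of length `ℵ₁`
  have hR1 : Reg (Ltype (ℵ₁ : Cardinal.{u})) := hR _ Cardinal.isRegular_aleph_one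
    Cardinal.aleph0_lt_aleph_one
  have hL1c : #(Ltype (ℵ₁ : Cardinal.{u})) = ℵ₁ := by
    simp [Ltype]
  obtain ⟨k⟩ : Nonempty (Ltype (ℵ₁ : Cardinal.{u}) ≃ I) := by
    rw [← Cardinal.eq, hL1c, hIc]
  let W : Ltype (ℵ₁ : Cardinal.{u}) → Set L := fun i => (fun j => (k j : L)) '' Iio i
  have hWmono : ∀ i j, i ≤ j → W i ⊆ W j := fun i j hij => Set.image_mono (Iio_subset_Iio hij)
  have hWk : ∀ i j, (k j : L) ∈ W i ↔ j < i := by
    intro i j
    constructor
    · rintro ⟨j', hj', h⟩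
      have : j' = j := k.injective (Subtype.ext h)
      exact this ▸ hj'
    · intro h
      exact ⟨j, h, rfl⟩
  have hFil : Fil W := by
    refine ⟨hWmono, ?_, ?_⟩
    · rintro i hi _ ⟨j, hj, rfl⟩
      obtain ⟨b, hb1, hb2⟩ := hi.2 j hj
      simp only [Set.mem_iUnion]
      exact ⟨b, hb2, j, hb1, rfl⟩
    · intro i
      exact lt_of_le_of_lt Cardinal.mk_image_le (hR1.seg i)
  have hWU : ∀ x ∈ I, x ∈ ⋃ i, W i := by
    intro x hx
    obtain ⟨b, hb⟩ := hR1.bd {k.symm ⟨x, hx⟩} (by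
      rw [Cardinal.mk_singleton]
      exact lt_trans Cardinal.one_lt_aleph0 hR1.unc)
    refine Set.mem_iUnion.2 ⟨b, k.symm ⟨x, hx⟩, hb _ rfl, ?_⟩
    simp
  have hWc : ∀ i, (W i).Countable := by
    intro i
    refine Set.Countable.image ?_ _
    have h2 : #(Iio i) < ℵ₁ := by
      have := hR1.seg i
      rwa [hL1c] at this
    rw [← Cardinal.le_aleph0_iff_set_countable]
    exact Order.lt_succ_iff.1 (h2.trans_eq Cardinal.succ_aleph0.symm)
  let T : Set (Ltype (ℵ₁ : Cardinal.{u})) :=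
    {i | ∃ a, a ∈ S ∧ a ∈ I ∧ a ∉ W i ∧ (g a ∩ W i).Infinite}
  have hT : St T := by
    by_contra hcon
    unfold St at hcon
    push Not at hcon
    obtain ⟨f1, hf1⟩ := hcon
    have hC : ∀ i, Lm i → (∀ a < i, f1 a < i) → i ∉ T := by
      intro i hi hic hiT
      obtain ⟨a, ha1, ha2⟩ := hf1 i hiT hi
      exact absurd (hic a ha1) (not_lt.2 ha2)
    have hf : ∀ a, ∃ c, ∀ h : a ∈ S ∩ I, c ∈ g a ∧
        ∀ i, Lm i → (∀ a < i, f1 a < i) → i ≤ k.symm ⟨a, h.2⟩ → c ∉ W i := by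
      intro a
      by_cases h : a ∈ S ∩ I
      · by_cases hex : ∃ i, Lm i ∧ (∀ a < i, f1 a < i) ∧ i ≤ k.symm ⟨a, h.2⟩
        · obtain ⟨i, hi1, hi2, hi3⟩ := hex
          obtain ⟨i₀, h01, h02, h03, h04⟩ := club_max _ f1 _ i hi1 hi2 hi3
          have haW : a ∉ W i₀ := by
            have h5 : ((k (k.symm ⟨a, h.2⟩) : I) : L) = a := by simp
            rw [← h5, hWk]
            exact not_lt.2 h03
          have hfin : (g a ∩ W i₀).Finite := by
            by_contra hninf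
            exact hC i₀ h01 h02 ⟨a, h.1, h.2, haW, hninf⟩
          have : (g a \ W i₀).Infinite := by
            intro hfin2
            apply (hg2 a h.1).1
            have : g a = (g a ∩ W i₀) ∪ (g a \ W i₀) := by
              rw [Set.inter_union_sdiff]
            rw [this]
            exact hfin.union hfin2
          obtain ⟨c, hc1, hc2⟩ := this.nonempty
          exact ⟨c, fun _ => ⟨hc1, fun i' h1' h2' h3' hcon => hc2 (hWmono _ _ (h04 i' h1' h2' h3') hcon)⟩⟩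
        · obtain ⟨c, hc⟩ := (hg2 a h.1).1.nonempty
          refine ⟨c, fun _ => ⟨hc, fun i hi1 hi2 hi3 => ?_⟩⟩
          exact absurd ⟨i, hi1, hi2, hi3⟩ hex
      · exact ⟨a, fun h' => absurd h' h⟩
    choose f hf using hf
    obtain ⟨c, hc⟩ := hIf f (fun a ha => (hf a ha).1)
    apply hc
    by_cases hne : ({a | a ∈ S ∩ I ∧ f a = c} : Set L).Nonempty
    · obtain ⟨a0, ha0, ha0c⟩ := hne
      have hcI : c ∈ I := ha0c ▸ hIcl a0 ha0 (hf a0 ha0).1
      obtain ⟨i1, hi1, hi2, hi3⟩ := club_unb _ hR1 f1 (k.symm ⟨c, hcI⟩)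
      refine (hWc i1).mono ?_
      rintro a ⟨ha, hac⟩
      have h5 : ((k (k.symm ⟨a, ha.2⟩) : I) : L) = a := by simp
      rw [← h5, hWk]
      by_contra hcon
      have h6 := (hf a ha).2 i1 hi2 hi3 (not_lt.1 hcon)
      apply h6
      have h7 : ((k (k.symm ⟨c, hcI⟩) : I) : L) = c := by simp
      rw [hac, ← h7, hWk]
      exact hi1
    · rw [Set.not_nonempty_iff_eq_empty.1 hne]
      exact Set.countable_empty
  -- choice of the marked points
  obtain ⟨x0, -, -⟩ := hSt id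
  have hw : ∀ i, ∃ a, i ∈ T → a ∈ S ∧ a ∈ I ∧ a ∉ W i ∧ (g a ∩ W i).Infinite := by
    intro i
    by_cases hi : i ∈ T
    · obtain ⟨a, ha⟩ := hi
      exact ⟨a, fun _ => ha⟩
    · exact ⟨x0, fun h => absurd h hi⟩
  choose w hw using hw
  have hT2 := hI _ hR1 T id hT
  obtain ⟨e, S', hS'sub, heinj, -, hS'St, he⟩ := hS _ hR1 L W w _ hFil hT2
    (fun a ha => ⟨hWU _ (hw a ha.1).2.1, (hw a ha.1).2.2.1⟩)
  refine ⟨fun x => B (e x), S', fun x => hB (e x), fun x y hxy => hdisj _ _ (heinj.ne hxy), hS'St,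
    fun a ha => h1 _ hR1 hL1c a (hS'sub ha).2.1, ?_⟩
  intro a ha
  obtain ⟨he1, he2⟩ := he a ha
  obtain ⟨hw1, -, -, hw4⟩ := hw a (hS'sub ha).1
  refine Set.Infinite.of_image e (hw4.mono ?_)
  rintro y ⟨hy1, hy2⟩
  rw [← he1] at hy2
  obtain ⟨x, hx, rfl⟩ := hy2
  refine ⟨x, ⟨hx, ?_⟩, rfl⟩
  have := ((hg2 (w a) hw1).2 hy1).2
  rw [← he2] at this
  exact this

end Pool.Agent.W910.NS.T_O5
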