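import Pool.Agent.W910.NS.Stmts3
import Pool.Agent.W910.NS.T_O5

/-! If there is no stationary set of bad indices, the ladders are essentially disjoint. -/

set_option autoImplicit false

open Cardinal Set

namespace Pool.Agent.W910.NS.T_E14

universe u

open Pool.Agent.W910.NS.T_O5 (club_unb)

theorem main (hr : S_reg.{u}) (he : S_ess.{u}) : S_disj.{u} := by
  classical
  intro L _ _ S A E e hinj hEc hEr hS hSS hns
  have hR1 : Reg (Ltype (ℵ₁ : Cardinal.{u})) := hr _ Cardinal.isRegular_aleph_one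
    Cardinal.aleph0_lt_aleph_one
  have hL1c : #(Ltype (ℵ₁ : Cardinal.{u})) = ℵ₁ := by
    simp [Ltype]
  have hne : Nonempty (Ltype (ℵ₁ : Cardinal.{u})) := by
    rw [← Cardinal.mk_ne_zero_iff, hL1c]
    exact (Cardinal.aleph0_pos.trans Cardinal.aleph0_lt_aleph_one).ne'
  have hseg : ∀ i : Ltype (ℵ₁ : Cardinal.{u}), (Iio i).Countable := by
    intro i
    have h2 : #(Iio i) < ℵ₁ := by
      have := hR1.seg i
      rwa [hL1c] at this
    rw [← Cardinal.le_aleph0_iff_set_countable]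
    exact Order.lt_succ_iff.1 (h2.trans_eq Cardinal.succ_aleph0.symm)
  let ix : L → Ltype (ℵ₁ : Cardinal.{u}) := Function.invFun e
  have hix : ∀ i, ix (e i) = i := Function.leftInverse_invFun hinj
  -- bounds for the indices of `E`
  have h2 : ∀ j, ∃ b, ∀ y ∈ E (e j), ix y < b := by
    intro j
    obtain ⟨b, hb⟩ := hR1.bd (ix '' E (e j)) (by
      refine lt_of_le_of_lt ?_ hR1.unc
      exact Cardinal.mk_le_aleph0_iff.2 ((hEc (e j)).image ix).to_subtype)
    exact ⟨b, fun y hy => hb _ ⟨y, hy, rfl⟩⟩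
  choose f2 hf2 using h2
  unfold St at hns
  push Not at hns
  obtain ⟨f1, hf1⟩ := hns
  let ff : Ltype (ℵ₁ : Cardinal.{u}) → Ltype (ℵ₁ : Cardinal.{u}) := fun j => max (f1 j) (f2 j)
  have hCfin : ∀ i, Lm i → (∀ a < i, ff a < i) → ∀ w ∈ S, w ∉ e '' Iio i →
      (A w ∩ e '' Iio i).Finite := by
    intro i hi hic w hw hwi
    by_contra hinf
    have hbad : i ∈ {i | (∀ x ∈ e '' Iio i, E x ⊆ e '' Iio i) ∧
        ∃ w ∈ S, w ∉ e '' Iio i ∧ (A w ∩ e '' Iio i).Infinite} := by
      refine ⟨?_, w, hw, hwi, hinf⟩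
      rintro _ ⟨j, hj, rfl⟩ y hy
      obtain ⟨k, rfl⟩ := hEr (e j) ⟨j, rfl⟩ hy
      refine ⟨k, ?_, rfl⟩
      have h3 := hf2 j _ hy
      rw [hix] at h3
      exact h3.trans (lt_of_le_of_lt (le_max_right (f1 j) (f2 j)) (hic j hj))
    obtain ⟨a, ha1, ha2⟩ := hf1 i hbad hi
    exact absurd (lt_of_le_of_lt (le_max_left (f1 a) (f2 a)) (hic a ha1)) (not_lt.2 ha2)
  have hnx : ∀ j : Ltype (ℵ₁ : Cardinal.{u}), ∃ i, j < i ∧ Lm i ∧ ∀ a < i, ff a < i :=
    fun j => club_unb _ hR1 ff j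
  choose nx hnx1 hnx2 hnx3 using hnx
  let E' : L → Set L := fun x => if x ∈ range e then e '' Iio (nx (ix x)) else ∅
  refine he L S A E' ?_ (fun a ha => (hS a ha).2.2) hSS ?_
  · intro x
    by_cases hx : x ∈ range e
    · simp only [E', if_pos hx]
      exact (hseg _).image e
    · simp only [E', if_neg hx]
      exact Set.countable_empty
  · intro a ha K hK haK
    obtain ⟨⟨ja, hja⟩, hAr, -, -⟩ := hS a ha
    have hsub : ∀ j, e j ∈ K → e '' Iio (nx j) ⊆ K := by
      intro j hj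
      have h3 := hK (e j) hj
      simp only [E', if_pos (mem_range_self j), hix] at h3
      exact h3
    by_cases hKe : ∃ j, e j ∈ K
    · obtain ⟨j0, hj0⟩ := hKe
      have hle : ∀ j, e j ∈ K → nx j ≤ ja := by
        intro j hj
        by_contra hcon
        exact haK (hsub j hj ⟨ja, not_le.1 hcon, hja⟩)
      have hUne : ({b | ∀ j, e j ∈ K → nx j ≤ b} :
          Set (Ltype (ℵ₁ : Cardinal.{u}))).Nonempty := ⟨ja, hle⟩
      obtain ⟨js, hjs⟩ : ∃ js, js = wellFounded_lt.min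
        {b : Ltype (ℵ₁ : Cardinal.{u}) | ∀ j, e j ∈ K → nx j ≤ b} hUne := ⟨_, rfl⟩
      have hU : ∀ j, e j ∈ K → nx j ≤ js := by
        rw [hjs]
        exact WellFounded.min_mem wellFounded_lt
          {b : Ltype (ℵ₁ : Cardinal.{u}) | ∀ j, e j ∈ K → nx j ≤ b} hUne
      have hlt : ∀ b, b < js → ∃ j, e j ∈ K ∧ b < nx j := by
        intro b hb
        by_contra hcon
        push Not at hcon
        rw [hjs] at hb
        exact WellFounded.not_lt_min wellFounded_lt
          {b : Ltype (ℵ₁ : Cardinal.{u}) | ∀ j, e j ∈ K → nx j ≤ b} (x := b) hcon hb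
      have hjsa : js ≤ ja := by
        by_contra hcon
        rw [not_le] at hcon
        obtain ⟨j, hj, hj2⟩ := hlt ja hcon
        exact absurd (hle j hj) (not_le.2 hj2)
      have hLm : Lm js := by
        constructor
        · obtain ⟨b, hb⟩ := (hnx2 j0).1
          exact ⟨b, lt_of_lt_of_le hb (hU j0 hj0)⟩
        · intro b hb
          obtain ⟨j, hj, hj2⟩ := hlt b hb
          obtain ⟨c, hc1, hc2⟩ := (hnx2 j).2 b hj2
          exact ⟨c, hc1, lt_of_lt_of_le hc2 (hU j hj)⟩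
      have hcl : ∀ b < js, ff b < js := by
        intro b hb
        obtain ⟨j, hj, hj2⟩ := hlt b hb
        exact lt_of_lt_of_le (hnx3 j b hj2) (hU j hj)
      have haj : a ∉ e '' Iio js := by
        rintro ⟨i, hi, hia⟩
        rw [← hja] at hia
        have : i = ja := hinj hia
        rw [this] at hi
        exact absurd hjsa (not_le.2 hi)
      refine (hCfin js hLm hcl a ha haj).subset ?_
      rintro y ⟨hy1, hy2⟩
      obtain ⟨k, rfl⟩ := hAr hy1
      exact ⟨hy1, k, lt_of_lt_of_le (hnx1 k) (hU k hy2), rfl⟩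
    · refine Set.Finite.subset Set.finite_empty ?_
      rintro y ⟨hy1, hy2⟩
      obtain ⟨k, rfl⟩ := hAr hy1
      exact hKe ⟨k, hy2⟩

end Pool.Agent.W910.NS.T_E14
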