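import Pool.Agent.W910.NS.Stmts3

/-! From an obstruction of size `ℵ₁` in the ladder graph to a stationary set of bad indices. -/

set_option autoImplicit false

open Cardinal Set

namespace Pool.Agent.W910.NS.T_E15

universe u

theorem ladder_countable {L : Type u} [LinearOrder L] (A : Set L)
    (h : ∀ b ∈ A, (A ∩ Iio b).Finite) : A.Countable := by
  refine Set.countable_of_injective_of_countable_image (f := fun x => (A ∩ Iio x).ncard) ?_
    (Set.to_countable _)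
  have key : ∀ x ∈ A, ∀ y ∈ A, x < y → (A ∩ Iio x).ncard < (A ∩ Iio y).ncard := by
    intro x hx y hy hxy
    refine Set.ncard_lt_ncard ?_ (h y hy)
    refine ⟨fun z hz => ⟨hz.1, lt_trans hz.2 hxy⟩, fun hsub => ?_⟩
    exact lt_irrefl x (hsub ⟨hx, hxy⟩).2
  intro x hx y hy hxy
  simp only at hxy
  rcases lt_trichotomy x y with h1 | h1 | h1
  · exact absurd hxy (key x hx y hy h1).ne
  · exact h1
  · exact absurd hxy (key y hy x hx h1).ne'

/-- closure of a set under a unary operation with countable values -/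
theorem closure_exists {L : Type u} (X : Set L) (hX : #X ≤ ℵ₁) (E : L → Set L)
    (hE : ∀ x, (E x).Countable) : ∃ I : Set L, X ⊆ I ∧ (∀ x ∈ I, E x ⊆ I) ∧ #I ≤ ℵ₁ := by
  classical
  let F : ℕ → Set L := fun n => Nat.rec X (fun _ Y => ⋃ z ∈ Y, E z) n
  have hF0 : F 0 = X := rfl
  have hFS : ∀ n, F (n + 1) = ⋃ z ∈ F n, E z := fun _ => rfl
  have hFc : ∀ n, #(↥(F n)) ≤ (ℵ₁ : Cardinal.{u}) := by
    intro n
    induction n with
    | zero => exact hX
    | succ n ih =>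
      rw [hFS]
      refine (Cardinal.mk_biUnion_le _ _).trans ?_
      have h1 : (⨆ x : F n, #(E x.1)) ≤ (ℵ₁ : Cardinal.{u}) := by
        refine ciSup_le' fun x => ?_
        exact (Cardinal.mk_le_aleph0_iff.2 (hE x.1).to_subtype).trans
          Cardinal.aleph0_lt_aleph_one.le
      refine (mul_le_mul' ih h1).trans ?_
      rw [Cardinal.mul_eq_self (Cardinal.aleph0_lt_aleph_one.le)]
  refine ⟨⋃ n : ULift.{u} ℕ, F n.down, ?_, ?_, ?_⟩
  · intro x hx
    exact Set.mem_iUnion.2 ⟨⟨0⟩, hx⟩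
  · intro x hx y hy
    obtain ⟨n, hn⟩ := Set.mem_iUnion.1 hx
    refine Set.mem_iUnion.2 ⟨⟨n.down + 1⟩, ?_⟩
    simp only [hFS]
    exact Set.mem_iUnion₂.2 ⟨x, hn, hy⟩
  · refine (Cardinal.mk_iUnion_le _).trans ?_
    have h1 : (⨆ n : ULift.{u} ℕ, #(↥(F n.down))) ≤ (ℵ₁ : Cardinal.{u}) := ciSup_le' fun n => hFc n.down
    have h2 : #(ULift.{u} ℕ) ≤ ℵ₁ := by
      rw [Cardinal.mk_uLift, Cardinal.mk_nat, Cardinal.lift_aleph0]
      exact Cardinal.aleph0_lt_aleph_one.le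
    refine (mul_le_mul' h2 h1).trans ?_
    rw [Cardinal.mul_eq_self (Cardinal.aleph0_lt_aleph_one.le)]

theorem main (_ : S_reg.{u}) (ht : S_tr.{u}) (hd : S_disj.{u}) (hN : S_lgNT.{u})
    (hn : S_noObs.{u}) : S_refl.{u} := by
  classical
  intro L _ _ hL hL1 S A E hE hA hAA hObs
  obtain ⟨I₀, hI₀, hI₀'⟩ := ht L S A hObs
  obtain ⟨Z, hZ⟩ := Cardinal.le_mk_iff_exists_set.1 hL1.le
  let E1 : L → Set L := fun x => E x ∪ (if x ∈ S then A x else ∅)
  have hE1 : ∀ x, (E1 x).Countable := by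
    intro x
    refine (hE x).union ?_
    by_cases hx : x ∈ S
    · rw [if_pos hx]
      exact ladder_countable _ (hA x hx).2.2
    · rw [if_neg hx]
      exact Set.countable_empty
  have hEE1 : ∀ x, E x ⊆ E1 x := fun x => subset_union_left
  have hAE1 : ∀ x ∈ S, A x ⊆ E1 x := by
    intro x hx y hy
    refine Or.inr ?_
    rw [if_pos hx]
    exact hy
  obtain ⟨I, hI1, hI2, hI3⟩ := closure_exists (I₀ ∪ Z) (by
    refine (Cardinal.mk_union_le _ _).trans ?_
    rw [hZ]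
    refine (add_le_add hI₀ le_rfl).trans ?_
    rw [Cardinal.add_eq_self (Cardinal.aleph0_lt_aleph_one.le)]) E1 hE1
  have hIc : #I = ℵ₁ := by
    refine le_antisymm hI3 ?_
    rw [← hZ]
    exact Cardinal.mk_le_mk_of_subset (subset_union_right.trans hI1)
  have hL1c : #(Ltype (ℵ₁ : Cardinal.{u})) = ℵ₁ := by
    simp [Ltype]
  obtain ⟨k⟩ : Nonempty (Ltype (ℵ₁ : Cardinal.{u}) ≃ I) := by
    rw [← Cardinal.eq, hL1c, hIc]
  let e : Ltype (ℵ₁ : Cardinal.{u}) → L := fun i => (k i : L)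
  have hinj : Function.Injective e := fun i j h => k.injective (Subtype.ext h)
  have hre : ∀ x, x ∈ range e ↔ x ∈ I := by
    intro x
    constructor
    · rintro ⟨i, rfl⟩
      exact (k i).2
    · intro hx
      exact ⟨k.symm ⟨x, hx⟩, by simp [e]⟩
  have hreI : range e = I := by
    ext x
    exact hre x
  obtain ⟨b, hb⟩ := hL.bd I (by rw [hIc]; exact hL1)
  let T : Set (Ltype (ℵ₁ : Cardinal.{u})) :=
    {i | (∀ x ∈ e '' Iio i, E1 x ⊆ e '' Iio i) ∧
      ∃ w ∈ S ∩ I, w ∉ e '' Iio i ∧ (A w ∩ e '' Iio i).Infinite}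
  by_cases hT : St T
  · have hw : ∀ i, ∃ w, i ∈ T → w ∈ S ∩ I ∧ w ∉ e '' Iio i ∧ (A w ∩ e '' Iio i).Infinite := by
      intro i
      by_cases hi : i ∈ T
      · obtain ⟨w, hw⟩ := hi.2
        exact ⟨w, fun _ => hw⟩
      · exact ⟨b, fun h => absurd h hi⟩
    choose w hw using hw
    refine ⟨e, T, w, hinj, hT, ?_, ?_⟩
    · intro x hx
      rw [hreI]
      exact (hEE1 x).trans (hI2 x ((hre x).1 hx))
    · intro i hi
      obtain ⟨h1, h2, h3⟩ := hw i hi
      exact ⟨fun x hx => (hEE1 x).trans (hi.1 x hx), h1.1, (hre _).2 h1.2, h2, h3⟩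
  · exfalso
    obtain ⟨f, hf1, hf2⟩ := hd L (S ∩ I) A E1 e hinj hE1
      (fun x hx => by
        rw [hreI]
        exact hI2 x ((hre x).1 hx))
      (fun a ha => ⟨(hre a).2 ha.2, by
        rw [hreI]
        exact (hAE1 a ha.1).trans (hI2 a ha.2), (hA a ha.1).2⟩)
      (fun a ha a' ha' hne => hAA a ha.1 a' ha'.1 hne) hT
    obtain ⟨le, hle⟩ := hN L (S ∩ I) A b f (fun a ha => hA a ha.1)
      (fun a ha _ => hf1 a ha) (fun a ha _ a' ha' _ hne => hf2 a ha a' ha' hne)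
    exact hn _ _ _ le hle (hI₀' I (subset_union_left.trans hI1) b hb)

end Pool.Agent.W910.NS.T_E15
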