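import Pool.Agent.W910.NS.Stmts3

/-! The set required by the Fodor-type Reflection Principle (helper919). -/

set_option autoImplicit false

open Cardinal Set

namespace Pool.Agent.W910.NS.T_E16

open Pool.Agent.W910.NS

universe u

/-- Either all small elements lie below `w i`, or this holds below a fixed bound. -/
theorem thin (hp : S_press.{u}) (hs : S_split.{u}) (K : Type u) [LinearOrder K]
    [WellFoundedLT K] (hK : Reg K) (L : Type u) [LinearOrder L] [WellFoundedLT L]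
    (e : K → L) (T : Set K) (w : K → L) (hT : St T) (hw : ∀ i ∈ T, w i ∉ e '' Iio i) :
    ∃ (P : L → Prop) (T' : Set K), T' ⊆ T ∧ St T' ∧ (∀ i ∈ T', P (w i)) ∧
      (∀ x y, x < y → P y → P x) ∧ ∀ i ∈ T', ∀ j < i, P (e j) → e j < w i := by
  classical
  let T1 : Set K := {i | i ∈ T ∧ ∃ j < i, w i ≤ e j}
  let T2 : Set K := {i | i ∈ T ∧ ∀ j < i, e j < w i}
  have hTT : T ⊆ T1 ∪ T2 := by
    intro i hi
    by_cases h : ∃ j < i, w i ≤ e j
    · exact Or.inl ⟨hi, h⟩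
    · push Not at h
      exact Or.inr ⟨hi, h⟩
  have hT' : St (T1 ∪ T2) := by
    intro f
    obtain ⟨δ, h1, h2⟩ := hT f
    exact ⟨δ, hTT h1, h2⟩
  rcases hs K hK T1 T2 hT' with h | h
  · have hk : ∀ i, ∃ k, i ∈ T1 → k < i ∧ w i ≤ e k ∧ ∀ j < i, w i ≤ e j → e k ≤ e j := by
      intro i
      by_cases hi : i ∈ T1
      · have hne : (e '' {j | j < i ∧ w i ≤ e j}).Nonempty := by
          obtain ⟨j, hj1, hj2⟩ := hi.2
          exact ⟨e j, j, ⟨hj1, hj2⟩, rfl⟩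
        obtain ⟨k, ⟨hk1, hk2⟩, hk3⟩ := WellFounded.min_mem (wellFounded_lt (α := L)) _ hne
        refine ⟨k, fun _ => ⟨hk1, hk2, fun j hj1 hj2 => ?_⟩⟩
        rw [hk3]
        exact not_lt.1 (WellFounded.not_lt_min (wellFounded_lt (α := L))
          (e '' {j | j < i ∧ w i ≤ e j}) ⟨j, ⟨hj1, hj2⟩, rfl⟩)
      · exact ⟨i, fun h => absurd h hi⟩
    choose k hk using hk
    obtain ⟨c, hc⟩ := hp K hK T1 k h (fun a ha _ => (hk a ha).1)
    refine ⟨fun x => x < e c, _, ?_, hc, ?_, ?_, ?_⟩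
    · intro i hi
      exact hi.1.1
    · rintro i ⟨hi, rfl⟩
      obtain ⟨h1, h2, h3⟩ := hk i hi
      refine lt_of_le_of_ne h2 fun heq => hw i hi.1 ⟨k i, h1, heq.symm⟩
    · intro x y hxy hy
      exact lt_trans hxy hy
    · rintro i ⟨hi, rfl⟩ j hj hP
      obtain ⟨h1, h2, h3⟩ := hk i hi
      by_contra hcon
      exact absurd (h3 j hj (not_lt.1 hcon)) (not_le.2 hP)
  · exact ⟨fun _ => True, T2, fun i hi => hi.1, h, fun _ _ => trivial, fun _ _ _ _ => trivial,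
      fun i hi j hj _ => hi.2 j hj⟩

theorem main (hr : S_reg.{u}) (hp : S_press.{u}) (hs : S_split.{u}) (hu : S_unb.{u}) :
    S_back.{u} := by
  classical
  intro L _ _ hL hL1 S g h e T w hinj hT hgc hgh hge hw
  have hK : Reg (Ltype (ℵ₁ : Cardinal.{u})) := hr ℵ₁ Cardinal.isRegular_aleph_one
    Cardinal.aleph0_lt_aleph_one
  have hKc : #(Ltype (ℵ₁ : Cardinal.{u})) = ℵ₁ := by
    simp [Ltype]
  obtain ⟨P, T', hT'T, hT', hPw, hPd, hPe⟩ := thin hp hs _ hK L e T w hT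
    (fun i hi => (hw i hi).2.2.1)
  let J : Set L := {x | x ∈ range e ∧ P x}
  have hwJ : ∀ i ∈ T', w i ∈ J := fun i hi => ⟨(hw i (hT'T hi)).2.1, hPw i hi⟩
  have hunb := (hu _ hK T' hT').1
  -- countable subsets of `J` are strictly bounded in `J`
  have hctb : ∀ X : Set L, X ⊆ J → X.Countable → ∃ i ∈ T', ∀ x ∈ X, x < w i := by
    intro X hXJ hXc
    have h1 : #(↥(e ⁻¹' X)) < #(Ltype (ℵ₁ : Cardinal.{u})) := by
      refine lt_of_le_of_lt ?_ hK.unc
      rw [Cardinal.le_aleph0_iff_set_countable]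
      exact hXc.preimage hinj
    obtain ⟨b, hb⟩ := hK.bd _ h1
    obtain ⟨i, hi, hbi⟩ := hunb b
    refine ⟨i, hi, fun x hx => ?_⟩
    obtain ⟨⟨j, rfl⟩, hPx⟩ := hXJ hx
    exact hPe i hi j (lt_trans (hb j hx) hbi) hPx
  have hJmax : ∀ x ∈ J, ∃ i ∈ T', x < w i := by
    intro x hx
    obtain ⟨i, hi, h1⟩ := hctb {x} (by simpa using hx) (Set.countable_singleton x)
    exact ⟨i, hi, h1 x rfl⟩
  have hJnc : ¬ J.Countable := by
    intro hc
    obtain ⟨i, hi, h1⟩ := hctb J subset_rfl hc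
    exact lt_irrefl _ (h1 _ (hwJ i hi))
  have hJle : #J ≤ ℵ₁ := by
    refine (Cardinal.mk_le_mk_of_subset (t := range e) fun x hx => hx.1).trans ?_
    exact Cardinal.mk_range_le.trans hKc.le
  have hle1 : ∀ {α : Type u} (X : Set α), ¬ X.Countable → ℵ₁ ≤ #X := by
    intro α X hX
    rw [← Cardinal.succ_aleph0, Order.succ_le_iff, ← not_le,
      Cardinal.le_aleph0_iff_set_countable]
    exact hX
  have hJc : #J = ℵ₁ := le_antisymm hJle (hle1 J hJnc)
  have hcof : Order.cof J = ℵ₁ := by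
    apply le_antisymm
    · refine (Order.cof_le (s := (Set.univ : Set J)) ?_).trans ?_
      · intro x
        exact ⟨x, mem_univ x, le_rfl⟩
      · rw [Cardinal.mk_univ]
        exact hJle
    · rw [Order.le_cof_iff]
      intro s hs
      apply hle1
      intro hsc
      obtain ⟨i, hi, h1⟩ := hctb (Subtype.val '' s) (by
        rintro x ⟨y, _, rfl⟩
        exact y.2) (hsc.image _)
      obtain ⟨y, hy1, hy2⟩ := hs ⟨w i, hwJ i hi⟩
      exact absurd (h1 y ⟨y, hy1, rfl⟩) (not_lt.2 hy2)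
  -- the supremum
  obtain ⟨b0, hb0⟩ := hL.bd J (by rw [hJc]; exact hL1)
  have hne : (upperBounds J).Nonempty := ⟨b0, fun x hx => (hb0 x hx).le⟩
  let δ : L := WellFounded.min (wellFounded_lt (α := L)) (upperBounds J) hne
  have hlub : IsLUB J δ := ⟨WellFounded.min_mem (wellFounded_lt (α := L)) _ hne, fun b hb =>
    not_lt.1 (WellFounded.not_lt_min (wellFounded_lt (α := L)) _ hb)⟩
  have hJδ : ∀ x ∈ J, x < δ := by
    intro x hx
    obtain ⟨i, hi, hxi⟩ := hJmax x hx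
    exact lt_of_lt_of_le hxi (hlub.1 (hwJ i hi))
  have hδJ : ∀ b < δ, ∃ x ∈ J, b < x := by
    intro b hb
    by_contra hcon
    push Not at hcon
    exact absurd (hlub.2 hcon) (not_le.2 hb)
  refine ⟨J, hJc, hcof, ?_, δ, hlub, ?_⟩
  · rintro a ⟨haJ, haS⟩ x hx
    obtain ⟨i, hi, hai⟩ := hJmax a haJ
    have h1 : x < w i := lt_trans (hgh a haS x hx) ((hw i (hT'T hi)).2.2.2.1 a hai)
    exact ⟨hge a haS haJ.1 hx, hPd x (w i) h1 (hPw i hi)⟩
  · intro f hf
    have hm : ∀ i, ∃ m, i ∈ T' → m < i ∧ e m = f (w i) := by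
      intro i
      by_cases hi : i ∈ T'
      · obtain ⟨h1, h2⟩ := hf (w i) ⟨(hw i (hT'T hi)).1, hwJ i hi⟩
        obtain ⟨m, hm1, hm2⟩ := (hw i (hT'T hi)).2.2.2.2.1 _ h2 h1
        exact ⟨m, fun _ => ⟨hm1, hm2⟩⟩
      · exact ⟨i, fun h => absurd h hi⟩
    choose m hm using hm
    obtain ⟨c, hc⟩ := hp _ hK T' m hT' (fun a ha _ => (hm a ha).1)
    refine ⟨e c, ?_⟩
    intro C hC
    -- elements of the club above the parts of `J`
    have hk : ∀ j, ∃ (k : Ltype (ℵ₁ : Cardinal.{u})) (y : Iio δ), y ∈ C ∧ e k ∈ J ∧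
        (y : L) < e k ∧ ∀ j' < j, P (e j') → e j' < (y : L) := by
      intro j
      have h1 : (e '' {j' | j' < j ∧ P (e j')}).Countable := by
        refine Set.Countable.image ?_ _
        refine Set.Countable.mono (s₂ := Iio j) (fun x hx => hx.1) ?_
        rw [← Cardinal.le_aleph0_iff_set_countable, ← Order.lt_succ_iff, Cardinal.succ_aleph0]
        exact lt_of_lt_of_eq (hK.seg j) hKc
      obtain ⟨i, hi, h2⟩ := hctb _ (by
        rintro x ⟨j', hj', rfl⟩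
        exact ⟨⟨j', rfl⟩, hj'.2⟩) h1
      obtain ⟨y, hy1, hy2⟩ := hC.isCofinal ⟨w i, hJδ _ (hwJ i hi)⟩
      obtain ⟨x, hx1, hx2⟩ := hδJ y y.2
      obtain ⟨k, rfl⟩ := hx1.1
      exact ⟨k, y, hy1, hx1, hx2, fun j' hj' hP => lt_of_lt_of_le (h2 _ ⟨j', ⟨hj', hP⟩, rfl⟩) hy2⟩
    choose k y hyC hkJ hyk hjy using hk
    obtain ⟨i, ⟨hi, hic⟩, hlm, hik⟩ := hc k
    have hiT := hw i (hT'T hi)
    refine ⟨⟨w i, hJδ _ (hwJ i hi)⟩, ⟨⟨hiT.1, hwJ i hi⟩, ?_⟩, ?_⟩
    · rw [← hic]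
      exact (hm i hi).2.symm
    · refine hC.isLUB_mem (t := {z | z ∈ C ∧ (z : L) < w i}) (fun z hz => hz.1) ?_ ?_
      · obtain ⟨j, hj⟩ := hlm.1
        exact ⟨y j, hyC j, lt_trans (hyk j) (hPe i hi _ (hik j hj) (hkJ j).2)⟩
      · constructor
        · intro z hz
          exact le_of_lt hz.2
        · intro b hb
          by_contra hcon
          rw [not_le] at hcon
          obtain ⟨x, ⟨j0, hj0, rfl⟩, hx1, hx2⟩ := hiT.2.2.2.2.2 b hcon
          obtain ⟨j, hj1, hj2⟩ := hlm.2 j0 hj0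
          have h3 : y j ≤ b := hb ⟨hyC j, lt_trans (hyk j) (hPe i hi _ (hik j hj2) (hkJ j).2)⟩
          have h4 : e j0 < (y j : L) := hjy j j0 hj1 (hPd _ _ hx2 (hPw i hi))
          exact absurd (lt_trans hx1 h4) (not_lt.2 h3)

end Pool.Agent.W910.NS.T_E16
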