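import Pool.Agent.W910.NS.Stmts3

/-! Assembly: the characterisation up to `κ` implies the Fodor-type Reflection Principle at `κ`. -/

set_option autoImplicit false

open Cardinal Set

namespace Pool.Agent.W910.NS.T_E17

universe u

theorem Cw_of_cof {L : Type u} [LinearOrder L] {a : L} (h : Order.cof (Iio a) = ℵ₀) : Cw a := by
  obtain ⟨s, hs, hsc⟩ := Order.exists_cof_eq (Iio a)
  rw [h] at hsc
  have hcount : s.Countable := Cardinal.le_aleph0_iff_set_countable.1 hsc.le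
  have hne : s.Nonempty := by
    rw [nonempty_iff_ne_empty]
    rintro rfl
    rw [Cardinal.mk_eq_zero] at hsc
    exact Cardinal.aleph0_ne_zero hsc.symm
  obtain ⟨f, hf⟩ := hcount.exists_eq_range hne
  have hnt : NoTopOrder (Iio a) := by
    rw [← Order.cof_ne_one_iff, h]
    exact Cardinal.one_lt_aleph0.ne'
  refine ⟨fun n => (f n : L), fun n => (f n).2, fun b hb => ?_⟩
  obtain ⟨y, hy⟩ := hnt.exists_not_le (⟨b, hb⟩ : Iio a)
  obtain ⟨z, hz, hyz⟩ := hs y
  rw [hf] at hz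
  obtain ⟨n, rfl⟩ := hz
  refine ⟨n, ?_⟩
  have h1 : (⟨b, hb⟩ : Iio a) < y := not_le.1 hy
  exact lt_of_lt_of_le h1 hyz

theorem card_le (κ : Cardinal.{u}) (hκ : ℵ₀ < κ) :
    #(Finset (Ltype κ) ⊕ Ltype κ) ≤ κ := by
  have hcard : #(Ltype κ) = κ := mk_ord_toType κ
  have : Infinite (Ltype κ) := by
    rw [Cardinal.infinite_iff, hcard]
    exact hκ.le
  rw [Cardinal.mk_sum, Cardinal.lift_id, Cardinal.lift_id, Cardinal.mk_finset_of_infinite, hcard,
    Cardinal.add_eq_self hκ.le]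

theorem main (hr : S_reg.{u}) (hst : S_stat.{u}) (hi : S_inter.{u}) (hco : S_code2.{u})
    (hcn : S_lgConn.{u}) (hno : S_lgNo.{u}) (htn : S_toNT.{u}) (hrf : S_refl.{u})
    (hb : S_back.{u}) : S_conv2.{u} := by
  classical
  intro κ hκ hκ1 hsm S hS hcof g hg
  have hℵ : ℵ₀ < κ := aleph0_lt_aleph_one.trans hκ1
  have hReg : Reg (Ltype κ) := hr κ hκ hℵ
  have hcard : #(Ltype κ) = κ := mk_ord_toType κ
  have hSt : St S := (hst (Ltype κ) hReg S).1 hS
  have hCw : ∀ a ∈ S, Cw a := fun a ha => Cw_of_cof (hcof a ha)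
  have hh : ∀ a : Ltype κ, ∃ b, a ∈ S → ∀ x ∈ g a, x < b := by
    intro a
    by_cases ha : a ∈ S
    · obtain ⟨b, hb⟩ := hReg.bd (g a)
        (lt_of_le_of_lt (Cardinal.mk_le_aleph0_iff.2 (hg a ha).to_subtype) hReg.unc)
      exact ⟨b, fun _ => hb⟩
    · exact ⟨a, fun h => absurd h ha⟩
  choose h hh using hh
  have hS1 : St {a | a ∈ S ∧ Lm a ∧ ∀ b < a, h b < a} := hi _ hReg S h hSt
  have hc : ∀ a : Ltype κ, ∃ c : ℕ → Ltype κ,
      a ∈ S → (∀ n, c n < a) ∧ ∀ b < a, ∃ n, b < c n := by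
    intro a
    by_cases ha : a ∈ S
    · obtain ⟨c, hc⟩ := hCw a ha
      exact ⟨c, fun _ => hc⟩
    · exact ⟨fun _ => a, fun h => absurd h ha⟩
  choose c hc using hc
  obtain ⟨S', A, D, hS'1, hS'St, hD, hA, hAA, hcode⟩ := hco (Ltype κ) hReg _
    (fun a => (g a ∩ Iio a) ∪ range (c a)) hS1 (fun a ha => hCw a ha.1) (by
      intro a ha
      refine ⟨?_, ?_, ?_⟩
      · rintro x (hx | ⟨n, rfl⟩)
        · exact hx.2
        · exact (hc a ha.1).1 n
      · exact ((hg a ha.1).mono inter_subset_left).union (Set.countable_range _)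
      · exact ⟨c a 0, Or.inr ⟨0, rfl⟩⟩)
  rcases hsm _ (LG S' A) (card_le κ hℵ) (hcn _ S' A) with hT | hObs
  · exact absurd (htn _ _ hT) (hno (Ltype κ) hReg S' A hS'St hA)
  · let E : Ltype κ → Set (Ltype κ) := fun x => D x ∪ (if x ∈ S then g x else ∅)
    have hE : ∀ x, (E x).Countable := by
      intro x
      refine (hD x).union ?_
      by_cases hx : x ∈ S
      · rw [if_pos hx]
        exact hg x hx
      · rw [if_neg hx]
        exact Set.countable_empty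
    obtain ⟨e, T, w, hinj, hT, hre, hTi⟩ := hrf (Ltype κ) hReg (by rw [hcard]; exact hκ1) S' A E
      hE hA hAA hObs
    refine hb (Ltype κ) hReg (by rw [hcard]; exact hκ1) S g h e T w hinj hT hg hh ?_ ?_
    · intro a ha hae x hx
      refine hre a hae (Or.inr ?_)
      rw [if_pos ha]
      exact hx
    · intro i hiT
      obtain ⟨h1, h2, h3, h4, h5⟩ := hTi i hiT
      have hw := hS'1 h2
      have hN := hcode (w i) h2 (e '' Iio i)
        (fun x hx => subset_union_left.trans (h1 x hx)) h5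
      refine ⟨hw.1, h3, h4, hw.2.2, ?_, ?_⟩
      · intro x hx hxw
        exact hN (Or.inl ⟨hx, hxw⟩)
      · intro b hbw
        obtain ⟨n, hn⟩ := (hc (w i) hw.1).2 b hbw
        exact ⟨c (w i) n, hN (Or.inr ⟨n, rfl⟩), hn, (hc (w i) hw.1).1 n⟩

theorem conv1 (hr : S_reg.{u}) (hst : S_stat.{u}) (ht : S_toNT.{u}) (hn : S_noObs.{u})
    (hc : S_lgConn.{u}) (hl : S_lgNo.{u}) (hN : S_lgNT.{u}) (ho : S_obsSub.{u}) :
    S_conv1.{u} := by
  intro κ hκ hκ1 hsc hads
  obtain ⟨S, A, hS, hcof, hA, hβ⟩ := hads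
  have hℵ : ℵ₀ < κ := aleph0_lt_aleph_one.trans hκ1
  have hReg : Reg (Ltype κ) := hr κ hκ hℵ
  have hcard : #(Ltype κ) = κ := mk_ord_toType κ
  have hSt : St S := (hst (Ltype κ) hReg S).1 hS
  have hfin : ∀ s : Set (Ltype κ), s.Finite → #s < #(Ltype κ) := by
    intro s hs
    rw [hcard]
    exact (lt_aleph0_iff_set_finite.2 hs).trans hℵ
  rcases hsc _ (LG S A) (card_le κ hℵ) (hc _ S A) with h | h
  · exact hl (Ltype κ) hReg S A hSt hA (ht _ _ h)
  · obtain ⟨b, hb⟩ := ho (Ltype κ) hReg (by rw [hcard]; exact hκ1) _ (LG S A)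
      (LV (L := Ltype κ))
      (by
        intro i j hij p hp
        rcases hp with ⟨s, hs, rfl⟩ | ⟨a, ha, rfl⟩
        · exact Or.inl ⟨s, fun x hx => (hs x hx).trans_le hij, rfl⟩
        · exact Or.inr ⟨a, ha.trans_le hij, rfl⟩)
      (by
        rintro (s | a)
        · obtain ⟨b, hb⟩ := hReg.bd (s : Set (Ltype κ)) (hfin _ s.finite_toSet)
          exact ⟨b, Or.inl ⟨s, fun x hx => hb x (by simpa using hx), rfl⟩⟩
        · obtain ⟨b, hb⟩ := hReg.bd {a} (hfin _ (Set.finite_singleton a))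
          exact ⟨b, Or.inr ⟨a, hb a rfl, rfl⟩⟩) h
    obtain ⟨f, hf1, hf2⟩ := hβ b
    obtain ⟨le, hle⟩ := hN (Ltype κ) S A b f hA hf1 hf2
    exact hn _ _ _ _ hle hb

end Pool.Agent.W910.NS.T_E17
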