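import Pool.Agent.W910.NS.Stmts

/-! Subtask NS-O2: the regular well orders `κ.ord.ToType`, the union lemma, stationary sets. -/

set_option autoImplicit false

open Cardinal Set

namespace Pool.Agent.W910.NS.T_O2

open Pool.Agent.W910.NS

universe u

theorem reg : S_reg.{u} := by
  intro κ hκ hκ0
  have hc : #(Ltype κ) = κ := mk_ord_toType κ
  refine ⟨?_, ?_, ?_⟩
  · rw [hc]; exact hκ0
  · intro a
    rw [hc]
    simpa using Cardinal.mk_Iio_lt a
  · intro A hA
    rw [hc] at hA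
    have h1 : ¬ IsCofinal A := by
      intro h
      have h2 := Order.cof_le h
      rw [Ordinal.cof_toType, hκ.cof_ord] at h2
      exact absurd hA (not_lt.2 h2)
    rw [not_isCofinal_iff] at h1
    exact h1

theorem cofL (L : Type u) [LinearOrder L] [WellFoundedLT L] (h : Reg L) :
    #L ≤ Order.cof L := by
  rw [Order.le_cof_iff]
  intro s hs
  by_contra hc
  rw [not_le] at hc
  obtain ⟨b, hb⟩ := h.bd s hc
  obtain ⟨c, hc1, hc2⟩ := hs b
  exact absurd (hb c hc1) (not_lt.2 hc2)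

theorem regL (L : Type u) [LinearOrder L] [WellFoundedLT L] (h : Reg L) :
    (#L).IsRegular := by
  refine ⟨h.unc.le, ?_⟩
  have h1 : (#L).ord = Ordinal.type (fun x1 x2 : L => x1 < x2) := by
    apply le_antisymm (Cardinal.ord_le_type _)
    apply le_of_forall_lt
    intro o ho
    rw [Cardinal.lt_ord]
    obtain ⟨a, rfl⟩ := Ordinal.typein_surj (fun x1 x2 : L => x1 < x2) ho
    exact h.seg a
  rw [h1, Ordinal.cof_type]
  exact cofL L h

theorem card : S_card.{u} := by
  intro L _ _ h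
  refine ⟨regL L h, ?_⟩
  intro X ι A hι hA
  exact (card_iUnion_lt_iff_forall_of_isRegular (regL L h) hι).2 hA

theorem exGt (L : Type u) [LinearOrder L] [WellFoundedLT L] (h : Reg L) (x : L) :
    ∃ y, x < y := by
  have h1 : #({x} : Set L) < #L := by
    rw [mk_singleton]
    exact lt_of_lt_of_le one_lt_aleph0 h.unc.le
  obtain ⟨b, hb⟩ := h.bd _ h1
  exact ⟨b, hb x rfl⟩

theorem club (L : Type u) [LinearOrder L] [WellFoundedLT L] (h : Reg L) (f : L → L) :
    IsClub {δ : L | Lm δ ∧ ∀ a < δ, f a < δ} := by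
  constructor
  · intro t ht htn _ a ha
    have key : ∀ b, b < a → ∃ δ ∈ t, b < δ := by
      intro b hb
      by_contra hcon
      push Not at hcon
      exact absurd (ha.2 hcon) (not_le.2 hb)
    refine ⟨⟨?_, ?_⟩, ?_⟩
    · obtain ⟨δ, hδ⟩ := htn
      obtain ⟨b, hb⟩ := (ht hδ).1.1
      exact ⟨b, lt_of_lt_of_le hb (ha.1 hδ)⟩
    · intro b hb
      obtain ⟨δ, hδ, hbδ⟩ := key b hb
      obtain ⟨c, hc1, hc2⟩ := (ht hδ).1.2 b hbδ
      exact ⟨c, hc1, lt_of_lt_of_le hc2 (ha.1 hδ)⟩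
    · intro b hb
      obtain ⟨δ, hδ, hbδ⟩ := key b hb
      exact lt_of_lt_of_le ((ht hδ).2 b hbδ) (ha.1 hδ)
  · intro x
    choose s hs using exGt L h
    have hg : ∀ y : L, ∃ b, ∀ a ∈ f '' Iio y, a < b := by
      intro y
      exact h.bd _ (lt_of_le_of_lt mk_image_le (h.seg y))
    choose g hg using hg
    let xs : ℕ → L := fun n => Nat.rec x (fun _ y => max (s y) (g y)) n
    have hxs : ∀ n, xs (n + 1) = max (s (xs n)) (g (xs n)) := fun n => rfl
    have hlt : ∀ n, xs n < xs (n + 1) := by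
      intro n
      rw [hxs]
      exact lt_of_lt_of_le (hs _) (le_max_left _ _)
    have hf : ∀ n a, a < xs n → f a < xs (n + 1) := by
      intro n a ha
      rw [hxs]
      exact lt_of_lt_of_le (hg _ _ ⟨a, ha, rfl⟩) (le_max_right _ _)
    have hr : #(range xs) < #L := by
      refine lt_of_le_of_lt ?_ h.unc
      rw [le_aleph0_iff_set_countable]
      exact countable_range xs
    obtain ⟨b0, hb0⟩ := h.bd _ hr
    have hne : {b : L | ∀ n, xs n < b}.Nonempty := ⟨b0, fun n => hb0 _ ⟨n, rfl⟩⟩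
    let δ : L := WellFounded.min (wellFounded_lt (α := L)) {b : L | ∀ n, xs n < b} hne
    have hδ1 : ∀ n, xs n < δ :=
      WellFounded.min_mem (wellFounded_lt (α := L)) {b : L | ∀ n, xs n < b} hne
    have hδ2 : ∀ a, a < δ → ∃ n, a < xs n := by
      intro a ha
      by_contra hcon
      push Not at hcon
      have h3 : a ∈ {b : L | ∀ n, xs n < b} := by
        intro n
        exact lt_of_lt_of_le (hlt n) (hcon (n + 1))
      exact WellFounded.not_lt_min (wellFounded_lt (α := L)) {b : L | ∀ n, xs n < b} h3 ha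
    refine ⟨δ, ⟨⟨⟨xs 0, hδ1 0⟩, ?_⟩, ?_⟩, ?_⟩
    · intro a ha
      obtain ⟨n, hn⟩ := hδ2 a ha
      exact ⟨xs n, hn, hδ1 n⟩
    · intro a ha
      obtain ⟨n, hn⟩ := hδ2 a ha
      exact lt_trans (hf n a hn) (hδ1 (n + 1))
    · exact (hδ1 0).le

theorem stat : S_stat.{u} := by
  intro L _ _ h S
  constructor
  · intro hS f
    obtain ⟨δ, hδ1, hδ2⟩ := hS (club L h f)
    exact ⟨δ, hδ1, hδ2⟩
  · intro hS C hC
    have h1 : ∀ a : L, ∃ c ∈ C, a < c := by
      intro a
      obtain ⟨y, hy⟩ := exGt L h a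
      obtain ⟨c, hc1, hc2⟩ := hC.isCofinal y
      exact ⟨c, hc1, lt_of_lt_of_le hy hc2⟩
    choose f hf1 hf2 using h1
    obtain ⟨δ, hδS, hδL, hδf⟩ := hS f
    refine ⟨δ, hδS, ?_⟩
    refine hC.isLUB_mem (t := C ∩ Iio δ) inter_subset_left ?_ ?_
    · obtain ⟨a, ha⟩ := hδL.1
      exact ⟨f a, hf1 a, hδf a ha⟩
    · constructor
      · intro c hc
        exact le_of_lt hc.2
      · intro b hb
        by_contra hcon
        rw [not_le] at hcon
        have h3 := hb (a := f b) ⟨hf1 b, hδf b hcon⟩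
        exact absurd h3 (not_le.2 (hf2 b))

end Pool.Agent.W910.NS.T_O2
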