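import Pool.Agent.W910.NS.Stmts

/-! From the tree order to a spanning tree graph. -/

set_option autoImplicit false

open Cardinal Set

namespace Pool.Agent.W910.NS.T_F1

universe u

variable {V : Type u}

/-- The graph of the predecessor function. -/
def tg (r : V) (p : V → V) (hp : ∀ x, x ≠ r → p x ≠ x) : SimpleGraph V where
  Adj x y := (x ≠ r ∧ y = p x) ∨ (y ≠ r ∧ x = p y)
  symm := ⟨fun x y h => h.symm⟩
  loopless := ⟨fun x h => by
    rcases h with h | h
    · exact hp x h.1 h.2.symm
    · exact hp x h.1 h.2.symm⟩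

theorem stay {T : SimpleGraph V} {C : Set V} (h : ∀ a b, T.Adj a b → a ∈ C → b ∈ C) {x y : V}
    (hr : T.Reachable x y) (hx : x ∈ C) : y ∈ C := by
  obtain ⟨w⟩ := hr
  induction w with
  | nil => exact hx
  | cons h' q ih => exact ih (h _ _ h' hx)

theorem main : S_nst.{u} := by
  classical
  intro V G r le hN
  have hpred : ∀ x, ∃ y, x ≠ r → le y x ∧ y ≠ x ∧ G.Adj y x ∧ ∀ z, le z x → z ≠ x → le z y := by
    intro x
    by_cases hx : x = r
    · exact ⟨r, fun h => absurd hx h⟩
    · obtain ⟨y, hy⟩ := hN.pred x (mem_univ _) hx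
      exact ⟨y, fun _ => hy⟩
  choose p hp using hpred
  have hpne : ∀ x, x ≠ r → p x ≠ x := fun x hx => (hp x hx).2.1
  let T := tg r p hpne
  have hT : ∀ x y, T.Adj x y ↔ (x ≠ r ∧ y = p x) ∨ (y ≠ r ∧ x = p y) := fun x y => Iff.rfl
  -- the key lemma
  have key : ∀ x a b, T.Adj a b → le x a → ¬ le x b → a = x ∧ b = p x ∧ x ≠ r := by
    intro x a b hab hxa hxb
    rcases (hT a b).1 hab with ⟨h1, h2⟩ | ⟨h1, h2⟩
    · by_cases hax : x = a
      · subst hax
        exact ⟨rfl, h2, h1⟩
      · exact absurd (h2 ▸ (hp a h1).2.2.2 x hxa hax) hxb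
    · exact absurd (hN.tr _ _ _ hxa (h2 ▸ (hp b h1).1)) hxb
  have hTG : T ≤ G := by
    intro x y hxy
    rcases (hT x y).1 hxy with ⟨h1, h2⟩ | ⟨h1, h2⟩
    · rw [h2]
      exact (hp x h1).2.2.1.symm
    · rw [h2]
      exact (hp y h1).2.2.1
  have hreach : ∀ (n : ℕ) (x : V), (hN.fin x).toFinset.card = n → T.Reachable r x := by
    intro n
    induction n using Nat.strong_induction_on with
    | _ n ih =>
      intro x hx
      by_cases hxr : x = r
      · rw [hxr]
      · have h1 : (hN.fin (p x)).toFinset.card < n := by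
          rw [← hx]
          apply Finset.card_lt_card
          rw [Finset.ssubset_iff_of_subset]
          · refine ⟨x, ?_, ?_⟩
            · rw [Set.Finite.mem_toFinset]
              exact hN.rfl' x (mem_univ _)
            · rw [Set.Finite.mem_toFinset]
              intro h2
              have h2' : le x (p x) := h2
              exact hpne x hxr (hN.asy _ _ (hp x hxr).1 h2')
          · intro y hy
            rw [Set.Finite.mem_toFinset] at hy ⊢
            have hy' : le y (p x) := hy
            exact hN.tr _ _ _ hy' (hp x hxr).1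
        have h2 := ih _ h1 (p x) rfl
        have h3 : T.Adj (p x) x := (hT _ _).2 (Or.inr ⟨hxr, rfl⟩)
        exact h2.trans h3.reachable
  have hconn : T.Connected := by
    have : Nonempty V := ⟨r⟩
    exact ⟨fun x y => (hreach _ x rfl).symm.trans (hreach _ y rfl)⟩
  have hbr : ∀ x, x ≠ r → ¬ (T.deleteEdges {s(x, p x)}).Reachable x (p x) := by
    intro x hx hr
    have h1 : ∀ a b, (T.deleteEdges {s(x, p x)}).Adj a b → a ∈ {z | le x z} →
        b ∈ {z | le x z} := by
      intro a b hab ha
      by_contra hb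
      rw [SimpleGraph.deleteEdges_adj] at hab
      obtain ⟨h2, h3, -⟩ := key x a b hab.1 ha hb
      apply hab.2
      rw [h2, h3]
      rfl
    have h2 : p x ∈ {z | le x z} := stay h1 hr (hN.rfl' x (mem_univ _))
    have h2' : le x (p x) := h2
    exact hpne x hx (hN.asy _ _ (hp x hx).1 h2')
  have hacyc : T.IsAcyclic := by
    rw [SimpleGraph.isAcyclic_iff_forall_adj_isBridge]
    intro v w hvw
    rw [SimpleGraph.isBridge_iff]
    rcases (hT v w).1 hvw with ⟨h1, h2⟩ | ⟨h1, h2⟩
    · subst h2
      exact hbr v h1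
    · subst h2
      intro hr
      apply hbr w h1
      have : s(w, p w) = s(p w, w) := Sym2.eq_swap
      rw [this]
      exact hr.symm
  have htl : ∀ x y, le x y → TreeLe T r x y := by
    intro x y hxy w _
    by_contra hx
    have hr : r ∉ {z | le x z} := by
      intro h
      have h' : le x r := h
      have h2 := hN.asy _ _ h' (hN.root x (mem_univ _))
      rw [h2] at hx
      exact hx w.start_mem_support
    obtain ⟨d, hd, h1, h2⟩ := w.exists_boundary_dart {z | le x z}ᶜ hr (fun h => h hxy)
    have h2' : le x d.snd := by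
      by_contra h3
      exact h2 h3
    obtain ⟨h3, -, -⟩ := key x d.snd d.fst d.adj.symm h2' h1
    apply hx
    rw [← h3]
    exact w.dart_snd_mem_support_of_mem_darts hd
  refine ⟨T, r, hTG, ⟨hconn, hacyc⟩, fun x y hxy => ?_⟩
  rcases hN.norm x (mem_univ _) y (mem_univ _) hxy with h | h
  · exact Or.inl (htl x y h)
  · exact Or.inr (htl y x h)

end Pool.Agent.W910.NS.T_F1
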