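import Pool.Agent.W910.NS.Stmts

/-! NS-F3: the Fodor-type Reflection Principle in the form used. -/

set_option autoImplicit false

open Cardinal Set

namespace Pool.Agent.W910.NS.T_F3

universe u

theorem cof_Iio_of_Cw {L : Type u} [LinearOrder L] [WellFoundedLT L] {a : L} (h : Cw a) :
    Order.cof (Iio a) = ℵ₀ := by
  obtain ⟨v, hv, hc⟩ := h
  have hne : Nonempty (Iio a) := ⟨⟨v 0, hv 0⟩⟩
  have hnm : NoMaxOrder (Iio a) := by
    refine ⟨fun b => ?_⟩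
    obtain ⟨n, hn⟩ := hc b.1 b.2
    exact ⟨⟨v n, hv n⟩, hn⟩
  refine le_antisymm ?_ Order.aleph0_le_cof
  have hcof : IsCofinal (range fun n : ℕ => (⟨v n, hv n⟩ : Iio a)) := by
    intro b
    obtain ⟨n, hn⟩ := hc b.1 b.2
    exact ⟨⟨v n, hv n⟩, ⟨n, rfl⟩, le_of_lt hn⟩
  exact (Order.cof_le hcof).trans (Cardinal.le_aleph0_iff_set_countable.2 (countable_range _))

theorem main (hr : S_reg.{u}) (hst : S_stat.{u}) : S_frp.{u} := by
  intro κ hκ hκ1 hF S g hSt hCw hgc hg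
  have hReg : Reg (Ltype κ) := hr κ hκ (Cardinal.aleph0_lt_aleph_one.trans hκ1)
  have hS : IsStationary S := (hst (Ltype κ) hReg S).2 hSt
  obtain ⟨I, hI1, hIcof, hIg, δ, hδ, hfib⟩ :=
    hF S hS (fun a ha => cof_Iio_of_Cw (hCw a ha)) g (fun a _ => hgc a)
  refine ⟨I, hI1, fun a ha => hIg a ⟨ha.2, ha.1⟩, fun f hf => ?_⟩
  obtain ⟨c, hc⟩ := hfib f (fun a ha => ⟨(hg a ha.1).2 _ (hf a ha), hf a ha⟩)
  refine ⟨c, fun hcount => ?_⟩
  have hnt : NoTopOrder I := by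
    rw [← Order.cof_ne_one_iff, hIcof]
    exact (lt_trans Cardinal.one_lt_aleph0 Cardinal.aleph0_lt_aleph_one).ne'
  have hnomax : ∀ x ∈ I, ∃ y ∈ I, x < y := by
    intro x hx
    obtain ⟨y, hy⟩ := hnt.exists_not_le (⟨x, hx⟩ : I)
    exact ⟨y.1, y.2, lt_of_not_ge hy⟩
  have hId : ∀ x ∈ I, x < δ := by
    intro x hx
    obtain ⟨y, hy, hxy⟩ := hnomax x hx
    exact hxy.trans_le (hδ.1 hy)
  have hIc : ∀ t : Iio δ, ∃ x : I, t.1 < x.1 := by
    intro t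
    obtain ⟨x, hx, htx⟩ := (lt_isLUB_iff hδ).1 t.2
    exact ⟨⟨x, hx⟩, htx⟩
  choose h hh using hIc
  set T : Set (Iio δ) := {x : Iio δ | (x : κ.ord.ToType) ∈ S ∩ I ∧ f x = c} with hT
  have hTc : T.Countable := by
    have : T = Subtype.val ⁻¹' {a | a ∈ S ∩ I ∧ f a = c} := rfl
    rw [this]
    exact hcount.preimage Subtype.val_injective
  have hJ : ¬ IsCofinal (h '' T) := by
    intro hcf
    have h1 := Order.cof_le hcf
    rw [hIcof] at h1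
    exact absurd (h1.trans (Cardinal.le_aleph0_iff_set_countable.2 (hTc.image h)))
      (not_le.2 Cardinal.aleph0_lt_aleph_one)
  obtain ⟨b, hb⟩ := not_isCofinal_iff.1 hJ
  have hbδ : b.1 < δ := hId b.1 b.2
  have hclub : IsClub (Ici (⟨b.1, hbδ⟩ : Iio δ)) := by
    refine ⟨?_, ?_⟩
    · intro d hd hdn _ a ha
      obtain ⟨x, hx⟩ := hdn
      exact (show (⟨b.1, hbδ⟩ : Iio δ) ≤ x from hd hx).trans (ha.1 hx)
    · intro x
      exact ⟨max x ⟨b.1, hbδ⟩, mem_Ici.2 (le_max_right _ _), le_max_left _ _⟩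
  obtain ⟨x, hxT, hxb⟩ := hc hclub
  have h2 := hb (h x) ⟨x, hxT, rfl⟩
  have h3 : b.1 ≤ x.1 := hxb
  exact (not_lt.2 (le_of_lt (h3.trans_lt (hh x)))) h2

end Pool.Agent.W910.NS.T_F3
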