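import Pool.Agent.W910.NS.Stmts

/-! The extension step for normal trees. -/

set_option autoImplicit false

open Cardinal Set

namespace Pool.Agent.W910.NS.T_G1

universe u

variable {V : Type u} {G : SimpleGraph V}

/-- The component of `x` outside `A`. -/
def D (G : SimpleGraph V) (A : Set V) (x : V) : Set V := {y | Cn G Aᶜ x y}

/-- The neighbours of `C` in `A`. -/
def N (G : SimpleGraph V) (A C : Set V) : Set V := {v | v ∈ A ∧ ∃ y, y ∈ C ∧ G.Adj y v}

theorem D_self {A : Set V} {x : V} (h : x ∉ A) : x ∈ D G A x := Cn.refl h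

theorem D_out {A : Set V} {x y : V} (h : y ∈ D G A x) : y ∉ A := Cn.right h

theorem D_eq {A : Set V} {x y : V} (h : y ∈ D G A x) : D G A y = D G A x := by
  ext z
  exact ⟨fun hz => Cn.trans h hz, fun hz => Cn.trans (Cn.symm h) hz⟩

theorem D_adj {A : Set V} {x a b : V} (ha : a ∈ D G A x) (hb : b ∉ A) (h : G.Adj a b) :
    b ∈ D G A x := Cn.trans ha (Cn.adj (D_out ha) hb h)

theorem greatest {le : V → V → Prop} (htr : ∀ x y z, le x y → le y z → le x z) {M : Set V}
    (hf : M.Finite) : M.Nonempty → (∀ v ∈ M, ∀ w ∈ M, le v w ∨ le w v) →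
    ∃ t ∈ M, ∀ v ∈ M, le v t := by
  induction M, hf using Set.Finite.induction_on with
  | empty => exact fun h => absurd h (by simp)
  | @insert a s ha hs ih =>
    intro _ hc
    have haa : le a a := by
      rcases hc a (mem_insert _ _) a (mem_insert _ _) with h | h <;> exact h
    by_cases hne : s.Nonempty
    · obtain ⟨t, ht, hm⟩ := ih hne fun v hv w hw =>
        hc v (mem_insert_of_mem _ hv) w (mem_insert_of_mem _ hw)
      rcases hc a (mem_insert _ _) t (mem_insert_of_mem _ ht) with h | h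
      · refine ⟨t, mem_insert_of_mem _ ht, fun v hv => ?_⟩
        rcases hv with rfl | hv
        · exact h
        · exact hm v hv
      · refine ⟨a, mem_insert _ _, fun v hv => ?_⟩
        rcases hv with rfl | hv
        · exact haa
        · exact htr _ _ _ (hm v hv) h
    · refine ⟨a, mem_insert _ _, fun v hv => ?_⟩
      rcases hv with rfl | hv
      · exact haa
      · exact absurd ⟨v, hv⟩ hne

/-- The data chosen for a component `C`. -/
structure Q (G : SimpleGraph V) (A A' : Set V) (le : V → V → Prop) (C : Set V) (t s : V)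
    (l : V → V → Prop) : Prop where
  mem : t ∈ A
  top : ∀ v ∈ N G A C, le v t
  adj : G.Adj s t
  nt : NT G (C ∩ A') s l

theorem exQ {A A' : Set V} {r : V} {le : V → V → Prop} (hG : G.Connected) (hN : NT G A r le)
    (hF : FA G A) (hI : NIn G A le) (hAA : A ⊆ A') (hCl : Cl G A')
    (hH : ∀ B ⊆ A', CS G B → HasNT G B) {x : V} (hx' : x ∈ A') (hx : x ∉ A) :
    ∃ t s l, Q G A A' le (D G A x) t s l := by
  have hxD : x ∈ D G A x := D_self hx
  have hfin : (N G A (D G A x)).Finite := hF x hx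
  have hout : ∀ v ∈ A, v ∉ D G A x := fun v hv h => D_out h hv
  have hne : (N G A (D G A x)).Nonempty := by
    obtain ⟨a, b, _, ha, hb, _, hab⟩ :=
      Cn.exit (Cn.of_connected hG x r) hxD (hout r hN.rootMem)
    refine ⟨b, ?_, a, ha, hab⟩
    by_contra hbA
    exact hb (D_adj ha hbA hab)
  obtain ⟨t, ht, htop⟩ := greatest hN.tr hfin hne (fun v hv w hw => hI x hx v hv w hw)
  have hNA : N G A (D G A x) ⊆ A := fun v hv => hv.1
  -- the set is connected
  have hCS : CS G (D G A x ∩ A') := by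
    refine ⟨⟨x, hxD, hx'⟩, fun y hy z hz => ?_⟩
    have h1 : Cn G Aᶜ y z := Cn.trans (Cn.symm hy.1) hz.1
    have h2 : Cn G (N G A (D G A x))ᶜ y z := h1.mono (compl_subset_compl.2 hNA)
    have h3 := hCl y hy.2 z hz.2 _ hfin (hNA.trans hAA) h2
    have h4 := Cn.stay (C := D G A x) (by
      intro a b ha haD hb hab
      by_contra hbD
      by_cases hbA : b ∈ A
      · exact hb.2 ⟨hbA, a, haD, hab⟩
      · exact hbD (D_adj haD hbA hab)) h3 hy.1
    exact h4.mono (fun w (hw : w ∈ (A' \ N G A (D G A x)) ∩ D G A x) =>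
      (⟨hw.2, hw.1.1⟩ : w ∈ D G A x ∩ A'))
  -- the greatest neighbour has a neighbour in it
  have hs : ∃ s ∈ D G A x ∩ A', G.Adj s t := by
    obtain ⟨htA, y, hyD, hyt⟩ := ht
    have hsub : (N G A (D G A x) \ {t}) ⊆ A := fun v hv => hv.1.1
    have h1 : Cn G (N G A (D G A x) \ {t})ᶜ x y := Cn.mono (compl_subset_compl.2 hsub) hyD
    have h2 : Cn G (N G A (D G A x) \ {t})ᶜ x t :=
      h1.trans (Cn.adj h1.right (fun h => h.2 rfl) hyt)
    have h3 := hCl x hx' t (hAA htA) _ (hfin.subset sdiff_subset) (hsub.trans hAA) h2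
    obtain ⟨a, b, hxa, ha, hb, hb', hab⟩ := Cn.exit h3 hxD (hout t htA)
    have hbA : b ∈ A := by
      by_contra hbA
      exact hb (D_adj ha hbA hab)
    have hbt : b = t := by
      by_contra hne
      exact hb'.2 ⟨⟨hbA, a, ha, hab⟩, hne⟩
    exact ⟨a, ⟨ha, hxa.right.1.1⟩, hbt ▸ hab⟩
  obtain ⟨s, hsB, hst⟩ := hs
  obtain ⟨l, hl⟩ := hH _ inter_subset_right hCS s hsB
  exact ⟨t, s, l, ht.1, htop, hst, hl⟩

theorem main : S_step.{u} := by
  intro V G A A' r le hG hN hF hI hAA hCl hH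
  have hex : ∀ C : Set V, ∃ (t s : V) (l : V → V → Prop),
      (∃ x, x ∈ A' ∧ x ∉ A ∧ C = D G A x) → Q G A A' le C t s l := by
    intro C
    by_cases h : ∃ x, x ∈ A' ∧ x ∉ A ∧ C = D G A x
    · obtain ⟨x, hx', hx, rfl⟩ := h
      obtain ⟨t, s, l, hq⟩ := exQ hG hN hF hI hAA hCl hH hx' hx
      exact ⟨t, s, l, fun _ => hq⟩
    · exact ⟨r, r, le, fun h' => absurd h' h⟩
  choose T S E hq using hex
  have hQ : ∀ x, x ∈ A' → x ∉ A → Q G A A' le (D G A x) (T (D G A x)) (S (D G A x))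
      (E (D G A x)) := fun x hx' hx => hq _ ⟨x, hx', hx, rfl⟩
  clear hq
  refine ⟨fun x y => (y ∈ A ∧ le x y) ∨ (y ∈ A' ∧ y ∉ A ∧
    ((x ∈ A ∧ le x (T (D G A y))) ∨ E (D G A y) x y)), ?_, ?_⟩
  · have hE : ∀ x y, y ∈ A' → y ∉ A → E (D G A y) x y →
        x ∈ A' ∧ x ∉ A ∧ D G A x = D G A y := by
      intro x y hy' hy h
      have := ((hQ y hy' hy).nt.dom x y h).1
      exact ⟨this.2, D_out this.1, D_eq this.1⟩
    constructor
    · -- dom
      rintro x y (⟨hy, h⟩ | ⟨hy', hy, ⟨hx, _⟩ | h⟩)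
      · exact ⟨hAA (hN.dom x y h).1, hAA hy⟩
      · exact ⟨hAA hx, hy'⟩
      · exact ⟨(hE x y hy' hy h).1, hy'⟩
    · -- refl
      intro x hx'
      by_cases hx : x ∈ A
      · exact Or.inl ⟨hx, hN.rfl' x hx⟩
      · exact Or.inr ⟨hx', hx, Or.inr ((hQ x hx' hx).nt.rfl' x ⟨D_self hx, hx'⟩)⟩
    · -- trans
      rintro x y z hxy (⟨hz, h⟩ | ⟨hz', hz, ⟨hy, h⟩ | h⟩)
      · rcases hxy with ⟨hy, h'⟩ | ⟨_, hy, _⟩
        · exact Or.inl ⟨hz, hN.tr _ _ _ h' h⟩
        · exact absurd (hN.dom _ _ h).1 hy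
      · rcases hxy with ⟨_, h'⟩ | ⟨_, hy'', _⟩
        · exact Or.inr ⟨hz', hz, Or.inl ⟨(hN.dom _ _ h').1, hN.tr _ _ _ h' h⟩⟩
        · exact absurd hy hy''
      · obtain ⟨hy', hy, hD⟩ := hE y z hz' hz h
        rcases hxy with ⟨hy'', _⟩ | ⟨_, _, ⟨hx, h'⟩ | h'⟩
        · exact absurd hy'' hy
        · rw [hD] at h'
          exact Or.inr ⟨hz', hz, Or.inl ⟨hx, h'⟩⟩
        · rw [hD] at h'
          exact Or.inr ⟨hz', hz, Or.inr ((hQ z hz' hz).nt.tr _ _ _ h' h)⟩
    · -- antisymmetry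
      rintro x y (⟨hy, h⟩ | ⟨hy', hy, ⟨hx, h⟩ | h⟩) hyx
      · have hx := (hN.dom _ _ h).1
        rcases hyx with ⟨_, h'⟩ | ⟨_, hx', _⟩
        · exact hN.asy _ _ h h'
        · exact absurd hx hx'
      · rcases hyx with ⟨_, h'⟩ | ⟨_, hx', _⟩
        · exact absurd (hN.dom _ _ h').1 hy
        · exact absurd hx hx'
      · obtain ⟨hx', hx, hD⟩ := hE x y hy' hy h
        rcases hyx with ⟨hx'', _⟩ | ⟨_, _, ⟨hy'', _⟩ | h'⟩
        · exact absurd hx'' hx
        · exact absurd hy'' hy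
        · rw [hD] at h'
          exact (hQ y hy' hy).nt.asy _ _ h h'
    · exact hAA hN.rootMem
    · -- root
      intro x hx'
      by_cases hx : x ∈ A
      · exact Or.inl ⟨hx, hN.root x hx⟩
      · exact Or.inr ⟨hx', hx, Or.inl ⟨hN.rootMem, hN.root _ (hQ x hx' hx).mem⟩⟩
    · -- fin
      intro y
      by_cases hy : y ∈ A
      · refine (hN.fin y).subset ?_
        rintro x (⟨_, h⟩ | ⟨_, hy', _⟩)
        · exact h
        · exact absurd hy hy'
      · by_cases hy' : y ∈ A'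
        · refine ((hN.fin (T (D G A y))).union ((hQ y hy' hy).nt.fin y)).subset ?_
          rintro x (⟨hy'', _⟩ | ⟨_, _, ⟨_, h⟩ | h⟩)
          · exact absurd hy'' hy
          · exact Or.inl h
          · exact Or.inr h
        · refine Set.finite_empty.subset ?_
          rintro x (⟨hy'', _⟩ | ⟨hy'', _, _⟩)
          · exact absurd hy'' hy
          · exact absurd hy'' hy'
    · -- chain
      rintro x y z (⟨hz, h⟩ | ⟨hz', hz, ⟨hx, h⟩ | h⟩) hyz
      · rcases hyz with ⟨_, h'⟩ | ⟨_, hz', _⟩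
        · rcases hN.chain _ _ _ h h' with h'' | h''
          · exact Or.inl (Or.inl ⟨(hN.dom _ _ h').1, h''⟩)
          · exact Or.inr (Or.inl ⟨(hN.dom _ _ h).1, h''⟩)
        · exact absurd hz hz'
      · rcases hyz with ⟨hz'', _⟩ | ⟨_, _, ⟨hy, h'⟩ | h'⟩
        · exact absurd hz'' hz
        · rcases hN.chain _ _ _ h h' with h'' | h''
          · exact Or.inl (Or.inl ⟨hy, h''⟩)
          · exact Or.inr (Or.inl ⟨hx, h''⟩)
        · obtain ⟨hy', hy, hD⟩ := hE y z hz' hz h'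
          exact Or.inl (Or.inr ⟨hy', hy, Or.inl ⟨hx, hD ▸ h⟩⟩)
      · obtain ⟨hx', hx, hD⟩ := hE x z hz' hz h
        rcases hyz with ⟨hz'', _⟩ | ⟨_, _, ⟨hy, h'⟩ | h'⟩
        · exact absurd hz'' hz
        · exact Or.inr (Or.inr ⟨hx', hx, Or.inl ⟨hy, hD ▸ h'⟩⟩)
        · obtain ⟨hy', hy, hD'⟩ := hE y z hz' hz h'
          rcases (hQ z hz' hz).nt.chain _ _ _ h h' with h'' | h''
          · exact Or.inl (Or.inr ⟨hy', hy, Or.inr (by rw [hD']; exact h'')⟩)
          · exact Or.inr (Or.inr ⟨hx', hx, Or.inr (by rw [hD]; exact h'')⟩)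
    · -- predecessor
      intro x hx' hxr
      by_cases hx : x ∈ A
      · obtain ⟨y, h1, h2, h3, h4⟩ := hN.pred x hx hxr
        refine ⟨y, Or.inl ⟨hx, h1⟩, h2, h3, ?_⟩
        rintro z (⟨_, h⟩ | ⟨_, hx'', _⟩) hzx
        · exact Or.inl ⟨(hN.dom _ _ h1).1, h4 z h hzx⟩
        · exact absurd hx hx''
      · have q := hQ x hx' hx
        by_cases hxs : x = S (D G A x)
        · refine ⟨T (D G A x), Or.inr ⟨hx', hx, Or.inl ⟨q.mem, hN.rfl' _ q.mem⟩⟩,
            fun h => hx (h ▸ q.mem), ?_, ?_⟩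
          · have := q.adj
            rw [← hxs] at this
            exact this.symm
          · rintro z (⟨hx'', _⟩ | ⟨_, _, ⟨hz, h⟩ | h⟩) hzx
            · exact absurd hx'' hx
            · exact Or.inl ⟨q.mem, h⟩
            · refine absurd (q.nt.asy _ _ h ?_) hzx
              have := q.nt.root z (q.nt.dom _ _ h).1
              rwa [← hxs] at this
        · obtain ⟨y, h1, h2, h3, h4⟩ := q.nt.pred x ⟨D_self hx, hx'⟩ hxs
          obtain ⟨hy', hy, hD⟩ := hE y x hx' hx h1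
          refine ⟨y, Or.inr ⟨hx', hx, Or.inr h1⟩, h2, h3, ?_⟩
          rintro z (⟨hx'', _⟩ | ⟨_, _, ⟨hz, h⟩ | h⟩) hzx
          · exact absurd hx'' hx
          · exact Or.inr ⟨hy', hy, Or.inl ⟨hz, by rw [hD]; exact h⟩⟩
          · exact Or.inr ⟨hy', hy, Or.inr (by rw [hD]; exact h4 z h hzx)⟩
    · -- normality
      have key : ∀ x ∈ A, ∀ y ∈ A', y ∉ A → G.Adj x y → le x (T (D G A y)) := by
        intro x hx y hy' hy h
        exact (hQ y hy' hy).top x ⟨hx, y, D_self hy, h.symm⟩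
      intro x hx' y hy' hxy
      by_cases hx : x ∈ A
      · by_cases hy : y ∈ A
        · rcases hN.norm x hx y hy hxy with h | h
          · exact Or.inl (Or.inl ⟨hy, h⟩)
          · exact Or.inr (Or.inl ⟨hx, h⟩)
        · exact Or.inl (Or.inr ⟨hy', hy, Or.inl ⟨hx, key x hx y hy' hy hxy⟩⟩)
      · by_cases hy : y ∈ A
        · exact Or.inr (Or.inr ⟨hx', hx, Or.inl ⟨hy, key y hy x hx' hx hxy.symm⟩⟩)
        · have hyD : y ∈ D G A x := D_adj (D_self hx) hy hxy
          have hD : D G A y = D G A x := D_eq hyD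
          rcases (hQ x hx' hx).nt.norm x ⟨D_self hx, hx'⟩ y ⟨hyD, hy'⟩ hxy with h | h
          · exact Or.inl (Or.inr ⟨hy', hy, Or.inr (by rw [hD]; exact h)⟩)
          · exact Or.inr (Or.inr ⟨hx', hx, Or.inr h⟩)
  · intro x y hy
    constructor
    · rintro (⟨_, h⟩ | ⟨_, hy', _⟩)
      · exact h
      · exact absurd hy hy'
    · exact fun h => Or.inl ⟨hy, h⟩

end Pool.Agent.W910.NS.T_G1
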