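import Pool.Agent.W910.NS.Stmts

/-! Case B: the neighbours are cofinal in the index. -/

set_option autoImplicit false

open Cardinal Set

namespace Pool.Agent.W910.NS.T_G10

universe u

/-- the filtration -/
def WW {V : Type u} {L : Type u} [LinearOrder L] (U D : L → Set V) (S : Set L) (a : L) :
    Set (Set V) :=
  {B | ∃ i ∈ S, i < a ∧ B = D i} ∪ {B | ∃ x ∈ U a, (∀ i ∈ S, x ∉ D i) ∧ B = {x}}

theorem disj {V : Type u} {L : Type u} [LinearOrder L] {U D : L → Set V} {S : Set L}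
    (h1 : ∀ i ∈ S, D i ⊆ (U i)ᶜ) (h2 : ∀ i ∈ S, ∀ k, i < k → D i ⊆ U k) {i j : L} (hi : i ∈ S)
    (hj : j ∈ S) (hij : i ≠ j) : Disjoint (D i) (D j) := by
  rw [Set.disjoint_left]
  intro x hx hx'
  rcases lt_or_gt_of_ne hij with h | h
  · exact h1 j hj hx' (h2 i hi j h hx)
  · exact h1 i hi hx (h2 j hj i h hx')

theorem main (hI : S_inter.{u}) : S_caseB.{u} := by
  intro V G L _ _ hL U D S hU hS h
  have h1 : ∀ i ∈ S, D i ⊆ (U i)ᶜ := fun i hi => (h i hi).2.2.1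
  have h2 : ∀ i ∈ S, ∀ k, i < k → D i ⊆ U k := fun i hi => (h i hi).2.2.2.1
  have key : ∀ i ∈ S, Lm i → ∀ B ∈ WW U D S i, ({x | x ∈ U i ∧ ∃ d ∈ D i, G.Adj d x} ∩ B).Finite := by
    intro i hi hl B hB
    rcases hB with ⟨i', hi', hlt, rfl⟩ | ⟨x, -, -, rfl⟩
    · obtain ⟨k, hk1, hk2⟩ := hl.2 i' hlt
      refine ((h i hi).2.2.2.2.2 k hk2).subset ?_
      rintro x ⟨⟨-, hd⟩, hx⟩
      exact ⟨h2 i' hi' k hk1 hx, hd⟩
    · exact (Set.finite_singleton x).inter_of_right _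
  refine ⟨WW U D S, D, {a | a ∈ S ∧ Lm a ∧ ∀ b < a, id b < a}, ⟨?_, ?_, ?_⟩, ?_, ?_,
    hI L hL S id hS, ?_, ?_⟩
  · -- monotone
    intro i j hij B hB
    rcases hB with ⟨k, hk, hlt, rfl⟩ | ⟨x, hx, hx', rfl⟩
    · exact Or.inl ⟨k, hk, lt_of_lt_of_le hlt hij, rfl⟩
    · exact Or.inr ⟨x, hU.mono i j hij hx, hx', rfl⟩
  · -- continuous
    intro i hl B hB
    rcases hB with ⟨k, hk, hlt, rfl⟩ | ⟨x, hx, hx', rfl⟩
    · obtain ⟨b, hb1, hb2⟩ := hl.2 k hlt
      rw [Set.mem_iUnion₂]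
      exact ⟨b, hb2, Or.inl ⟨k, hk, hb1, rfl⟩⟩
    · have := hU.cont i hl hx
      rw [Set.mem_iUnion₂] at this ⊢
      obtain ⟨j, hj, hxj⟩ := this
      exact ⟨j, hj, Or.inr ⟨x, hxj, hx', rfl⟩⟩
  · -- small
    intro i
    have hsub : WW U D S i ⊆ D '' (Iio i) ∪ (fun x => ({x} : Set V)) '' (U i) := by
      rintro B (⟨k, hk, hlt, rfl⟩ | ⟨x, hx, hx', rfl⟩)
      · exact Or.inl ⟨k, hlt, rfl⟩
      · exact Or.inr ⟨x, hx, rfl⟩
    calc #(WW U D S i) ≤ #(D '' (Iio i) ∪ (fun x => ({x} : Set V)) '' (U i) : Set (Set V)) :=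
          mk_le_mk_of_subset hsub
      _ ≤ #(D '' (Iio i)) + #((fun x => ({x} : Set V)) '' (U i)) := mk_union_le _ _
      _ ≤ #(Iio i) + #(U i) := add_le_add mk_image_le mk_image_le
      _ < #L := add_lt_of_lt hL.unc.le (hL.seg i) (hU.small i)
  · -- countable connected
    intro B hB
    rw [Set.mem_iUnion] at hB
    obtain ⟨a, hB⟩ := hB
    rcases hB with ⟨k, hk, hlt, rfl⟩ | ⟨x, hx, hx', rfl⟩
    · exact ⟨(h k hk).1, (h k hk).2.1⟩
    · refine ⟨Set.countable_singleton x, Set.singleton_nonempty x, ?_⟩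
      intro y hy z hz
      rw [Set.mem_singleton_iff] at hy hz
      rw [hy, hz]
      exact Cn.refl rfl
  · -- disjoint
    intro B hB B' hB' hne
    rw [Set.mem_iUnion] at hB hB'
    obtain ⟨a, hB⟩ := hB
    obtain ⟨a', hB'⟩ := hB'
    rcases hB with ⟨k, hk, -, rfl⟩ | ⟨x, hx, hx', rfl⟩ <;>
    rcases hB' with ⟨k', hk', -, rfl⟩ | ⟨y, hy, hy', rfl⟩
    · exact disj h1 h2 hk hk' fun hkk => hne (by rw [hkk])
    · rw [Set.disjoint_singleton_right]
      exact hy' k hk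
    · rw [Set.disjoint_singleton_left]
      exact hx' k' hk'
    · rw [Set.disjoint_singleton]
      exact fun hxy => hne (by rw [hxy])
  · -- cofinality
    rintro i ⟨hi, hl, -⟩
    obtain ⟨-, -, -, -, hN, hNf⟩ := h i hi
    have hx : ∀ n, ∃ j, j < i ∧ ((hN.natEmbedding _ n : _) : V) ∈ U j := by
      intro n
      have := hU.cont i hl (hN.natEmbedding _ n).2.1
      rw [Set.mem_iUnion₂] at this
      obtain ⟨j, hj, hxj⟩ := this
      exact ⟨j, hj, hxj⟩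
    choose j hj hxj using hx
    refine ⟨j, hj, fun b hb => ?_⟩
    by_contra hcon
    push Not at hcon
    have hfin := hNf b hb
    have : Set.Infinite {x | x ∈ U b ∧ ∃ d ∈ D i, G.Adj d x} := by
      refine Set.infinite_of_injective_forall_mem
        (f := fun n => ((hN.natEmbedding _ n : _) : V)) ?_ ?_
      · exact Subtype.val_injective.comp (hN.natEmbedding _).injective
      · intro n
        exact ⟨hU.mono _ _ (hcon n) (hxj n), (hN.natEmbedding _ n).2.2⟩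
    exact this hfin
  · rintro i ⟨hi, hl, -⟩
    obtain ⟨-, hcs, -, -, hN, hNf⟩ := h i hi
    refine ⟨?_, ?_, ?_⟩
    · obtain ⟨b, hb⟩ := hL.bd {i} (by
        rw [mk_singleton]
        exact one_lt_aleph0.trans hL.unc)
      rw [Set.mem_iUnion]
      exact ⟨b, Or.inl ⟨i, hi, hb i rfl, rfl⟩⟩
    · rintro (⟨k, hk, hlt, he⟩ | ⟨x, hx, hx', he⟩)
      · have := disj h1 h2 hk hi hlt.ne
        rw [← he] at this
        obtain ⟨y, hy⟩ := hcs.1
        exact Set.disjoint_left.mp this hy hy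
      · exact hx' i hi (by rw [he]; rfl)
    · intro hfin
      apply hN
      have hsub : {x | x ∈ U i ∧ ∃ d ∈ D i, G.Adj d x} ⊆
          ⋃ B ∈ {B | B ∈ WW U D S i ∧ Ed G B (D i)},
            ({x | x ∈ U i ∧ ∃ d ∈ D i, G.Adj d x} ∩ B) := by
        rintro x ⟨hxU, d, hd, hadj⟩
        rw [Set.mem_iUnion₂]
        by_cases hx : ∃ i' ∈ S, x ∈ D i'
        · obtain ⟨i', hi', hxi⟩ := hx
          have hlt : i' < i := by
            by_contra hcon
            exact h1 i' hi' hxi (hU.mono _ _ (not_lt.mp hcon) hxU)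
          exact ⟨D i', ⟨Or.inl ⟨i', hi', hlt, rfl⟩, x, hxi, d, hd, hadj.symm⟩,
            ⟨hxU, d, hd, hadj⟩, hxi⟩
        · push Not at hx
          exact ⟨{x}, ⟨Or.inr ⟨x, hxU, hx, rfl⟩, x, rfl, d, hd, hadj.symm⟩,
            ⟨hxU, d, hd, hadj⟩, rfl⟩
      refine Set.Finite.subset ?_ hsub
      exact hfin.biUnion fun B hB => key i hi hl B hB.1

end Pool.Agent.W910.NS.T_G10
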