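import Pool.Agent.W910.NS.Stmts

/-! A good family for vertex sets of regular cardinality. -/

set_option autoImplicit false

open Cardinal Set

namespace Pool.Agent.W910.NS.T_G12

universe u

theorem cof {L : Type u} [LinearOrder L] [WellFoundedLT L] (hC : S_Cw.{u}) (reg : Reg L)
    (f : L → L) (c : L) : ∃ i, (Lm i ∧ ∀ a < i, f a < i) ∧ c < i := by
  obtain ⟨δ, _, hδ2, hδ3⟩ := hC L reg c (fun a => max (f a) c)
  obtain ⟨a, ha⟩ := hδ2.1
  refine ⟨δ, ⟨hδ2, fun b hb => lt_of_le_of_lt (le_max_left _ _) (hδ3 b hb)⟩, ?_⟩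
  exact lt_of_le_of_lt (le_max_right _ _) (hδ3 a ha)

theorem main (hr : S_reg.{u}) (hch : S_chain.{u}) (hf : S_fac.{u}) (ho : S_ob.{u})
    (hC : S_Cw.{u}) (_hi : S_inter.{u}) : S_gfReg.{u} := by
  intro V G r hunc hregV hnot
  have reg : Reg (Ltype #V) := hr #V hregV hunc
  have hcard : #(Ltype #V) = #V := Cardinal.mk_ord_toType _
  obtain ⟨v⟩ : Nonempty (Ltype #V ≃ V) := Cardinal.eq.1 hcard
  have h1 : #({r} : Set V) < #(Ltype #V) := by
    rw [Cardinal.mk_singleton, hcard]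
    exact lt_trans Cardinal.one_lt_aleph0 hunc
  obtain ⟨U, D, hCh, hU0, hv⟩ := hch V G (Ltype #V) reg {r} v h1
  have hObf : ¬ Obf G (Ltype #V) := fun h => hnot (ho (Ltype #V) reg V G h)
  obtain ⟨f, hf'⟩ := hf V G (Ltype #V) reg U D hCh hObf
  have hcof := cof hC reg f
  have hmono := hCh.fil.mono
  refine ⟨{A | ∃ i, (Lm i ∧ ∀ a < i, f a < i) ∧ A = U i}, ?_, ?_, ?_, ?_, ?_⟩
  · -- nonempty
    have : Nonempty (Ltype #V) := ⟨v.symm r⟩
    obtain ⟨i, hi, _⟩ := hcof (v.symm r)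
    exact ⟨U i, i, hi, rfl⟩
  · rintro A ⟨i, hi, rfl⟩
    refine ⟨hU0 i rfl, hCh.cl i, hf' i hi.1 hi.2, ?_⟩
    have := hCh.fil.small i
    rwa [hcard] at this
  · rintro A ⟨i, hi, rfl⟩ B ⟨j, hj, rfl⟩ _
    rcases le_total i j with h | h
    · exact Or.inl (hmono i j h)
    · exact Or.inr (hmono j i h)
  · intro C hCF hCn
    set J : Set (Ltype #V) := {i | (Lm i ∧ ∀ a < i, f a < i) ∧ U i ∈ C} with hJ
    have hJC : ∀ A ∈ C, ∃ i ∈ J, A = U i := by
      intro A hA
      obtain ⟨i, hi, rfl⟩ := hCF hA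
      exact ⟨i, ⟨hi, hA⟩, rfl⟩
    obtain ⟨A0, hA0⟩ := hCn
    obtain ⟨i0, hi0, _⟩ := hJC A0 hA0
    by_cases hub : ∀ c, ∃ i ∈ J, c < i
    · right
      apply Set.eq_univ_of_forall
      intro x
      obtain ⟨i, hi, hlt⟩ := hub (v.symm x)
      refine ⟨U i, hi.2, ?_⟩
      have := hv (v.symm x) i hlt
      rwa [Equiv.apply_symm_apply] at this
    · left
      push Not at hub
      obtain ⟨m, hm, hmin⟩ := WellFounded.has_min (wellFounded_lt (α := Ltype #V))
        {m | ∀ i ∈ J, i ≤ m} hub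
      have hle : ⋃₀ C ⊆ U m := by
        rintro x ⟨A, hA, hx⟩
        obtain ⟨i, hi, rfl⟩ := hJC A hA
        exact hmono i m (hm i hi) hx
      by_cases hmJ : m ∈ J
      · refine ⟨m, hmJ.1, ?_⟩
        apply Set.Subset.antisymm hle
        intro x hx
        exact ⟨U m, hmJ.2, hx⟩
      · have hlt : ∀ i ∈ J, i < m := fun i hi =>
          lt_of_le_of_ne (hm i hi) (fun h => hmJ (h ▸ hi))
        have habove : ∀ b < m, ∃ i ∈ J, b < i := by
          intro b hb
          by_contra hcon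
          push Not at hcon
          exact hmin b hcon hb
        have hLm : Lm m := by
          refine ⟨⟨i0, hlt i0 hi0⟩, ?_⟩
          intro a ha
          obtain ⟨i, hi, hai⟩ := habove a ha
          exact ⟨i, hai, hlt i hi⟩
        refine ⟨m, ⟨hLm, ?_⟩, ?_⟩
        · intro b hb
          obtain ⟨i, hi, hbi⟩ := habove b hb
          exact lt_trans (hi.1.2 b hbi) (hlt i hi)
        · apply Set.Subset.antisymm hle
          intro x hx
          have := hCh.fil.cont m hLm hx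
          rw [Set.mem_iUnion₂] at this
          obtain ⟨j, hj, hxj⟩ := this
          obtain ⟨i, hi, hji⟩ := habove j hj
          exact ⟨U i, hi.2, hmono j i hji.le hxj⟩
  · intro x
    obtain ⟨i, hi, hlt⟩ := hcof (v.symm x)
    refine ⟨U i, ⟨i, hi, rfl⟩, ?_⟩
    have := hv (v.symm x) i hlt
    rwa [Equiv.apply_symm_apply] at this

end Pool.Agent.W910.NS.T_G12
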