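import Pool.Agent.W910.NS.Stmts

/-! Small closed sets of finite adhesion; the case of countable cofinality. -/

set_option autoImplicit false

open Cardinal Set

namespace Pool.Agent.W910.NS.T_G13

open Pool.Agent.W910.NS

universe u

theorem ext (hr : S_reg.{u}) (hch : S_chain.{u}) (hf : S_fac.{u}) (ho : S_ob.{u}) (hC : S_Cw.{u})
    (hi : S_inter.{u}) : S_ext.{u} := by
  intro V G c hc hOb U₀ hU₀
  rcases isEmpty_or_nonempty V with hV | ⟨⟨v0⟩⟩
  · refine ⟨∅, fun x _ => hV.elim x, fun x hx => absurd hx (by simp), fun x _ => hV.elim x, ?_⟩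
    simp
  · have hreg : Reg (Ltype (Order.succ c)) :=
      hr (Order.succ c) (Cardinal.isRegular_succ hc) (hc.trans_lt (Order.lt_succ c))
    have hL : #(Ltype (Order.succ c)) = Order.succ c := Cardinal.mk_ord_toType _
    obtain ⟨U, D, hCh, hU0, _⟩ := hch V G (Ltype (Order.succ c)) hreg U₀ (fun _ => v0)
      (by rw [hL]; exact Order.lt_succ_of_le hU₀)
    obtain ⟨f, hf'⟩ := hf V G (Ltype (Order.succ c)) hreg U D hCh
      (fun h => hOb (ho (Ltype (Order.succ c)) hreg V G h))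
    obtain ⟨c0⟩ : Nonempty (Ltype (Order.succ c)) := by
      rw [← Cardinal.mk_ne_zero_iff]
      exact (lt_of_le_of_lt zero_le hreg.unc).ne'
    obtain ⟨δ, _, hδ, hfδ⟩ := hC (Ltype (Order.succ c)) hreg c0 f
    refine ⟨U δ, hU0 δ, hCh.cl δ, hf' δ hδ hfδ, ?_⟩
    have := hCh.fil.small δ
    rw [hL] at this
    exact Order.lt_succ_iff.1 this

theorem seq (he : S_ext.{u}) : S_gfSeq.{u} := by
  intro V G r hV hX hOb
  obtain ⟨X, hX1, hX2⟩ := hX
  have hE : ∀ A : Set V, #A < #V → ∃ U : Set V, A ⊆ U ∧ Cl G U ∧ FA G U ∧ #U < #V := by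
    intro A hA
    have hc : max #A ℵ₀ < #V := max_lt hA hV
    obtain ⟨U, h1, h2, h3, h4⟩ := he V G (max #A ℵ₀) (le_max_right _ _)
      (hOb _ (le_max_right _ _) hc) A (le_max_left _ _)
    exact ⟨U, h1, h2, h3, h4.trans_lt hc⟩
  choose! E hE1 hE2 hE3 hE4 using hE
  obtain ⟨W, hW0, hW1⟩ : ∃ W : ℕ → Set V, W 0 = E ({r} ∪ X 0) ∧
      ∀ n, W (n + 1) = E (W n ∪ X (n + 1)) :=
    ⟨fun n => Nat.rec (E ({r} ∪ X 0)) (fun n A => E (A ∪ X (n + 1))) n, rfl, fun _ => rfl⟩
  have hun : ∀ A B : Set V, #A < #V → #B < #V → #(A ∪ B : Set V) < #V := fun A B hA hB =>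
    (Cardinal.mk_union_le A B).trans_lt (Cardinal.add_lt_of_lt hV.le hA hB)
  have hr0 : #({r} ∪ X 0 : Set V) < #V := by
    refine hun _ _ ?_ (hX1 0)
    rw [Cardinal.mk_singleton]
    exact Cardinal.one_lt_aleph0.trans hV
  have hsm : ∀ n, #(W n) < #V := by
    intro n
    induction n with
    | zero => rw [hW0]; exact hE4 _ hr0
    | succ n ih => rw [hW1]; exact hE4 _ (hun _ _ ih (hX1 _))
  have hstep : ∀ n, W n ⊆ W (n + 1) := by
    intro n
    rw [hW1]
    exact subset_union_left.trans (hE1 _ (hun _ _ (hsm n) (hX1 _)))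
  have hmono : Monotone W := monotone_nat_of_le_succ hstep
  have hXW : ∀ n, X n ⊆ W n := by
    intro n
    rcases n with _ | n
    · rw [hW0]
      exact subset_union_right.trans (hE1 _ hr0)
    · rw [hW1]
      exact subset_union_right.trans (hE1 _ (hun _ _ (hsm n) (hX1 _)))
  have hrW : ∀ n, r ∈ W n := by
    intro n
    apply hmono (Nat.zero_le n)
    rw [hW0]
    exact hE1 _ hr0 (Or.inl rfl)
  have hCl : ∀ n, Cl G (W n) := by
    intro n
    rcases n with _ | n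
    · rw [hW0]; exact hE2 _ hr0
    · rw [hW1]; exact hE2 _ (hun _ _ (hsm n) (hX1 _))
  have hFA : ∀ n, FA G (W n) := by
    intro n
    rcases n with _ | n
    · rw [hW0]; exact hE3 _ hr0
    · rw [hW1]; exact hE3 _ (hun _ _ (hsm n) (hX1 _))
  have hcov : ∀ x, ∃ n, x ∈ W n := by
    intro x
    have : x ∈ ⋃ n, X n := by rw [hX2]; exact mem_univ x
    obtain ⟨n, hn⟩ := mem_iUnion.1 this
    exact ⟨n, hXW n hn⟩
  refine ⟨range W, ⟨range_nonempty W, ?_, hmono.isChain_range, ?_, ?_⟩⟩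
  · rintro U ⟨n, rfl⟩
    exact ⟨hrW n, hCl n, hFA n, hsm n⟩
  · intro C hC hCne
    by_cases hub : ∀ m, ∃ n, m ≤ n ∧ W n ∈ C
    · right
      rw [eq_univ_iff_forall]
      intro x
      obtain ⟨m, hm⟩ := hcov x
      obtain ⟨n, hmn, hn⟩ := hub m
      exact ⟨W n, hn, hmono hmn hm⟩
    · left
      push Not at hub
      obtain ⟨m, hm⟩ := hub
      obtain ⟨U, hU⟩ := hCne
      obtain ⟨n0, hn0⟩ := hC hU
      have hfin : {n | W n ∈ C}.Finite := by
        refine (Set.finite_Iio m).subset fun n hn => ?_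
        by_contra hcon
        exact hm n (not_lt.1 hcon) hn
      have hne : {n | W n ∈ C}.Nonempty := ⟨n0, by rw [mem_ofPred_eq, hn0]; exact hU⟩
      obtain ⟨n, hn, hmax⟩ := Set.exists_max_image _ id hfin hne
      refine ⟨n, ?_⟩
      apply subset_antisymm
      · intro x hx
        exact ⟨W n, hn, hx⟩
      · rintro x ⟨A, hA, hxA⟩
        obtain ⟨k, rfl⟩ := hC hA
        exact hmono (hmax k hA) hxA
  · intro x
    obtain ⟨n, hn⟩ := hcov x
    exact ⟨W n, ⟨n, rfl⟩, hn⟩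

end Pool.Agent.W910.NS.T_G13
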