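import Pool.Agent.W910.NS.Stmts

/-! Good family for singular cardinality of uncountable cofinality. -/

set_option autoImplicit false

open Cardinal Set

namespace Pool.Agent.W910.NS.T_G14

universe u

theorem exists_gt' {L : Type u} [LinearOrder L] [WellFoundedLT L] (h : Reg L) (a : L) :
    ∃ b, a < b := by
  obtain ⟨b, hb⟩ := h.bd {a} (by
    rw [mk_singleton]
    exact one_lt_aleph0.trans h.unc)
  exact ⟨b, hb a rfl⟩

/-- the sets `X i` -/
theorem exists_X (V : Type u) (hV : ℵ₀ < #V) (hnr : ¬ (#V).IsRegular)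
    (hseq : ¬ (∃ X : ℕ → Set V, (∀ n, #(X n) < #V) ∧ ⋃ n, X n = Set.univ))
    (hr : S_reg.{u}) :
    ∃ μ : Cardinal.{u}, μ < #V ∧ Reg (Ltype μ) ∧ ∃ X : Ltype μ → Set V,
      (∀ i j, i ≤ j → X i ⊆ X j) ∧ (∀ i, #(X i) < #V) ∧ ∀ v, ∃ i, v ∈ X i := by
  obtain ⟨κ, hκ⟩ : ∃ κ, κ = #V := ⟨_, rfl⟩
  rw [← hκ] at hV hnr hseq ⊢
  obtain ⟨μ, hμ⟩ : ∃ μ, μ = κ.ord.cof := ⟨_, rfl⟩
  have hlim : Order.IsSuccLimit κ.ord := Cardinal.isSuccLimit_ord hV.le
  have hμreg : μ.IsRegular := by rw [hμ]; exact isRegular_cof hlim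
  have hμκ : μ < κ := by
    by_contra h
    rw [not_lt, hμ] at h
    exact hnr ⟨hV.le, h⟩
  obtain ⟨e⟩ : Nonempty (V ≃ κ.ord.ToType) := by
    rw [← Cardinal.eq, Cardinal.mk_toType, card_ord, hκ]
  have : NoMaxOrder κ.ord.ToType := Cardinal.noMaxOrder hV.le
  obtain ⟨S, hS, hSc⟩ := Order.exists_cof_eq κ.ord.ToType
  rw [Ordinal.cof_toType, ← hμ] at hSc
  have hpre : ∀ a : κ.ord.ToType, #({v | e v < a} : Set V) < κ := by
    intro a
    have h1 : #({v | e v < a} : Set V) ≤ #(Iio a) := by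
      refine Cardinal.mk_le_of_injective (f := fun v => ⟨e v.1, v.2⟩) ?_
      intro v w hvw
      have : e v.1 = e w.1 := congrArg Subtype.val hvw
      exact Subtype.ext (e.injective this)
    exact lt_of_le_of_lt h1 (mk_Iio_toType_ord_lt a)
  have hcovS : ∀ v : V, ∃ s ∈ S, e v < s := by
    intro v
    obtain ⟨b, hb⟩ := exists_gt (e v)
    obtain ⟨s, hs, hbs⟩ := hS b
    exact ⟨s, hs, lt_of_lt_of_le hb hbs⟩
  have hμ0 : ℵ₀ < μ := by
    by_contra h
    rw [not_lt, ← hSc, Cardinal.le_aleph0_iff_set_countable] at h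
    have hSne : S.Nonempty := by
      have : Nonempty V := by
        rw [← mk_ne_zero_iff, ← hκ]
        exact (aleph0_pos.trans hV).ne'
      obtain ⟨v⟩ := this
      obtain ⟨s, hs, -⟩ := hcovS v
      exact ⟨s, hs⟩
    obtain ⟨f, hf⟩ := h.exists_eq_range hSne
    apply hseq
    refine ⟨fun n => {v | e v < f n}, fun n => hpre (f n), ?_⟩
    rw [eq_univ_iff_forall]
    intro v
    obtain ⟨s, hs, hvs⟩ := hcovS v
    rw [hf] at hs
    obtain ⟨n, rfl⟩ := hs
    exact mem_iUnion.2 ⟨n, hvs⟩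
  have hReg : Reg (Ltype μ) := hr μ hμreg hμ0
  obtain ⟨g⟩ : Nonempty (Ltype μ ≃ S) := by
    rw [← Cardinal.eq, Cardinal.mk_toType, card_ord, hSc]
  refine ⟨μ, hμκ, hReg, fun i => {v | ∃ j ≤ i, e v < (g j : κ.ord.ToType)}, ?_, ?_, ?_⟩
  · rintro i j hij v ⟨l, hl, hv⟩
    exact ⟨l, hl.trans hij, hv⟩
  · intro i
    obtain ⟨i', hi'⟩ := exists_gt' hReg i
    have hnc : ¬ IsCofinal ((fun j : Ltype μ => (g j : κ.ord.ToType)) '' Iic i) := by
      intro hcof
      have h1 := Order.cof_le hcof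
      rw [Ordinal.cof_toType, ← hμ] at h1
      have h2 : #((fun j : Ltype μ => (g j : κ.ord.ToType)) '' Iic i) ≤ #(Iio i') :=
        mk_image_le.trans (mk_le_mk_of_subset fun j hj => lt_of_le_of_lt hj hi')
      have h3 : #(Iio i') < #(Ltype μ) := hReg.seg i'
      rw [Cardinal.mk_toType, card_ord] at h3
      exact absurd (h1.trans h2) (not_le.2 h3)
    have hnc' : ∃ b, ∀ j ≤ i, (g j : κ.ord.ToType) < b := by
      by_contra hcon
      push Not at hcon
      apply hnc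
      intro b
      obtain ⟨j, hj, hbj⟩ := hcon b
      exact ⟨_, ⟨j, hj, rfl⟩, hbj⟩
    obtain ⟨b, hb⟩ := hnc'
    refine lt_of_le_of_lt (mk_le_mk_of_subset ?_) (hpre b)
    rintro v ⟨j, hj, hv⟩
    exact hv.trans (hb j hj)
  · intro v
    obtain ⟨s, hs, hvs⟩ := hcovS v
    refine ⟨g.symm ⟨s, hs⟩, g.symm ⟨s, hs⟩, le_rfl, ?_⟩
    rw [Equiv.apply_symm_apply]
    exact hvs

theorem fa_of_closed {V : Type u} {G : SimpleGraph V} {L : Type u} [LinearOrder L]
    [WellFoundedLT L] (hL : Reg L) (X : L → Set V) (hmono : ∀ i j, i ≤ j → X i ⊆ X j)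
    (hcov : ∀ v, ∃ i, v ∈ X i) (r : V) (le : L → V → V → Prop)
    (hNT : ∀ i, NT G (X i) r (le i)) (U : Set V)
    (hU : ∀ i x y, x ∈ U → le i y x → y ∈ U) : FA G U := by
  intro x hx
  by_contra hinf
  have hinf' : (Nb G U x).Infinite := hinf
  obtain ⟨v, hvinj⟩ : ∃ v : ℕ → Nb G U x, Function.Injective v :=
    ⟨hinf'.natEmbedding, hinf'.natEmbedding.injective⟩
  have hv : ∀ n, ∃ y, Cn G Uᶜ x y ∧ G.Adj y (v n : V) := fun n => (v n).2.2
  choose y hxy hyv using hv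
  choose s hsx hsy hsU hsc using fun n => (hxy n).finite
  choose k hk using hcov
  have hW : (⋃ n, ((s n : Set V) ∪ {(v n : V)})).Countable :=
    countable_iUnion fun n => ((s n).countable_toSet).union (countable_singleton _)
  obtain ⟨K, hK⟩ := hL.bd (k '' (⋃ n, ((s n : Set V) ∪ {(v n : V)})))
    (lt_of_le_of_lt ((hW.image k).le_aleph0) hL.unc)
  have hWK : ∀ z ∈ (⋃ n, ((s n : Set V) ∪ {(v n : V)})), z ∈ X K :=
    fun z hz => hmono _ _ (hK _ ⟨z, hz, rfl⟩).le (hk z)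
  have key : ∀ n, le K (v n) x := by
    intro n
    have hvU : (v n : V) ∈ U := (v n).2.1
    have hvK : (v n : V) ∈ X K := hWK _ (mem_iUnion.2 ⟨n, Or.inr rfl⟩)
    have hsK : ∀ z ∈ s n, z ∈ X K := fun z hz => hWK _ (mem_iUnion.2 ⟨n, Or.inl hz⟩)
    have hyU : y n ∉ U := hsU n _ (hsy n)
    have h1 : le K (v n) (y n) := by
      rcases (hNT K).norm _ (hsK _ (hsy n)) _ hvK (hyv n) with h | h
      · exact absurd (hU K _ _ hvU h) hyU
      · exact h
    refine Cn.ind (P := fun a => le K (v n) a) h1 ?_ (hsc n _ (hsx n)).2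
    intro a b ha hb hab _ hPb
    have haU : a ∉ U := hsU n _ ha
    rcases (hNT K).norm _ (hsK _ ha) _ (hsK _ hb) hab with h | h
    · rcases (hNT K).chain _ _ _ hPb h with h' | h'
      · exact h'
      · exact absurd (hU K _ _ hvU h') haU
    · exact (hNT K).tr _ _ _ hPb h
  have hinf2 : (range fun n => (v n : V)).Infinite :=
    infinite_range_of_injective (Subtype.val_injective.comp hvinj)
  exact hinf2 (((hNT K).fin x).subset (by rintro _ ⟨n, rfl⟩; exact key n))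

theorem main (hc : S_clos.{u}) (hp : S_clop.{u}) (hr : S_reg.{u}) : S_gfSing.{u} := by
  classical
  intro V G r hG hV hnr hseq IH
  obtain ⟨μ, hμV, hReg, X₀, hX₀mono, hX₀card, hX₀cov⟩ := exists_X V hV hnr hseq hr
  obtain ⟨F₀, hF₀⟩ := hc V G
  obtain ⟨cl0, h0sub, h0cl, h0mono, h0card, -⟩ := hp V PUnit.{u+1} (fun _ => F₀)
  obtain ⟨X, hX⟩ : ∃ X : Ltype μ → Set V, ∀ i, X i = cl0 (insert r (X₀ i)) := ⟨_, fun _ => rfl⟩
  have hXmono : ∀ i j, i ≤ j → X i ⊆ X j := by
    intro i j hij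
    rw [hX, hX]
    exact h0mono _ _ (insert_subset_insert (hX₀mono i j hij))
  have hXcard : ∀ i, #(X i) < #V := by
    intro i
    rw [hX]
    refine lt_of_le_of_lt (h0card _) (max_lt (max_lt ?_ ?_) hV)
    · exact lt_of_le_of_lt mk_insert_le (add_lt_of_lt hV.le (hX₀card i) (one_lt_aleph0.trans hV))
    · rw [mk_punit]
      exact one_lt_aleph0.trans hV
  have hXcov : ∀ v, ∃ i, v ∈ X i := by
    intro v
    obtain ⟨i, hi⟩ := hX₀cov v
    refine ⟨i, ?_⟩
    rw [hX]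
    exact h0sub _ (mem_insert_of_mem _ hi)
  have hrX : ∀ i, r ∈ X i := by
    intro i
    rw [hX]
    exact h0sub _ (mem_insert _ _)
  have hXCl : ∀ i, Cl G (X i) := by
    intro i
    rw [hX]
    exact hF₀ _ fun s hs => h0cl _ PUnit.unit s hs
  have hXCS : ∀ i, CS G (X i) := by
    intro i
    refine ⟨⟨r, hrX i⟩, fun x hx y hy => ?_⟩
    have h1 := hXCl i x hx y hy ∅ finite_empty (empty_subset _)
      ((Cn.of_connected hG x y).mono (by rw [compl_empty]))
    exact h1.mono sdiff_subset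
  choose le hle using fun i => IH (X i) (hXcard i) (hXCS i) r (hrX i)
  obtain ⟨cl, hsub, hcl, hmono, hcard, hchain⟩ := hp V (Ltype μ ⊕ PUnit.{u+1})
    (fun t s => Sum.elim (fun i => s.biUnion (fun x => ((hle i).fin x).toFinset)) (fun _ => F₀ s) t)
  have hclCl : ∀ A, Cl G (cl A) := fun A => hF₀ _ fun s hs => hcl A (Sum.inr PUnit.unit) s hs
  have hcldown : ∀ A i x y, x ∈ cl A → le i y x → y ∈ cl A := by
    intro A i x y hx hyx
    have h1 := hcl A (Sum.inl i) {x} (by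
      rw [Finset.coe_singleton, singleton_subset_iff]
      exact hx)
    apply h1
    simp only [Sum.elim_inl, Finset.singleton_biUnion, Finite.coe_toFinset, mem_ofPred_eq]
    exact hyx
  have hclFA : ∀ A, FA G (cl A) := fun A =>
    fa_of_closed hReg X hXmono hXcov r le hle (cl A) (hcldown A)
  obtain ⟨Y, hY⟩ : ∃ Y : Ltype μ → Set V, ∀ i, Y i = insert r (⋃ j ∈ Iio i, X j) :=
    ⟨_, fun _ => rfl⟩
  have hYX : ∀ i, Y i ⊆ X i := by
    intro i
    rw [hY]
    apply insert_subset (hrX i)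
    exact iUnion₂_subset fun j hj => hXmono j i (le_of_lt hj)
  have hYmono : ∀ i j, i ≤ j → Y i ⊆ Y j := by
    intro i j hij
    rw [hY, hY]
    apply insert_subset_insert
    exact iUnion₂_subset fun l hl => subset_iUnion₂ (s := fun l (_ : l ∈ Iio j) => X l) l
      (lt_of_lt_of_le hl hij)
  have hXY : ∀ i j, i < j → X i ⊆ Y j := by
    intro i j hij
    rw [hY]
    exact (subset_iUnion₂ (s := fun l (_ : l ∈ Iio j) => X l) i hij).trans (subset_insert _ _)
  have hrY : ∀ i, r ∈ Y i := by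
    intro i
    rw [hY]
    exact mem_insert _ _
  have hUmono : ∀ i j, i ≤ j → cl (Y i) ⊆ cl (Y j) := fun i j hij => hmono _ _ (hYmono i j hij)
  obtain ⟨i₀⟩ : Nonempty (Ltype μ) := by
    rw [← mk_ne_zero_iff]
    exact (aleph0_pos.trans hReg.unc).ne'
  refine ⟨range fun i => cl (Y i), ⟨_, ⟨i₀, rfl⟩⟩, ?_, ?_, ?_, ?_⟩
  · rintro _ ⟨i, rfl⟩
    refine ⟨hsub _ (hrY i), hclCl _, hclFA _, ?_⟩
    refine lt_of_le_of_lt (hcard _) (max_lt (max_lt ?_ ?_) hV)
    · exact lt_of_le_of_lt (mk_le_mk_of_subset (hYX i)) (hXcard i)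
    · rw [mk_sum, lift_id, lift_id, mk_punit, Cardinal.mk_toType, card_ord]
      exact add_lt_of_lt hV.le hμV (one_lt_aleph0.trans hV)
  · rintro _ ⟨i, rfl⟩ _ ⟨j, rfl⟩ _
    rcases le_total i j with h | h
    · exact Or.inl (hUmono i j h)
    · exact Or.inr (hUmono j i h)
  · intro C hCF hCne
    obtain ⟨J, hJ⟩ : ∃ J : Set (Ltype μ), ∀ i, i ∈ J ↔ cl (Y i) ∈ C :=
      ⟨{i | cl (Y i) ∈ C}, fun _ => Iff.rfl⟩
    have hJne : J.Nonempty := by
      obtain ⟨A, hA⟩ := hCne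
      obtain ⟨i, rfl⟩ := hCF hA
      exact ⟨i, (hJ i).2 hA⟩
    have hmemC : ∀ x, x ∈ ⋃₀ C ↔ ∃ i ∈ J, x ∈ cl (Y i) := by
      intro x
      rw [mem_sUnion]
      constructor
      · rintro ⟨A, hA, hx⟩
        obtain ⟨i, rfl⟩ := hCF hA
        exact ⟨i, (hJ i).2 hA, hx⟩
      · rintro ⟨i, hi, hx⟩
        exact ⟨_, (hJ i).1 hi, hx⟩
    by_cases hb : ∃ m, ∀ i ∈ J, i ≤ m
    · left
      obtain ⟨m, hm, hmin⟩ := WellFounded.has_min (wellFounded_lt (α := Ltype μ))
        {m | ∀ i ∈ J, i ≤ m} hb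
      refine ⟨m, ?_⟩
      by_cases hmJ : m ∈ J
      · apply Subset.antisymm
        · intro x hx
          exact (hmemC x).2 ⟨m, hmJ, hx⟩
        · intro x hx
          obtain ⟨i, hi, hxi⟩ := (hmemC x).1 hx
          exact hUmono i m (hm i hi) hxi
      · have hlim : ∀ j < m, ∃ i ∈ J, j < i := by
          intro j hj
          by_contra hcon
          push Not at hcon
          exact hmin j hcon hj
        have hYm : Y m = ⋃₀ (Y '' J) := by
          apply Subset.antisymm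
          · intro x hx
            rw [hY, mem_insert_iff, mem_iUnion₂] at hx
            rcases hx with rfl | ⟨j, hj, hx⟩
            · obtain ⟨i, hi⟩ := hJne
              exact ⟨Y i, ⟨i, hi, rfl⟩, hrY i⟩
            · obtain ⟨i, hi, hji⟩ := hlim j hj
              exact ⟨Y i, ⟨i, hi, rfl⟩, hXY j i hji hx⟩
          · rintro x ⟨_, ⟨i, hi, rfl⟩, hx⟩
            exact hYmono i m (hm i hi) hx
        apply Subset.antisymm
        · intro x hx
          have h1 := hchain (Y '' J) (hJne.image Y) (by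
            rintro _ ⟨i, -, rfl⟩ _ ⟨j, -, rfl⟩ _
            rcases le_total i j with h | h
            · exact Or.inl (hYmono i j h)
            · exact Or.inr (hYmono j i h))
          rw [← hYm] at h1
          have h2 := h1 hx
          rw [mem_iUnion₂] at h2
          obtain ⟨_, ⟨i, hi, rfl⟩, hxi⟩ := h2
          exact (hmemC x).2 ⟨i, hi, hxi⟩
        · intro x hx
          obtain ⟨i, hi, hxi⟩ := (hmemC x).1 hx
          exact hUmono i m (hm i hi) hxi
    · right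
      push Not at hb
      rw [eq_univ_iff_forall]
      intro x
      obtain ⟨j, hj⟩ := hXcov x
      obtain ⟨i, hi, hji⟩ := hb j
      exact (hmemC x).2 ⟨i, hi, hsub _ (hXY j i hji hj)⟩
  · intro x
    obtain ⟨j, hj⟩ := hXcov x
    obtain ⟨i, hi⟩ := exists_gt' hReg j
    exact ⟨_, ⟨i, rfl⟩, hsub _ (hXY j i hi hj)⟩

end Pool.Agent.W910.NS.T_G14
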