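import Pool.Agent.W910.NS.Stmts

/-! Transfer between a set and the induced graph on the subtype (helper115). -/

set_option autoImplicit false

open Cardinal Set

namespace Pool.Agent.W910.NS.T_G15

universe u

theorem reach {V : Type u} {G : SimpleGraph V} {A : Set V} {x y : V} (h : Cn G A x y)
    (hy : y ∈ A) : ∀ hx : x ∈ A, (G.induce A).Reachable ⟨x, hx⟩ ⟨y, hy⟩ := by
  refine Cn.ind (G := G) (B := A) (y := y)
    (P := fun x => ∀ hx : x ∈ A, (G.induce A).Reachable ⟨x, hx⟩ ⟨y, hy⟩) ?_ ?_ h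
  · intro hx
    exact SimpleGraph.Reachable.refl _
  · intro a b ha hb hab _ ih ha'
    have h1 : (G.induce A).Adj ⟨a, ha'⟩ ⟨b, hb⟩ := by
      simpa [SimpleGraph.comap_adj] using hab
    exact h1.reachable.trans (ih hb)

theorem sub1 : S_sub1.{u} := by
  intro V G A hA
  obtain ⟨⟨a₀, ha₀⟩, hA2⟩ := hA
  refine ⟨?_, ?_⟩
  · haveI : Nonempty A := ⟨⟨a₀, ha₀⟩⟩
    refine ⟨fun x y => ?_⟩
    exact reach (hA2 x.1 x.2 y.1 y.2) y.2 x.2
  · intro h r hr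
    obtain ⟨le0, h0⟩ := h ⟨r, hr⟩
    refine ⟨fun x y => ∃ hx : x ∈ A, ∃ hy : y ∈ A, le0 ⟨x, hx⟩ ⟨y, hy⟩, ?_⟩
    refine ⟨?_, ?_, ?_, ?_, hr, ?_, ?_, ?_, ?_, ?_⟩
    · rintro x y ⟨hx, hy, _⟩
      exact ⟨hx, hy⟩
    · intro x hx
      exact ⟨hx, hx, h0.rfl' _ (mem_univ _)⟩
    · rintro x y z ⟨hx, hy, h1⟩ ⟨_, hz, h2⟩
      exact ⟨hx, hz, h0.tr _ _ _ h1 h2⟩
    · rintro x y ⟨hx, hy, h1⟩ ⟨_, _, h2⟩
      have := h0.asy _ _ h1 h2
      exact congrArg Subtype.val this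
    · intro x hx
      exact ⟨hr, hx, h0.root _ (mem_univ _)⟩
    · intro x
      by_cases hx : x ∈ A
      · refine ((h0.fin ⟨x, hx⟩).image Subtype.val).subset ?_
        rintro y ⟨hy, _, h1⟩
        exact ⟨⟨y, hy⟩, h1, rfl⟩
      · refine (Set.finite_empty).subset ?_
        rintro y ⟨_, hx', _⟩
        exact absurd hx' hx
    · rintro x y z ⟨hx, hz, h1⟩ ⟨hy, _, h2⟩
      rcases h0.chain _ _ _ h1 h2 with h3 | h3
      · exact Or.inl ⟨hx, hy, h3⟩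
      · exact Or.inr ⟨hy, hx, h3⟩
    · intro x hx hxr
      obtain ⟨y, h1, h2, h3, h4⟩ := h0.pred ⟨x, hx⟩ (mem_univ _)
        (fun h => hxr (congrArg Subtype.val h))
      refine ⟨y.1, ⟨y.2, hx, h1⟩, fun h => h2 (Subtype.ext h), ?_, ?_⟩
      · simpa [SimpleGraph.comap_adj] using h3
      · rintro z ⟨hz, _, h5⟩ hzx
        exact ⟨hz, y.2, h4 _ h5 (fun h => hzx (congrArg Subtype.val h))⟩
    · intro x hx y hy hxy
      have h1 : (G.induce A).Adj ⟨x, hx⟩ ⟨y, hy⟩ := by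
        simpa [SimpleGraph.comap_adj] using hxy
      rcases h0.norm _ (mem_univ _) _ (mem_univ _) h1 with h | h
      · exact Or.inl ⟨hx, hy, h⟩
      · exact Or.inr ⟨hy, hx, h⟩

theorem Cn_map {V : Type u} {G : SimpleGraph V} {A : Set V} {B : Set A} {x y : A}
    (h : Cn (G.induce A) B x y) : Cn G (Subtype.val '' B) x.1 y.1 := by
  have hy := h.right
  refine Cn.ind (G := G.induce A) (B := B) (y := y)
    (P := fun x => Cn G (Subtype.val '' B) x.1 y.1) (Cn.refl ⟨y, hy, rfl⟩) ?_ h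
  intro a b ha hb hab _ ih
  have h1 : G.Adj a.1 b.1 := by simpa [SimpleGraph.comap_adj] using hab
  exact Cn.trans (Cn.adj ⟨a, ha, rfl⟩ ⟨b, hb, rfl⟩ h1) ih

theorem sub2 : S_sub2.{u} := by
  intro V G A L _ _ h
  obtain ⟨B, S, h1, h2, h3, h4, h5⟩ := h
  refine ⟨fun x => Subtype.val '' (B x), S, ?_, ?_, h3, h4, ?_⟩
  · intro x
    obtain ⟨hc, hne, hcs⟩ := h1 x
    refine ⟨hc.image _, hne.image _, ?_⟩
    rintro _ ⟨a, ha, rfl⟩ _ ⟨b, hb, rfl⟩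
    exact Cn_map (hcs a ha b hb)
  · intro x y hxy
    exact (Set.disjoint_image_iff Subtype.val_injective).2 (h2 x y hxy)
  · intro a ha
    refine (h5 a ha).mono ?_
    rintro x ⟨hx, u, hu, v, hv, huv⟩
    refine ⟨hx, u.1, ⟨u, hu, rfl⟩, v.1, ⟨v, hv, rfl⟩, ?_⟩
    simpa [SimpleGraph.comap_adj] using huv

end Pool.Agent.W910.NS.T_G15
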