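import Pool.Agent.W910.NS.Stmts

/-! Closed sets: normal trees are normal in the whole graph. -/

set_option autoImplicit false

open Cardinal Set

namespace Pool.Agent.W910.NS.T_G2

universe u

open Pool.Agent.W910.NS

/-- the common lower bounds of two incomparable vertices separate them -/
theorem sep {V : Type u} {G : SimpleGraph V} {A : Set V} {r : V} {le : V → V → Prop}
    (h : NT G A r le) {v w : V} (hv : v ∈ A) (hvw : ¬ le v w)
    (hc : Cn G (A \ {z | le z v ∧ le z w}) v w) : False := by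
  classical
  have hsf : {z | le z v ∧ ¬ le z w}.Finite := (h.fin v).subset fun z hz => hz.1
  have hsn : {z | le z v ∧ ¬ le z w}.Nonempty := ⟨v, h.rfl' v hv, hvw⟩
  obtain ⟨v', hv', hmin⟩ := Set.exists_min_image {z | le z v ∧ ¬ le z w}
    (fun z => (h.fin z).toFinset.card) hsf hsn
  have hleast : ∀ z, le z v → ¬ le z w → le v' z := by
    intro z hz1 hz2
    rcases h.chain v' z v hv'.1 hz1 with h1 | h1
    · exact h1
    · have hsub : (h.fin z).toFinset ⊆ (h.fin v').toFinset := by
        intro y hy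
        rw [Set.Finite.mem_toFinset] at hy ⊢
        exact h.tr y z v' hy h1
      have heq := Finset.eq_of_subset_of_card_le hsub (hmin z ⟨hz1, hz2⟩)
      have hv'A : v' ∈ A := (h.dom v' v hv'.1).1
      have : v' ∈ (h.fin v').toFinset := by
        rw [Set.Finite.mem_toFinset]
        exact h.rfl' v' hv'A
      rw [← heq, Set.Finite.mem_toFinset] at this
      exact this
  have key : le v' w := by
    refine Cn.ind (P := fun y => le v' y) (G := G) (B := A \ {z | le z v ∧ le z w}) (y := v)
      hv'.1 ?_ hc.symm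
    intro a b ha hb hab _ hbv
    rcases h.norm a ha.1 b hb.1 hab with h1 | h1
    · rcases h.chain a v' b h1 hbv with h2 | h2
      · have h3 : le a v := h.tr a v' v h2 hv'.1
        by_cases h4 : le a w
        · exact absurd ⟨h3, h4⟩ ha.2
        · exact hleast a h3 h4
      · exact h2
    · exact h.tr v' b a hbv h1
  exact hv'.2 key

theorem main : S_base.{u} := by
  intro V G A r le _ hCl hNT x hx v hv w hw
  by_contra hcon
  push Not at hcon
  obtain ⟨hvw, hwv⟩ := hcon
  obtain ⟨hvA, y, hxy, hyv⟩ := hv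
  obtain ⟨hwA, y', hxy', hyw⟩ := hw
  have hZf : {z | le z v ∧ le z w}.Finite := (hNT.fin v).subset fun z hz => hz.1
  have hZA : {z | le z v ∧ le z w} ⊆ A := fun z hz => (hNT.dom z v hz.1).1
  have hZc : Aᶜ ⊆ {z | le z v ∧ le z w}ᶜ := fun z hz hz' => hz (hZA hz')
  have hvZ : v ∈ {z | le z v ∧ le z w}ᶜ := fun h => hvw h.2
  have hwZ : w ∈ {z | le z v ∧ le z w}ᶜ := fun h => hwv h.1
  have hyZ : y ∈ {z | le z v ∧ le z w}ᶜ := hZc hxy.right
  have hyZ' : y' ∈ {z | le z v ∧ le z w}ᶜ := hZc hxy'.right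
  have hc : Cn G {z | le z v ∧ le z w}ᶜ v w :=
    ((Cn.adj hvZ hyZ hyv.symm).trans (hxy.symm.mono hZc)).trans
      ((hxy'.mono hZc).trans (Cn.adj hyZ' hwZ hyw))
  exact sep hNT hvA hvw (hCl v hvA w hwA _ hZf hZA hc)

end Pool.Agent.W910.NS.T_G2
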