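import Pool.Agent.W910.NS.Stmts

/-! The union of a chain of normal trees. -/

set_option autoImplicit false

open Cardinal Set

namespace Pool.Agent.W910.NS.T_G3

open Pool.Agent.W910.NS

universe u

theorem main : S_union.{u} := by
  intro V G r P hP hN hT
  have key : ∀ p ∈ P, ∀ x y, y ∈ p.1 → ((∃ q ∈ P, q.2 x y) ↔ p.2 x y) := by
    intro p hp x y hy
    constructor
    · rintro ⟨q, hq, h⟩
      rcases hT p hp q hq with ⟨_, h2⟩ | ⟨_, h2⟩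
      · exact (h2 x y hy).1 h
      · exact (h2 x y ((hN q hq).1.dom x y h).2).2 h
    · exact fun h => ⟨p, hp, h⟩
  have big : ∀ x ∈ ⋃ p ∈ P, p.1, ∀ y ∈ ⋃ p ∈ P, p.1, ∃ p ∈ P, x ∈ p.1 ∧ y ∈ p.1 := by
    intro x hx y hy
    obtain ⟨p, hp, hxp⟩ := mem_iUnion₂.1 hx
    obtain ⟨q, hq, hyq⟩ := mem_iUnion₂.1 hy
    rcases hT p hp q hq with ⟨h1, _⟩ | ⟨h1, _⟩
    · exact ⟨q, hq, h1 hxp, hyq⟩
    · exact ⟨p, hp, hxp, h1 hyq⟩
  have inU : ∀ p ∈ P, ∀ x ∈ p.1, x ∈ ⋃ p ∈ P, p.1 := fun p hp x hx => mem_iUnion₂.2 ⟨p, hp, hx⟩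
  refine ⟨fun x y => ∃ q ∈ P, q.2 x y, ?_, ?_, fun p hp x y hy => key p hp x y hy⟩
  · refine
      { dom := ?_
        rfl' := ?_
        tr := ?_
        asy := ?_
        rootMem := ?_
        root := ?_
        fin := ?_
        chain := ?_
        pred := ?_
        norm := ?_ }
    · rintro x y ⟨q, hq, h⟩
      have h1 := (hN q hq).1.dom x y h
      exact ⟨inU q hq x h1.1, inU q hq y h1.2⟩
    · intro x hx
      obtain ⟨p, hp, hxp⟩ := mem_iUnion₂.1 hx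
      exact ⟨p, hp, (hN p hp).1.rfl' x hxp⟩
    · rintro x y z hxy ⟨p, hp, hyz⟩
      have h1 := (hN p hp).1.dom y z hyz
      exact ⟨p, hp, (hN p hp).1.tr x y z ((key p hp x y h1.1).1 hxy) hyz⟩
    · rintro x y ⟨p, hp, hxy⟩ hyx
      have h1 := (hN p hp).1.dom x y hxy
      exact (hN p hp).1.asy x y hxy ((key p hp y x h1.1).1 hyx)
    · obtain ⟨p, hp⟩ := hP
      exact inU p hp r (hN p hp).1.rootMem
    · intro x hx
      obtain ⟨p, hp, hxp⟩ := mem_iUnion₂.1 hx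
      exact ⟨p, hp, (hN p hp).1.root x hxp⟩
    · intro x
      by_cases hx : x ∈ ⋃ p ∈ P, p.1
      · obtain ⟨p, hp, hxp⟩ := mem_iUnion₂.1 hx
        exact ((hN p hp).1.fin x).subset fun y hy => (key p hp y x hxp).1 hy
      · refine Set.finite_empty.subset ?_
        rintro y ⟨q, hq, h⟩
        exact hx (inU q hq x ((hN q hq).1.dom y x h).2)
    · rintro x y z ⟨p, hp, hxz⟩ hyz
      have h1 := (hN p hp).1.dom x z hxz
      rcases (hN p hp).1.chain x y z hxz ((key p hp y z h1.2).1 hyz) with h | h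
      · exact Or.inl ⟨p, hp, h⟩
      · exact Or.inr ⟨p, hp, h⟩
    · intro x hx hxr
      obtain ⟨p, hp, hxp⟩ := mem_iUnion₂.1 hx
      obtain ⟨y, h1, h2, h3, h4⟩ := (hN p hp).1.pred x hxp hxr
      exact ⟨y, ⟨p, hp, h1⟩, h2, h3, fun z hz hne => ⟨p, hp, h4 z ((key p hp z x hxp).1 hz) hne⟩⟩
    · intro x hx y hy hxy
      obtain ⟨p, hp, hxp, hyp⟩ := big x hx y hy
      rcases (hN p hp).1.norm x hxp y hyp hxy with h | h
      · exact Or.inl ⟨p, hp, h⟩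
      · exact Or.inr ⟨p, hp, h⟩
  · rintro x hx v ⟨hv, y, hy1, hy2⟩ w ⟨hw, z, hz1, hz2⟩
    obtain ⟨p, hp, hvp, hwp⟩ := big v hv w hw
    have hsub : (⋃ p ∈ P, p.1)ᶜ ⊆ p.1ᶜ := fun t ht htp => ht (inU p hp t htp)
    rcases (hN p hp).2 x (fun h => hx (inU p hp x h)) v ⟨hvp, y, hy1.mono hsub, hy2⟩ w
      ⟨hwp, z, hz1.mono hsub, hz2⟩ with h | h
    · exact Or.inl ⟨p, hp, h⟩
    · exact Or.inr ⟨p, hp, h⟩

end Pool.Agent.W910.NS.T_G3
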