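import Pool.Agent.W910.NS.Stmts

/-! A good family gives a normal spanning tree. -/

set_option autoImplicit false

open Cardinal Set

namespace Pool.Agent.W910.NS.T_G4

universe u

/-- the objects of the exhaustion -/
def Z {V : Type u} (G : SimpleGraph V) (r : V) (F : Set (Set V)) : Type u :=
  {p : Set V × (V → V → Prop) // (p.1 ∈ F ∨ p.1 = Set.univ) ∧ NT G p.1 r p.2 ∧ NIn G p.1 p.2}

/-- their order -/
def R {V : Type u} (p q : Set V × (V → V → Prop)) : Prop := p.1 ⊆ q.1 ∧ Ext p.1 p.2 q.2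

theorem R_refl {V : Type u} (p : Set V × (V → V → Prop)) : R p p :=
  ⟨Subset.rfl, fun _ _ _ => Iff.rfl⟩

theorem R_trans {V : Type u} {p q s : Set V × (V → V → Prop)} (h : R p q) (h' : R q s) :
    R p s :=
  ⟨h.1.trans h'.1, fun x y hy => (h'.2 x y (h.1 hy)).trans (h.2 x y hy)⟩

theorem main (hs : S_step.{u}) (hb : S_base.{u}) (hu : S_union.{u}) : S_tree.{u} := by
  intro V G r F hG hF hNT
  have hCS : ∀ U ∈ F, CS G U := by
    intro U hU
    obtain ⟨h1, h2, -, -⟩ := hF.mem U hU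
    refine ⟨⟨r, h1⟩, fun x hx y hy => ?_⟩
    have h3 : Cn G (∅ : Set V)ᶜ x y := by
      rw [compl_empty]
      exact Cn.of_connected hG x y
    have h4 := h2 x hx y hy ∅ finite_empty (empty_subset _) h3
    rwa [diff_empty] at h4
  obtain ⟨U₀, hU₀⟩ := hF.ne
  have hne : Nonempty (Z G r F) := by
    obtain ⟨h1, h2, -, h4⟩ := hF.mem U₀ hU₀
    obtain ⟨le, hle⟩ := hNT U₀ h4 (hCS U₀ hU₀) r h1
    exact ⟨⟨(U₀, le), Or.inl hU₀, hle, hb V G U₀ r le hG h2 hle⟩⟩
  obtain ⟨m, hm⟩ := exists_maximal_of_nonempty_chains_bounded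
    (r := fun a b : Z G r F => R a.1 b.1) (by
      intro c hc hcne
      set P : Set (Set V × (V → V → Prop)) := Subtype.val '' c with hP
      have hP1 : ∀ p ∈ P, NT G p.1 r p.2 ∧ NIn G p.1 p.2 := by
        rintro _ ⟨a, -, rfl⟩
        exact a.2.2
      have hP2 : ∀ p ∈ P, ∀ q ∈ P,
          (p.1 ⊆ q.1 ∧ Ext p.1 p.2 q.2) ∨ (q.1 ⊆ p.1 ∧ Ext q.1 q.2 p.2) := by
        rintro _ ⟨a, ha, rfl⟩ _ ⟨b, hb', rfl⟩
        by_cases hab : a = b
        · subst hab
          exact Or.inl (R_refl _)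
        · exact hc ha hb' hab
      obtain ⟨le, k1, k2, k3⟩ := hu V G r P (hcne.image _) hP1 hP2
      have hA : (⋃ p ∈ P, p.1) ∈ F ∨ (⋃ p ∈ P, p.1) = Set.univ := by
        by_cases hun : ∃ p ∈ P, p.1 = Set.univ
        · obtain ⟨p, hp, hpu⟩ := hun
          refine Or.inr (eq_univ_of_univ_subset ?_)
          rw [← hpu]
          exact subset_biUnion_of_mem (u := fun p : Set V × (V → V → Prop) => p.1) hp
        · push Not at hun
          have h1 : Prod.fst '' P ⊆ F := by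
            rintro _ ⟨p, hp, rfl⟩
            obtain ⟨a, ha, rfl⟩ := hp
            rcases a.2.1 with h | h
            · exact h
            · exact absurd h (hun _ ⟨a, ha, rfl⟩)
          have h2 := hF.un _ h1 ((hcne.image _).image _)
          rw [sUnion_image] at h2
          exact h2
      refine ⟨⟨(⋃ p ∈ P, p.1, le), hA, k1, k2⟩, fun a ha => ?_⟩
      have haP : a.1 ∈ P := ⟨a, ha, rfl⟩
      exact ⟨subset_biUnion_of_mem (u := fun p : Set V × (V → V → Prop) => p.1) haP, k3 _ haP⟩)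
    (fun h h' => R_trans h h')
  obtain ⟨⟨A, le⟩, hA, hNTA, hNIn⟩ := m
  simp only at hA hNTA hNIn
  by_cases hAu : A = Set.univ
  · subst hAu
    exact ⟨le, hNTA⟩
  exfalso
  have hAF : A ∈ F := hA.resolve_right hAu
  obtain ⟨x, hx⟩ := (ne_univ_iff_exists_notMem A).mp hAu
  obtain ⟨U', hU', hxU⟩ := hF.cov x
  have hAU : A ⊆ U' := by
    by_cases he : A = U'
    · exact he.subset
    · rcases hF.tot hAF hU' he with h | h
      · exact h
      · exact absurd (h hxU) hx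
  obtain ⟨-, c2, -, c4⟩ := hF.mem U' hU'
  obtain ⟨-, -, d3, -⟩ := hF.mem A hAF
  obtain ⟨le', h1, h2⟩ := hs V G A U' r le hG hNTA d3 hNIn hAU c2
    fun B hB hBc => hNT B ((mk_le_mk_of_subset hB).trans_lt c4) hBc
  have h3 := hb V G U' r le' hG c2 h1
  have h4 := hm ⟨(U', le'), Or.inl hU', h1, h3⟩ ⟨hAU, h2⟩
  exact hx (h4.1 hxU)

end Pool.Agent.W910.NS.T_G4
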