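import Pool.Agent.W910.NS.Stmts

/-! Countable connected graphs have normal spanning trees with every root. -/

set_option autoImplicit false

open Cardinal Set

namespace Pool.Agent.W910.NS.T_G5

open Pool.Agent.W910.NS

universe u

variable {V : Type u} {G : SimpleGraph V}

/-- the extended order -/
def ext (le : V → V → Prop) (x0 t : V) (x y : V) : Prop := le x y ∨ (y = x0 ∧ (x = x0 ∨ le x t))

theorem ext_NT {A : Set V} {r : V} {le : V → V → Prop} (h : NT G A r le) {x0 t : V}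
    (hx0 : x0 ∉ A) (ht : t ∈ A) (hadj : G.Adj x0 t) (hN : ∀ u ∈ Nb G A x0, le u t) :
    NT G (insert x0 A) r (ext le x0 t) where
  dom := by
    intro x y hxy
    rcases hxy with h1 | ⟨h1, h2 | h2⟩
    · exact ⟨Set.mem_insert_of_mem _ (h.dom x y h1).1, Set.mem_insert_of_mem _ (h.dom x y h1).2⟩
    · subst h1 h2
      exact ⟨Set.mem_insert _ _, Set.mem_insert _ _⟩
    · subst h1
      exact ⟨Set.mem_insert_of_mem _ (h.dom x t h2).1, Set.mem_insert _ _⟩
  rfl' := by
    intro x hx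
    rcases hx with hx | hx
    · exact Or.inr ⟨hx, Or.inl hx⟩
    · exact Or.inl (h.rfl' x hx)
  tr := by
    intro x y z hxy hyz
    rcases hyz with h3 | ⟨h3, h4⟩
    · rcases hxy with h1 | ⟨h1, _⟩
      · exact Or.inl (h.tr x y z h1 h3)
      · exact absurd (h1 ▸ (h.dom y z h3).1) hx0
    · rcases hxy with h1 | ⟨h1, h2⟩
      · refine Or.inr ⟨h3, Or.inr ?_⟩
        rcases h4 with h4 | h4
        · exact absurd (h4 ▸ (h.dom x y h1).2) hx0
        · exact h.tr x y t h1 h4
      · exact Or.inr ⟨h3, h2⟩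
  asy := by
    intro x y hxy hyx
    rcases hxy with h1 | ⟨h1, _⟩
    · rcases hyx with h3 | ⟨h3, _⟩
      · exact h.asy x y h1 h3
      · exact absurd (h3 ▸ (h.dom x y h1).1) hx0
    · rcases hyx with h3 | ⟨h3, _⟩
      · exact absurd (h1 ▸ (h.dom y x h3).1) hx0
      · rw [h1, h3]
  rootMem := Set.mem_insert_of_mem _ h.rootMem
  root := by
    intro x hx
    rcases hx with hx | hx
    · exact Or.inr ⟨hx, Or.inr (h.root t ht)⟩
    · exact Or.inl (h.root x hx)
  fin := by
    intro x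
    refine Set.Finite.subset (((h.fin x).union (Set.finite_singleton x0)).union (h.fin t)) ?_
    intro y hy
    rcases hy with h1 | ⟨_, h2 | h2⟩
    · exact Or.inl (Or.inl h1)
    · exact Or.inl (Or.inr h2)
    · exact Or.inr h2
  chain := by
    intro x y z hxz hyz
    rcases hxz with h1 | ⟨h1, h2⟩
    · rcases hyz with h3 | ⟨h3, _⟩
      · rcases h.chain x y z h1 h3 with h5 | h5
        · exact Or.inl (Or.inl h5)
        · exact Or.inr (Or.inl h5)
      · exact absurd (h3 ▸ (h.dom x z h1).2) hx0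
    · rcases hyz with h3 | ⟨_, h4⟩
      · exact absurd (h1 ▸ (h.dom y z h3).2) hx0
      · rcases h2 with h2 | h2
        · exact Or.inr (Or.inr ⟨h2, h4⟩)
        · rcases h4 with h4 | h4
          · exact Or.inl (Or.inr ⟨h4, Or.inr h2⟩)
          · rcases h.chain x y t h2 h4 with h5 | h5
            · exact Or.inl (Or.inl h5)
            · exact Or.inr (Or.inl h5)
  pred := by
    intro x hx hxr
    rcases hx with hx | hx
    · subst hx
      refine ⟨t, Or.inr ⟨rfl, Or.inr (h.rfl' t ht)⟩, fun e => hx0 (e ▸ ht), hadj.symm, ?_⟩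
      intro z hz hzx
      rcases hz with h1 | ⟨_, h2 | h2⟩
      · exact absurd (h.dom z x h1).2 hx0
      · exact absurd h2 hzx
      · exact Or.inl h2
    · obtain ⟨y, hy1, hy2, hy3, hy4⟩ := h.pred x hx hxr
      refine ⟨y, Or.inl hy1, hy2, hy3, ?_⟩
      intro z hz hzx
      rcases hz with h1 | ⟨h1, _⟩
      · exact Or.inl (hy4 z h1 hzx)
      · exact absurd (h1 ▸ hx) hx0
  norm := by
    intro x hx y hy hxy
    rcases hx with hx | hx
    · rcases hy with hy | hy
      · rw [hx, hy] at hxy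
        exact absurd hxy (G.irrefl)
      · right
        refine Or.inr ⟨hx, Or.inr (hN y ⟨hy, x, ?_, hxy⟩)⟩
        rw [hx]
        exact Cn.refl hx0
    · rcases hy with hy | hy
      · left
        refine Or.inr ⟨hy, Or.inr (hN x ⟨hx, y, ?_, hxy.symm⟩)⟩
        rw [hy]
        exact Cn.refl hx0
      · rcases h.norm x hx y hy hxy with h5 | h5
        · exact Or.inl (Or.inl h5)
        · exact Or.inr (Or.inl h5)

theorem compl_sub {A : Set V} {x0 : V} : (insert x0 A)ᶜ ⊆ Aᶜ := by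
  intro z hz hzA
  exact hz (Set.mem_insert_of_mem _ hzA)

theorem ext_NIn {A : Set V} {le : V → V → Prop} (h : NIn G A le) {x0 t : V}
    (hx0 : x0 ∉ A) (hN : ∀ u ∈ Nb G A x0, le u t) :
    NIn G (insert x0 A) (ext le x0 t) := by
  have key : ∀ x, ∀ v ∈ Nb G (insert x0 A) x, ∀ w ∈ Nb G (insert x0 A) x, v = x0 → w ∈ A →
      ext le x0 t w v := by
    intro x v hv w hw hvx hwA
    obtain ⟨_, y1, hy1, ha1⟩ := hv
    obtain ⟨_, y2, hy2, ha2⟩ := hw
    have h1 : Cn G Aᶜ x0 y1 := by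
      refine Cn.adj hx0 (compl_sub hy1.right) ?_
      rw [← hvx]
      exact ha1.symm
    have h2 : Cn G Aᶜ x0 y2 := (h1.trans (hy1.mono compl_sub).symm).trans (hy2.mono compl_sub)
    exact Or.inr ⟨hvx, Or.inr (hN w ⟨hwA, y2, h2, ha2⟩)⟩
  intro x hx v hv w hw
  rcases hv.1 with hv1 | hv1
  · rcases hw.1 with hw1 | hw1
    · left
      exact Or.inr ⟨hw1, Or.inl hv1⟩
    · right
      exact key x v hv w hw hv1 hw1
  · rcases hw.1 with hw1 | hw1
    · left
      exact key x w hw v hv hw1 hv1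
    · obtain ⟨_, y1, hy1, ha1⟩ := hv
      obtain ⟨_, y2, hy2, ha2⟩ := hw
      have hxA : x ∉ A := fun h' => hx (Set.mem_insert_of_mem _ h')
      rcases h x hxA v ⟨hv1, y1, hy1.mono compl_sub, ha1⟩ w
        ⟨hw1, y2, hy2.mono compl_sub, ha2⟩ with h5 | h5
      · exact Or.inl (Or.inl h5)
      · exact Or.inr (Or.inl h5)

theorem ext_Ext {A : Set V} {le : V → V → Prop} {x0 t : V} (hx0 : x0 ∉ A) :
    Ext A le (ext le x0 t) := by
  intro x y hy
  constructor
  · rintro (h1 | ⟨h1, _⟩)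
    · exact h1
    · exact absurd (h1 ▸ hy) hx0
  · exact Or.inl

theorem Ext_trans {A A' : Set V} {le le' le'' : V → V → Prop} (hA : A ⊆ A')
    (h : Ext A le le') (h' : Ext A' le' le'') : Ext A le le'' := fun x y hy =>
  (h' x y (hA hy)).trans (h x y hy)

theorem along {r v : V} {y : V} (p : G.Walk y v) : p.IsPath → ∀ (A : Set V)
    (le : V → V → Prop) (t : V), A.Finite → NT G A r le → NIn G A le →
    (∀ z ∈ p.support, z ∉ A) → t ∈ A → G.Adj y t → (∀ u ∈ Nb G A y, le u t) →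
    ∃ (A' : Set V) (le' : V → V → Prop), A'.Finite ∧ A ⊆ A' ∧ v ∈ A' ∧ NT G A' r le' ∧
      NIn G A' le' ∧ Ext A le le' := by
  induction p with
  | @nil y =>
    intro _ A le t hA hNT hNIn hs ht hadj hN
    have hy : y ∉ A := hs y (SimpleGraph.Walk.start_mem_support _)
    exact ⟨_, _, hA.insert _, Set.subset_insert _ _, Set.mem_insert _ _,
      ext_NT hNT hy ht hadj hN, ext_NIn hNIn hy hN, ext_Ext hy⟩
  | @cons y y' v' h q ih =>
    intro hp A le t hA hNT hNIn hs ht hadj hN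
    rw [SimpleGraph.Walk.cons_isPath_iff] at hp
    have hy : y ∉ A := hs y (by simp)
    have hq : ∀ z ∈ q.support, z ∉ A := fun z hz => hs z (by simp [hz])
    have hq' : ∀ z ∈ q.support, z ∉ insert y A := by
      intro z hz hz'
      rcases hz' with hz' | hz'
      · exact hp.2 (hz' ▸ hz)
      · exact hq z hz hz'
    have hN' : ∀ u ∈ Nb G (insert y A) y', ext le y t u y := by
      intro u hu
      obtain ⟨hu1, z, hz, hzu⟩ := hu
      rcases hu1 with hu1 | hu1
      · exact Or.inr ⟨rfl, Or.inl hu1⟩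
      · refine Or.inr ⟨rfl, Or.inr (hN u ⟨hu1, z, ?_, hzu⟩)⟩
        exact (Cn.adj hy (hq y' q.start_mem_support) h).trans (hz.mono compl_sub)
    obtain ⟨A', le', h1, h2, h3, h4, h5, h6⟩ := ih hp.1 (insert y A) (ext le y t) y (hA.insert _)
      (ext_NT hNT hy ht hadj hN) (ext_NIn hNIn hy hN) hq' (Set.mem_insert _ _) h.symm hN'
    exact ⟨A', le', h1, (Set.subset_insert _ _).trans h2, h3, h4, h5,
      Ext_trans (Set.subset_insert _ _) (ext_Ext hy) h6⟩

/-- a nonempty finite chain has a greatest element -/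
theorem greatest {le : V → V → Prop} {N : Set V} (hN : N.Finite) (hne : N.Nonempty)
    (hr : ∀ x ∈ N, le x x) (htr : ∀ x y z, le x y → le y z → le x z)
    (hc : ∀ v ∈ N, ∀ w ∈ N, le v w ∨ le w v) : ∃ t ∈ N, ∀ u ∈ N, le u t := by
  induction N, hN using Set.Finite.induction_on with
  | empty => exact absurd hne (by simp)
  | @insert a S _ _ ih =>
    by_cases hS : S.Nonempty
    · obtain ⟨t, ht, ht'⟩ := ih hS (fun x hx => hr x (Set.mem_insert_of_mem _ hx))
        (fun v hv w hw => hc v (Set.mem_insert_of_mem _ hv) w (Set.mem_insert_of_mem _ hw))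
      rcases hc a (Set.mem_insert _ _) t (Set.mem_insert_of_mem _ ht) with h1 | h1
      · refine ⟨t, Set.mem_insert_of_mem _ ht, ?_⟩
        intro u hu
        rcases hu with hu | hu
        · rw [hu]
          exact h1
        · exact ht' u hu
      · refine ⟨a, Set.mem_insert _ _, ?_⟩
        intro u hu
        rcases hu with hu | hu
        · rw [hu]
          exact hr a (Set.mem_insert _ _)
        · exact htr u t a (ht' u hu) h1
    · refine ⟨a, Set.mem_insert _ _, ?_⟩
      intro u hu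
      rcases hu with hu | hu
      · rw [hu]
        exact hr a (Set.mem_insert _ _)
      · exact absurd ⟨u, hu⟩ hS

theorem step (hG : G.Connected) {A : Set V} {r : V} {le : V → V → Prop} (hA : A.Finite)
    (hNT : NT G A r le) (hNIn : NIn G A le) (v : V) :
    ∃ (A' : Set V) (le' : V → V → Prop), A'.Finite ∧ A ⊆ A' ∧ v ∈ A' ∧ NT G A' r le' ∧
      NIn G A' le' ∧ Ext A le le' := by
  classical
  by_cases hv : v ∈ A
  · exact ⟨A, le, hA, subset_rfl, hv, hNT, hNIn, fun x y _ => Iff.rfl⟩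
  · have hne : (Nb G A v).Nonempty := by
      obtain ⟨a, b, h1, _, h3, _, h5⟩ := Cn.exit (B := Set.univ) (C := Aᶜ)
        (Cn.of_connected hG v r) hv (fun h' => h' hNT.rootMem)
      refine ⟨b, not_not.1 h3, a, h1.mono ?_, h5⟩
      intro z hz
      exact hz.2
    have hfin : (Nb G A v).Finite := hA.subset (fun z hz => hz.1)
    obtain ⟨t, ht, htg⟩ := greatest (le := le) hfin hne (fun x hx => hNT.rfl' x hx.1) hNT.tr
      (hNIn v hv)
    obtain ⟨htA, y, hy, hyt⟩ := ht
    obtain ⟨p, hp⟩ := hy.symm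
    refine along (r := r) p.toPath.1 p.toPath.2 A le t hA hNT hNIn ?_ htA hyt ?_
    · intro z hz
      exact hp z (SimpleGraph.Walk.support_toPath_subset p hz)
    · intro u hu
      obtain ⟨hu1, z, hz, hzu⟩ := hu
      exact htg u ⟨hu1, z, hy.trans hz, hzu⟩

theorem base (r : V) : NT G {r} r (fun x y => x = r ∧ y = r) where
  dom := fun x y h => h
  rfl' := fun x hx => ⟨hx, hx⟩
  tr := fun x y z h h' => ⟨h.1, h'.2⟩
  asy := fun x y h _ => h.1.trans h.2.symm
  rootMem := rfl
  root := fun x hx => ⟨rfl, hx⟩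
  fin := fun x => (Set.finite_singleton r).subset (fun y hy => hy.1)
  chain := fun x y z h h' => Or.inl ⟨h.1, h'.1⟩
  pred := fun x hx hxr => absurd hx hxr
  norm := fun x hx y hy _ => Or.inl ⟨hx, hy⟩

theorem main (hu : S_union.{u}) : S_ctbl.{u} := by
  intro V G r hV hG
  haveI : Nonempty V := ⟨r⟩
  obtain ⟨f, hf⟩ := exists_surjective_nat V
  let T := {p : Set V × (V → V → Prop) // p.1.Finite ∧ NT G p.1 r p.2 ∧ NIn G p.1 p.2}
  have hstep : ∀ (p : T) (v : V), ∃ p' : T, p.1.1 ⊆ p'.1.1 ∧ v ∈ p'.1.1 ∧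
      Ext p.1.1 p.1.2 p'.1.2 := by
    intro p v
    obtain ⟨A', le', h1, h2, h3, h4, h5, h6⟩ := step hG p.2.1 p.2.2.1 p.2.2.2 v
    exact ⟨⟨(A', le'), h1, h4, h5⟩, h2, h3, h6⟩
  choose nx hnx1 hnx2 hnx3 using hstep
  let s : ℕ → T := fun n => Nat.rec ⟨({r}, fun x y => x = r ∧ y = r), Set.finite_singleton r,
    base r, fun x _ v hv w hw => Or.inl ⟨hv.1, hw.1⟩⟩ (fun k q => nx q (f k)) n
  have hs : ∀ n, s (n + 1) = nx (s n) (f n) := fun n => rfl
  have hmono : ∀ m n, m ≤ n → (s m).1.1 ⊆ (s n).1.1 ∧ Ext (s m).1.1 (s m).1.2 (s n).1.2 := by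
    intro m n hmn
    induction n, hmn using Nat.le_induction with
    | base => exact ⟨subset_rfl, fun x y _ => Iff.rfl⟩
    | succ n hmn ih =>
      rw [hs n]
      exact ⟨ih.1.trans (hnx1 (s n) (f n)), Ext_trans ih.1 ih.2 (hnx3 (s n) (f n))⟩
  obtain ⟨le, h1, _, _⟩ := hu V G r (Set.range (fun n => (s n).1)) ⟨_, 0, rfl⟩ (by
    rintro p ⟨n, rfl⟩
    exact (s n).2.2) (by
    rintro p ⟨m, rfl⟩ q ⟨n, rfl⟩
    rcases le_total m n with h | h
    · exact Or.inl (hmono m n h)
    · exact Or.inr (hmono n m h))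
  refine ⟨le, ?_⟩
  have huniv : (⋃ p ∈ Set.range (fun n => (s n).1), p.1) = (Set.univ : Set V) := by
    apply Set.eq_univ_of_forall
    intro v
    obtain ⟨n, hn⟩ := hf v
    rw [Set.mem_iUnion₂]
    refine ⟨(s (n + 1)).1, ⟨n + 1, rfl⟩, ?_⟩
    rw [hs n, ← hn]
    exact hnx2 (s n) (f n)
  rw [huniv] at h1
  exact h1

end Pool.Agent.W910.NS.T_G5
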