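import Pool.Agent.W910.NS.Stmts

/-! Project NS (helper910), part G6: closure operators (helper557). -/

set_option autoImplicit false

open Cardinal Set Pool.Agent.W910.NS

namespace Pool.Agent.W910.NS.T_G6

universe u

open Classical in
/-- the support of a chosen walk -/
noncomputable def W {V : Type u} (G : SimpleGraph V) (x y : V) (S : Finset V) : Finset V :=
  if h : Cn G ((S : Set V)ᶜ) x y then h.choose.support.toFinset else ∅

theorem clos : S_clos.{u} := by
  classical
  intro V G
  refine ⟨fun s => s.biUnion fun x => s.biUnion fun y => s.powerset.biUnion fun S => W G x y S, ?_⟩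
  intro U hU x hx y hy S hS hSU hxy
  have hSc : ((hS.toFinset : Finset V) : Set V) = S := hS.coe_toFinset
  have hxy' : Cn G (((hS.toFinset : Finset V) : Set V)ᶜ) x y := by rwa [hSc]
  have h1 := hU (insert x (insert y hS.toFinset)) (by
    intro z hz
    rw [Finset.mem_coe, Finset.mem_insert, Finset.mem_insert, Set.Finite.mem_toFinset] at hz
    rcases hz with rfl | rfl | hz
    · exact hx
    · exact hy
    · exact hSU hz)
  refine ⟨hxy'.choose, fun z hz => ?_⟩
  have h2 := hxy'.choose_spec z hz
  rw [hSc] at h2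
  refine ⟨h1 ?_, h2⟩
  rw [Finset.mem_coe, Finset.mem_biUnion]
  refine ⟨x, Finset.mem_insert_self _ _, ?_⟩
  rw [Finset.mem_biUnion]
  refine ⟨y, Finset.mem_insert_of_mem (Finset.mem_insert_self _ _), ?_⟩
  rw [Finset.mem_biUnion]
  refine ⟨hS.toFinset, Finset.mem_powerset.2 (fun t ht => Finset.mem_insert_of_mem
    (Finset.mem_insert_of_mem ht)), ?_⟩
  unfold W
  rw [dif_pos hxy', List.mem_toFinset]
  exact hz

/-- closed sets -/
def Clo {X ι : Type u} (F : ι → Finset X → Finset X) (C : Set X) : Prop :=
  ∀ i (s : Finset X), (s : Set X) ⊆ C → ((F i s : Finset X) : Set X) ⊆ C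

/-- closure -/
def cl {X ι : Type u} (F : ι → Finset X → Finset X) (A : Set X) : Set X :=
  ⋂₀ {C | A ⊆ C ∧ Clo F C}

/-- stages -/
def stg {X ι : Type u} (F : ι → Finset X → Finset X) (A : Set X) : ℕ → Set X
  | 0 => A
  | n + 1 => stg F A n ∪ ⋃ p : ι × Finset (stg F A n),
      ((F p.1 (p.2.map (Function.Embedding.subtype _)) : Finset X) : Set X)

theorem mk_finset_le (α : Type u) : #(Finset α) ≤ max ℵ₀ #α := by
  classical
  refine le_trans (mk_le_of_surjective (f := fun l : List α => l.toFinset) ?_) (mk_list_le_max α)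
  intro s
  exact ⟨s.toList, Finset.toList_toFinset s⟩

theorem stg_card {X ι : Type u} (F : ι → Finset X → Finset X) (A : Set X) (n : ℕ) :
    #(stg F A n) ≤ max (max #A #ι) ℵ₀ := by
  induction n with
  | zero => exact (le_max_left _ _).trans (le_max_left _ _)
  | succ n ih =>
    have hκ : ℵ₀ ≤ max (max #A #ι) ℵ₀ := le_max_right _ _
    have h1 : #(ι × Finset (stg F A n)) ≤ max (max #A #ι) ℵ₀ := by
      rw [mk_prod, lift_id, lift_id]
      have h2 : #ι ≤ max (max #A #ι) ℵ₀ := (le_max_right #A #ι).trans (le_max_left _ _)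
      have h3 : #(Finset (stg F A n)) ≤ max (max #A #ι) ℵ₀ :=
        (mk_finset_le _).trans (max_le hκ ih)
      exact (mul_le_mul' h2 h3).trans (mul_eq_self hκ).le
    show #((stg F A n ∪ ⋃ p : ι × Finset (stg F A n),
      ((F p.1 (p.2.map (Function.Embedding.subtype _)) : Finset X) : Set X) : Set X)) ≤ _
    refine (mk_union_le _ _).trans ((add_le_add ih ?_).trans (add_eq_self hκ).le)
    refine (mk_iUnion_le _).trans ?_
    refine (mul_le_mul' h1 ?_).trans (mul_eq_self hκ).le
    refine ciSup_le' fun p => ?_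
    refine le_trans ?_ hκ
    exact (Set.Countable.le_aleph0 (Finset.countable_toSet _))

theorem clop : S_clop.{u} := by
  classical
  intro X ι F
  have hmin : ∀ (A C : Set X), A ⊆ C → Clo F C → cl F A ⊆ C := fun A C h1 h2 =>
    Set.sInter_subset_of_mem ⟨h1, h2⟩
  have hsub : ∀ A, A ⊆ cl F A := fun A => Set.subset_sInter fun C hC => hC.1
  have hclo : ∀ A, Clo F (cl F A) := by
    intro A i s hs
    refine Set.subset_sInter fun C hC => ?_
    exact hC.2 i s (hs.trans (Set.sInter_subset_of_mem hC))
  refine ⟨cl F, hsub, fun A => hclo A, ?_, ?_, ?_⟩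
  · intro A B hAB
    exact hmin A _ (hAB.trans (hsub B)) (hclo B)
  · intro A
    have hmono : ∀ n, stg F A n ⊆ stg F A (n + 1) := fun n => Set.subset_union_left
    have hmono' : Monotone (stg F A) := monotone_nat_of_le_succ hmono
    have h1 : Clo F (⋃ n, stg F A n) := by
      intro i s hs
      obtain ⟨n, hn⟩ := Directed.exists_mem_subset_of_finset_subset_biUnion
        (f := stg F A) hmono'.directed_le hs
      refine Set.Subset.trans ?_ (Set.subset_iUnion _ (n + 1))
      refine Set.Subset.trans ?_ Set.subset_union_right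
      have h2 : (s.subtype (· ∈ stg F A n)).map (Function.Embedding.subtype _) = s := by
        rw [Finset.subtype_map]
        exact Finset.filter_true_of_mem fun x hx => hn hx
      intro z hz
      rw [Set.mem_iUnion]
      refine ⟨(i, s.subtype (· ∈ stg F A n)), ?_⟩
      show z ∈ ((F i ((s.subtype (· ∈ stg F A n)).map (Function.Embedding.subtype _)) :
        Finset X) : Set X)
      rw [h2]
      exact hz
    have h2 : cl F A ⊆ ⋃ n, stg F A n := hmin A _ (Set.subset_iUnion (stg F A) 0) h1
    refine (mk_le_mk_of_subset h2).trans ?_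
    have hκ : ℵ₀ ≤ max (max #A #ι) ℵ₀ := le_max_right _ _
    have h3 : #(⋃ n : ULift.{u} ℕ, stg F A n.down : Set X) ≤ max (max #A #ι) ℵ₀ := by
      refine (mk_iUnion_le _).trans ?_
      refine (mul_le_mul' ?_ (ciSup_le' fun n : ULift.{u} ℕ => stg_card F A n.down)).trans
        (mul_eq_self hκ).le
      refine le_trans ?_ hκ
      simp
    have h4 : (⋃ n : ULift.{u} ℕ, stg F A n.down : Set X) = ⋃ n, stg F A n := by
      ext z
      simp only [Set.mem_iUnion]
      constructor
      · rintro ⟨n, hn⟩
        exact ⟨n.down, hn⟩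
      · rintro ⟨n, hn⟩
        exact ⟨⟨n⟩, hn⟩
    rw [← h4]
    exact h3
  · intro C hC hch
    refine hmin _ _ ?_ ?_
    · intro x hx
      obtain ⟨A, hA, hxA⟩ := hx
      exact Set.mem_iUnion₂.2 ⟨A, hA, hsub A hxA⟩
    · intro i s hs
      have hdir : DirectedOn (fun A B => cl F A ⊆ cl F B) C := by
        intro A hA B hB
        rcases hch.total hA hB with h | h
        · exact ⟨B, hB, hmin A _ (h.trans (hsub B)) (hclo B), Set.Subset.rfl⟩
        · exact ⟨A, hA, Set.Subset.rfl, hmin B _ (h.trans (hsub A)) (hclo A)⟩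
      obtain ⟨A, hA, hsA⟩ := DirectedOn.exists_mem_subset_of_finset_subset_biUnion hC hdir hs
      exact (hclo A i s hsA).trans (Set.subset_biUnion_of_mem (u := fun A => cl F A) hA)

end Pool.Agent.W910.NS.T_G6
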