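import Pool.Agent.W910.NS.Stmts

/-! Witness for infinite adhesion. -/

set_option autoImplicit false

open Cardinal Set

namespace Pool.Agent.W910.NS.T_G7

open Pool.Agent.W910.NS

universe u

theorem main : S_notFA.{u} := by
  classical
  intro V G U h
  unfold FA at h
  push Not at h
  obtain ⟨x, hxU, hinf⟩ := h
  have hinf' : (Nb G U x).Infinite := hinf
  obtain ⟨v, hvinj, hv⟩ : ∃ v : ℕ → V, Function.Injective v ∧ ∀ n, v n ∈ Nb G U x :=
    ⟨fun n => (hinf'.natEmbedding _ n).1,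
      fun a b hab => (hinf'.natEmbedding _).injective (Subtype.ext hab),
      fun n => (hinf'.natEmbedding _ n).2⟩
  have hv2 : ∀ n, ∃ y, Cn G Uᶜ x y ∧ G.Adj y (v n) := fun n => (hv n).2
  choose y hy hadj using hv2
  have hfin : ∀ n, ∃ s : Finset V, x ∈ s ∧ y n ∈ s ∧ (∀ z ∈ s, z ∈ Uᶜ) ∧
      ∀ z ∈ s, Cn G (s : Set V) x z ∧ Cn G (s : Set V) z (y n) := fun n => (hy n).finite
  choose s hxs hys hsU hsc using hfin
  have hD : ∀ n, (s n : Set V) ⊆ ⋃ n, (s n : Set V) :=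
    fun n => Set.subset_iUnion (fun n => (s n : Set V)) n
  have hconn : ∀ z ∈ ⋃ n, (s n : Set V), Cn G (⋃ n, (s n : Set V)) x z := by
    intro z hz
    obtain ⟨n, hn⟩ := Set.mem_iUnion.mp hz
    exact Cn.mono (hD n) (hsc n z hn).1
  refine ⟨⋃ n, (s n : Set V), Set.countable_iUnion fun n => (s n).countable_toSet,
    ⟨⟨x, hD 0 (hxs 0)⟩, fun a ha b hb => (hconn a ha).symm.trans (hconn b hb)⟩, ?_, ?_⟩
  · intro z hz
    obtain ⟨n, hn⟩ := Set.mem_iUnion.mp hz
    exact hsU n z hn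
  · refine Set.infinite_of_injective_forall_mem hvinj fun n => ⟨(hv n).1, y n, hD n (hys n), hadj n⟩

end Pool.Agent.W910.NS.T_G7
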