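import Pool.Agent.W910.NS.Stmts

/-! Construction of a chain which absorbs the witnesses for infinite adhesion. -/

set_option autoImplicit false

open Cardinal Set

namespace Pool.Agent.W910.NS.T_G8

universe u

section

variable {V L : Type u} [LinearOrder L] [WellFoundedLT L]

/-- One step of the construction. -/
def E (cl : Set V → Set V) (D0 : Set V → Set V) (X : Set V) (x : V) : Set V :=
  cl (X ∪ D0 X ∪ {x})

/-- The chain. -/
noncomputable def UU (cl : Set V → Set V) (D0 : Set V → Set V) (U₀ : Set V) (v : L → V) :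
    L → Set V :=
  (wellFounded_lt (α := L)).fix (fun i rec => cl U₀ ∪ ⋃ j : Iio i, E cl D0 (rec j.1 j.2) (v j.1))

theorem UU_eq (cl : Set V → Set V) (D0 : Set V → Set V) (U₀ : Set V) (v : L → V) (i : L) :
    UU cl D0 U₀ v i = cl U₀ ∪ ⋃ j : Iio i, E cl D0 (UU cl D0 U₀ v j.1) (v j.1) := by
  rw [UU, WellFounded.fix_eq]

theorem mem_UU {cl : Set V → Set V} {D0 : Set V → Set V} {U₀ : Set V} {v : L → V} {i : L}
    {x : V} : x ∈ UU cl D0 U₀ v i ↔
      x ∈ cl U₀ ∨ ∃ j, j < i ∧ x ∈ E cl D0 (UU cl D0 U₀ v j) (v j) := by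
  rw [UU_eq]
  simp only [mem_union, mem_iUnion, Subtype.exists, mem_Iio, exists_prop]

theorem cl0_sub {cl : Set V → Set V} {D0 : Set V → Set V} {U₀ : Set V} {v : L → V} (i : L) :
    cl U₀ ⊆ UU cl D0 U₀ v i := fun _ hx => mem_UU.2 (Or.inl hx)

theorem E_sub {cl : Set V → Set V} {D0 : Set V → Set V} {U₀ : Set V} {v : L → V} {i j : L}
    (h : j < i) : E cl D0 (UU cl D0 U₀ v j) (v j) ⊆ UU cl D0 U₀ v i :=
  fun _ hx => mem_UU.2 (Or.inr ⟨j, h, hx⟩)

theorem UU_mono {cl : Set V → Set V} {D0 : Set V → Set V} {U₀ : Set V} {v : L → V} {i j : L}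
    (h : i ≤ j) : UU cl D0 U₀ v i ⊆ UU cl D0 U₀ v j := by
  intro x hx
  rcases mem_UU.1 hx with h0 | ⟨k, hk, hxk⟩
  · exact mem_UU.2 (Or.inl h0)
  · exact mem_UU.2 (Or.inr ⟨k, lt_of_lt_of_le hk h, hxk⟩)

/-- The union of a nonempty chain of closed sets is closed. -/
theorem cl_sUnion (G : SimpleGraph V) (C : Set (Set V)) (hne : C.Nonempty)
    (hch : IsChain (· ⊆ ·) C) (hC : ∀ A ∈ C, Cl G A) : Cl G (⋃₀ C) := by
  intro x hx y hy S hS hSU hxy
  have key : ∀ T : Set V, T.Finite → T ⊆ ⋃₀ C → ∃ A ∈ C, T ⊆ A := by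
    intro T hT
    refine Set.Finite.induction_on (motive := fun T _ => T ⊆ ⋃₀ C → ∃ A ∈ C, T ⊆ A) T hT ?_ ?_
    · intro _
      obtain ⟨A, hA⟩ := hne
      exact ⟨A, hA, empty_subset A⟩
    · intro a T' _ _ ih hsub
      obtain ⟨A, hA, hTA⟩ := ih (fun z hz => hsub (mem_insert_of_mem a hz))
      obtain ⟨B, hB, haB⟩ := hsub (mem_insert a T')
      rcases hch.total hA hB with h | h
      · exact ⟨B, hB, insert_subset haB (hTA.trans h)⟩
      · exact ⟨A, hA, insert_subset (h haB) hTA⟩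
  obtain ⟨A, hA, hsub⟩ := key (insert x (insert y S)) ((hS.insert y).insert x)
    (insert_subset hx (insert_subset hy hSU))
  have h1 := hC A hA x (hsub (mem_insert _ _)) y (hsub (mem_insert_of_mem _ (mem_insert _ _)))
    S hS (fun z hz => hsub (mem_insert_of_mem _ (mem_insert_of_mem _ hz))) hxy
  refine Cn.mono (B := A \ S) ?_ h1
  intro z hz
  exact ⟨mem_sUnion.2 ⟨A, hA, hz.1⟩, hz.2⟩

end

theorem main (hc : S_clos.{u}) (hp : S_clop.{u}) (hn : S_notFA.{u}) (hk : S_card.{u}) :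
    S_chain.{u} := by
  intro V G L _ _ hL U₀ v hU₀
  classical
  obtain ⟨F, hF⟩ := hc V G
  obtain ⟨cl, hsub, hcl, hmono, hcard, -⟩ := hp V PUnit.{u+1} (fun _ => F)
  have hClcl : ∀ A, Cl G (cl A) := fun A => hF (cl A) (fun s hs => hcl A PUnit.unit s hs)
  obtain ⟨hreg, hun⟩ := hk L hL
  -- witnesses
  have hD : ∀ X : Set V, ∃ D : Set V, D.Countable ∧ (¬ FA G X → CS G D ∧ D ⊆ Xᶜ ∧
      {x | x ∈ X ∧ ∃ d ∈ D, G.Adj d x}.Infinite) := by
    intro X
    by_cases h : FA G X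
    · exact ⟨∅, Set.countable_empty, fun h' => absurd h h'⟩
    · obtain ⟨D, h1, h2, h3, h4⟩ := hn V G X h
      exact ⟨D, h1, fun _ => ⟨h2, h3, h4⟩⟩
  choose D0 hD0c hD0 using hD
  set U : L → Set V := UU cl D0 U₀ v with hUdef
  have hXE : ∀ X x, X ∪ D0 X ∪ {x} ⊆ E cl D0 X x := fun X x => hsub _
  have hXsub : ∀ X x, X ⊆ E cl D0 X x :=
    fun X x z hz => hXE X x (Or.inl (Or.inl hz))
  have hL0 : ℵ₀ < #L := hL.unc
  have hEcard : ∀ (X : Set V) (x : V), #X < #L → #(E cl D0 X x) < #L := by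
    intro X x hX
    refine lt_of_le_of_lt (hcard _) ?_
    have h1 : #(X ∪ D0 X ∪ {x} : Set V) < #L := by
      refine lt_of_le_of_lt (mk_union_le _ _) (add_lt_of_lt hL0.le ?_ ?_)
      · refine lt_of_le_of_lt (mk_union_le _ _) (add_lt_of_lt hL0.le hX ?_)
        exact lt_of_le_of_lt (le_aleph0_iff_set_countable.2 (hD0c X)) hL0
      · rw [mk_singleton]
        exact lt_trans one_lt_aleph0 hL0
    have h2 : #PUnit.{u+1} < #L := by
      rw [mk_punit]
      exact lt_trans one_lt_aleph0 hL0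
    exact max_lt (max_lt h1 h2) hL0
  have hsmall : ∀ i, #(U i) < #L := by
    intro i
    induction i using WellFoundedLT.induction with
    | ind i ih =>
      have hU : U i = cl U₀ ∪ ⋃ j : Iio i, E cl D0 (U j.1) (v j.1) := UU_eq cl D0 U₀ v i
      rw [hU]
      refine lt_of_le_of_lt (mk_union_le _ _) (add_lt_of_lt hL0.le ?_ ?_)
      · refine lt_of_le_of_lt (hcard _) ?_
        refine max_lt (max_lt hU₀ ?_) hL0
        rw [mk_punit]
        exact lt_trans one_lt_aleph0 hL0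
      · exact hun V (Iio i) (fun j => E cl D0 (U j.1) (v j.1)) (hL.seg i)
          (fun j => hEcard _ _ (ih j.1 j.2))
  have hClU : ∀ i, Cl G (U i) := by
    intro i
    have hU : U i = ⋃₀ (insert (cl U₀) {A | ∃ j, j < i ∧ A = E cl D0 (U j) (v j)}) := by
      ext x
      rw [sUnion_insert, mem_union, mem_sUnion]
      constructor
      · intro hx
        rcases mem_UU.1 hx with h0 | ⟨j, hj, hxj⟩
        · exact Or.inl h0
        · exact Or.inr ⟨_, ⟨j, hj, rfl⟩, hxj⟩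
      · rintro (h0 | ⟨A, ⟨j, hj, rfl⟩, hxj⟩)
        · exact mem_UU.2 (Or.inl h0)
        · exact mem_UU.2 (Or.inr ⟨j, hj, hxj⟩)
    rw [hU]
    have h0E : ∀ j, cl U₀ ⊆ E cl D0 (U j) (v j) := fun j => (cl0_sub j).trans (hXsub _ _)
    have hEE : ∀ j k, j ≤ k → E cl D0 (U j) (v j) ⊆ E cl D0 (U k) (v k) := by
      intro j k hjk
      rcases eq_or_lt_of_le hjk with h | h
      · rw [h]
      · exact (E_sub h).trans (hXsub _ _)
    refine cl_sUnion G _ ⟨cl U₀, mem_insert _ _⟩ ?_ ?_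
    · intro A hA B hB _
      rcases hA with rfl | ⟨j, hj, rfl⟩
      · rcases hB with rfl | ⟨k, hk', rfl⟩
        · exact Or.inl (subset_refl _)
        · exact Or.inl (h0E k)
      · rcases hB with rfl | ⟨k, hk', rfl⟩
        · exact Or.inr (h0E j)
        · rcases le_total j k with h | h
          · exact Or.inl (hEE j k h)
          · exact Or.inr (hEE k j h)
    · intro A hA
      rcases hA with rfl | ⟨j, hj, rfl⟩
      · exact hClcl _
      · exact hClcl _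
  refine ⟨U, fun i => D0 (U i), ⟨⟨fun i j h => UU_mono h, ?_, hsmall⟩, hClU, ?_⟩, ?_, ?_⟩
  · intro i hi x hx
    rw [mem_iUnion₂]
    rcases mem_UU.1 hx with h0 | ⟨j, hj, hxj⟩
    · obtain ⟨a, ha⟩ := hi.1
      exact ⟨a, ha, cl0_sub a h0⟩
    · obtain ⟨b, hb1, hb2⟩ := hi.2 j hj
      exact ⟨b, hb2, E_sub hb1 hxj⟩
  · intro i hi
    obtain ⟨h2, h3, h4⟩ := hD0 (U i) hi
    refine ⟨hD0c _, h2, h3, ?_, h4⟩
    intro j hij z hz
    exact E_sub hij (hXE (U i) (v i) (Or.inl (Or.inr hz)))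
  · intro i z hz
    exact cl0_sub i (hsub _ hz)
  · intro i j hij
    exact E_sub hij (hXE (U i) (v i) (Or.inr rfl))

end Pool.Agent.W910.NS.T_G8
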