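import Pool.Agent.W910.NS.Stmts

/-! Case A: infinitely many neighbours in a fixed member of the chain. -/

set_option autoImplicit false

open Cardinal Set

namespace Pool.Agent.W910.NS.T_G9

universe u

/-- the filtration -/
def WW {V : Type u} {L : Type u} [LinearOrder L] (U D : L → Set V) (j : L) (phi : L → L) (a : L) :
    Set (Set V) :=
  {B | ∃ x ∈ U j, B = {x}} ∪ {B | ∃ b, b < a ∧ B = D (phi b)}

theorem main (hU : S_unb.{u}) (hC : S_Cw.{u}) (_hk : S_card.{u}) : S_caseA.{u} := by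
  intro V G L _ _ hL U D S j hF hS h
  have h1 : ∀ i ∈ S, D i ⊆ (U i)ᶜ := fun i hi => (h i hi).2.2.2.1
  have h2 : ∀ i ∈ S, ∀ k, i < k → D i ⊆ U k := fun i hi => (h i hi).2.2.2.2.1
  have hj : ∀ i ∈ S, ∀ x ∈ U j, x ∉ D i := fun i hi x hx hx' =>
    h1 i hi hx' (hF.mono _ _ (h i hi).1.le hx)
  have hdis : ∀ i ∈ S, ∀ k ∈ S, i ≠ k → Disjoint (D i) (D k) := by
    intro i hi k hk' hne
    rw [Set.disjoint_left]
    intro x hx hx'
    rcases lt_or_gt_of_ne hne with hlt | hlt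
    · exact h1 k hk' hx' (h2 i hi k hlt hx)
    · exact h1 i hi hx (h2 k hk' i hlt hx')
  obtain ⟨e⟩ := Cardinal.eq.mp (hU L hL S hS).2
  set phi : L → L := fun a => (e.symm a : L) with hphi
  have hphiS : ∀ a, phi a ∈ S := fun a => (e.symm a).2
  have hinj : Function.Injective phi := Subtype.val_injective.comp e.symm.injective
  have hup : ∀ a : L, ∃ b, a < b := by
    intro a
    obtain ⟨b, hb⟩ := hL.bd {a} (by
      rw [mk_singleton]
      exact one_lt_aleph0.trans hL.unc)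
    exact ⟨b, hb a rfl⟩
  refine ⟨WW U D j phi, fun a => D (phi a), {a | Cw a ∧ j ≤ a}, ⟨?_, ?_, ?_⟩, ?_, ?_,
    hC L hL j, fun a ha => ha.1, ?_⟩
  · rintro i k hik B (⟨x, hx, rfl⟩ | ⟨b, hb, rfl⟩)
    · exact Or.inl ⟨x, hx, rfl⟩
    · exact Or.inr ⟨b, lt_of_lt_of_le hb hik, rfl⟩
  · rintro i hl B (⟨x, hx, rfl⟩ | ⟨b, hb, rfl⟩)
    · obtain ⟨a, ha⟩ := hl.1
      rw [Set.mem_iUnion₂]
      exact ⟨a, ha, Or.inl ⟨x, hx, rfl⟩⟩
    · obtain ⟨b', hb1, hb2⟩ := hl.2 b hb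
      rw [Set.mem_iUnion₂]
      exact ⟨b', hb2, Or.inr ⟨b, hb1, rfl⟩⟩
  · intro i
    have hsub : WW U D j phi i ⊆ (fun x => ({x} : Set V)) '' (U j) ∪
        (fun b => D (phi b)) '' (Iio i) := by
      rintro B (⟨x, hx, rfl⟩ | ⟨b, hb, rfl⟩)
      · exact Or.inl ⟨x, hx, rfl⟩
      · exact Or.inr ⟨b, hb, rfl⟩
    calc #(WW U D j phi i) ≤ #((fun x => ({x} : Set V)) '' (U j) ∪
          (fun b => D (phi b)) '' (Iio i) : Set (Set V)) := mk_le_mk_of_subset hsub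
      _ ≤ #((fun x => ({x} : Set V)) '' (U j)) + #((fun b => D (phi b)) '' (Iio i)) :=
          mk_union_le _ _
      _ ≤ #(U j) + #(Iio i) := add_le_add mk_image_le mk_image_le
      _ < #L := add_lt_of_lt hL.unc.le (hF.small j) (hL.seg i)
  · intro B hB
    rw [Set.mem_iUnion] at hB
    obtain ⟨a, ⟨x, hx, rfl⟩ | ⟨b, hb, rfl⟩⟩ := hB
    · refine ⟨Set.countable_singleton x, Set.singleton_nonempty x, ?_⟩
      intro y hy z hz
      rw [Set.mem_singleton_iff] at hy hz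
      rw [hy, hz]
      exact Cn.refl rfl
    · exact ⟨(h _ (hphiS b)).2.1, (h _ (hphiS b)).2.2.1⟩
  · intro B hB B' hB' hne
    rw [Set.mem_iUnion] at hB hB'
    obtain ⟨a, ⟨x, hx, rfl⟩ | ⟨b, hb, rfl⟩⟩ := hB <;>
    obtain ⟨a', ⟨y, hy, rfl⟩ | ⟨b', hb', rfl⟩⟩ := hB'
    · rw [Set.disjoint_singleton]
      exact fun hxy => hne (by rw [hxy])
    · rw [Set.disjoint_singleton_left]
      exact hj _ (hphiS b') x hx
    · rw [Set.disjoint_singleton_right]
      exact hj _ (hphiS b) y hy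
    · exact hdis _ (hphiS b) _ (hphiS b') fun hbb => hne (by rw [hbb])
  · intro a ha
    obtain ⟨-, -, hcs, -, -, hN⟩ := h _ (hphiS a)
    refine ⟨?_, ?_, ?_⟩
    · obtain ⟨b, hb⟩ := hup a
      rw [Set.mem_iUnion]
      exact ⟨b, Or.inr ⟨a, hb, rfl⟩⟩
    · rintro (⟨x, hx, he⟩ | ⟨b, hb, he⟩)
      · refine hj _ (hphiS a) x hx ?_
        have he' : D (phi a) = {x} := he
        rw [he']
        rfl
      · have := hdis _ (hphiS b) _ (hphiS a) fun hbb => hb.ne (hinj hbb)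
        have he' : D (phi a) = D (phi b) := he
        rw [← he'] at this
        obtain ⟨y, hy⟩ := hcs.1
        exact Set.disjoint_left.mp this hy hy
    · have himg : ((fun x => ({x} : Set V)) ''
          {x | x ∈ U j ∧ ∃ d ∈ D (phi a), G.Adj d x}).Infinite :=
        hN.image (Set.singleton_injective.injOn)
      refine himg.mono ?_
      rintro _ ⟨x, ⟨hxU, d, hd, hadj⟩, rfl⟩
      exact ⟨Or.inl ⟨x, hxU, rfl⟩, x, rfl, d, hd, hadj.symm⟩

end Pool.Agent.W910.NS.T_G9
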