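import Pool.Agent.W910.NS.Stmts

set_option autoImplicit false

open Cardinal Set

namespace Pool.Agent.W910.NS.T_O3

open Pool.Agent.W910.NS

universe u

/-- The involution exchanging `a` and `z a` for `a` in `T`. -/
noncomputable def sw {L : Type u} (T : Set L) (z : L → L) (x : L) : L := by
  classical exact
  if x ∈ T then z x else if hx : ∃ a, a ∈ T ∧ z a = x then hx.choose else x

section sw

variable {L : Type u} [LinearOrder L] (T : Set L) (z : L → L)
  (h1 : ∀ a ∈ T, a ≤ z a) (h2 : ∀ a ∈ T, ∀ b ∈ T, a < b → z a < b)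

include h1 h2

theorem z_inj {a b : L} (ha : a ∈ T) (hb : b ∈ T) (h : z a = z b) : a = b := by
  rcases lt_trichotomy a b with hab | hab | hab
  · have := h2 a ha b hb hab
    rw [h] at this
    exact absurd (h1 b hb) (not_le.2 this)
  · exact hab
  · have := h2 b hb a ha hab
    rw [← h] at this
    exact absurd (h1 a ha) (not_le.2 this)

omit h1 h2 in
theorem sw_mem {x : L} (hx : x ∈ T) : sw T z x = z x := by
  unfold sw
  rw [if_pos hx]

theorem sw_z {a : L} (ha : a ∈ T) : sw T z (z a) = a := by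
  by_cases hz : z a ∈ T
  · rw [sw_mem T z hz]
    have h3 : z a = a := by
      rcases (h1 a ha).lt_or_eq with h | h
      · exact absurd (h2 a ha (z a) hz h) (lt_irrefl _)
      · exact h.symm
    rw [h3, h3]
  · have hex : ∃ b, b ∈ T ∧ z b = z a := ⟨a, ha, rfl⟩
    unfold sw
    rw [if_neg hz, dif_pos hex]
    exact z_inj T z h1 h2 hex.choose_spec.1 ha hex.choose_spec.2

omit h1 h2 in
theorem sw_other {x : L} (hx : x ∉ T) (hx2 : ¬ ∃ a, a ∈ T ∧ z a = x) : sw T z x = x := by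
  unfold sw
  rw [if_neg hx, dif_neg hx2]

theorem sw_sw (x : L) : sw T z (sw T z x) = x := by
  by_cases hx : x ∈ T
  · rw [sw_mem T z hx]
    exact sw_z T z h1 h2 hx
  · by_cases hx2 : ∃ a, a ∈ T ∧ z a = x
    · obtain ⟨a, ha, rfl⟩ := hx2
      rw [sw_z T z h1 h2 ha, sw_mem T z ha]
    · rw [sw_other T z hx hx2, sw_other T z hx hx2]

theorem sw_lt {a x : L} (ha : a ∈ T) (hx : x < a) : sw T z x < a := by
  by_cases hxT : x ∈ T
  · rw [sw_mem T z hxT]
    exact h2 x hxT a ha hx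
  · by_cases hx2 : ∃ b, b ∈ T ∧ z b = x
    · obtain ⟨b, hb, rfl⟩ := hx2
      rw [sw_z T z h1 h2 hb]
      exact lt_of_le_of_lt (h1 b hb) hx
    · rw [sw_other T z hxT hx2]
      exact hx

end sw

theorem main (hI : S_inter.{u}) (hU : S_unb.{u}) (hC : S_card.{u}) : S_swap.{u} := by
  classical
  intro L _ _ hL X W w S hW hS hw
  have hal : ℵ₀ ≤ #L := hL.unc.le
  have hone : (1 : Cardinal.{u}) < #L := lt_of_lt_of_le one_lt_aleph0 hal
  have hidx : ∀ x : ↥(⋃ i, W i), ∃ i, (x : X) ∈ W i := fun x => mem_iUnion.1 x.2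
  choose idx hidx2 using hidx
  have hcard : #L = #↥(⋃ i, W i) := by
    apply le_antisymm
    · by_contra hlt
      rw [not_le] at hlt
      obtain ⟨b, hb⟩ := hL.bd (range idx) (lt_of_le_of_lt mk_range_le hlt)
      obtain ⟨a, haS, hba⟩ := (hU L hL S hS).1 b
      have h1 := hw a haS
      apply h1.2
      have h2 := hidx2 ⟨w a, h1.1⟩
      have h3 := hb _ (mem_range_self (f := idx) ⟨w a, h1.1⟩)
      exact hW.mono _ _ (h3.trans hba).le h2
    · refine (mk_iUnion_le_sum_mk).trans ?_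
      refine (sum_le_sum _ (fun _ => #L) (fun i => (hW.small i).le)).trans ?_
      rw [sum_const']
      exact (mul_eq_self hal).le
  obtain ⟨e0⟩ := Cardinal.eq.1 hcard
  have hAcard : ∀ b : L, #↥((({b} : Set L) ∪ {idx (e0 b)}) ∪
      ({y : L | (e0 y : X) ∈ W b} ∪ {y : L | b ∈ S ∧ (e0 y : X) = w b})) < #L := by
    intro b
    have hb1 : #↥(({b} : Set L) ∪ {idx (e0 b)}) < #L := by
      refine lt_of_le_of_lt (mk_union_le _ _) (add_lt_of_lt hal ?_ ?_)
      · rw [mk_singleton]; exact hone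
      · rw [mk_singleton]; exact hone
    have hb2 : #↥{y : L | (e0 y : X) ∈ W b} < #L := by
      refine lt_of_le_of_lt ?_ (hW.small b)
      refine mk_le_of_injective (f := fun y : ↥{y : L | (e0 y : X) ∈ W b} =>
        (⟨(e0 y.1 : X), y.2⟩ : ↥(W b))) ?_
      intro y y' h
      have h3 : (e0 y.1 : X) = (e0 y'.1 : X) :=
        congrArg (fun v : ↥(W b) => (v : X)) h
      exact Subtype.ext (e0.injective (Subtype.ext h3))
    have hb3 : #↥{y : L | b ∈ S ∧ (e0 y : X) = w b} < #L := by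
      refine lt_of_le_of_lt ?_ hone
      rw [mk_le_one_iff_set_subsingleton]
      intro y hy y' hy'
      exact e0.injective (Subtype.ext (hy.2.trans hy'.2.symm))
    exact lt_of_le_of_lt (mk_union_le _ _) (add_lt_of_lt hal hb1
      (lt_of_le_of_lt (mk_union_le _ _) (add_lt_of_lt hal hb2 hb3)))
  have hh : ∀ b : L, ∃ c, ∀ a ∈ ((({b} : Set L) ∪ {idx (e0 b)}) ∪
      ({y : L | (e0 y : X) ∈ W b} ∪ {y : L | b ∈ S ∧ (e0 y : X) = w b})), a < c :=
    fun b => hL.bd _ (hAcard b)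
  choose h hh2 using hh
  have key : ∀ a, Lm a → (∀ b < a, h b < a) → ∀ y, y < a ↔ (e0 y : X) ∈ W a := by
    intro a ha hcl y
    constructor
    · intro hy
      have h3 : idx (e0 y) < h y := hh2 y _ (Or.inl (Or.inr rfl))
      exact hW.mono _ _ (h3.trans (hcl y hy)).le (hidx2 (e0 y))
    · intro hy
      have h3 := hW.cont a ha hy
      simp only [mem_iUnion, mem_Iio] at h3
      obtain ⟨b, hb, hyb⟩ := h3
      exact (hh2 b y (Or.inr (Or.inl hyb))).trans (hcl b hb)
  let T : Set L := {a | a ∈ S ∧ Lm a ∧ ∀ b < a, h b < a}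
  have hT : St T := hI L hL S h hS
  let z : L → L := fun a => if ha : a ∈ S then e0.symm ⟨w a, (hw a ha).1⟩ else a
  have hz : ∀ a ∈ S, (e0 (z a) : X) = w a := by
    intro a ha
    show ((e0 (if ha : a ∈ S then e0.symm ⟨w a, (hw a ha).1⟩ else a)) : X) = w a
    rw [dif_pos ha, Equiv.apply_symm_apply]
  have h1 : ∀ a ∈ T, a ≤ z a := by
    intro a ha
    by_contra hlt
    rw [not_le] at hlt
    have h3 := (key a ha.2.1 ha.2.2 (z a)).1 hlt
    rw [hz a ha.1] at h3
    exact (hw a ha.1).2 h3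
  have h2 : ∀ a ∈ T, ∀ b ∈ T, a < b → z a < b := by
    intro a ha b hb hab
    have h3 : z a < h a := hh2 a (z a) (Or.inr (Or.inr ⟨ha.1, hz a ha.1⟩))
    exact h3.trans (hb.2.2 a hab)
  refine ⟨fun x => (e0 (sw T z x) : X), T, fun a ha => ha.1, ?_, fun x => (e0 (sw T z x)).2, hT, ?_⟩
  · intro x y hxy
    have h3 : sw T z x = sw T z y := e0.injective (Subtype.ext hxy)
    rw [← sw_sw T z h1 h2 x, h3, sw_sw T z h1 h2 y]
  · intro a ha
    refine ⟨?_, ?_⟩
    · apply Subset.antisymm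
      · rintro _ ⟨x, hx, rfl⟩
        exact (key a ha.2.1 ha.2.2 _).1 (sw_lt T z h1 h2 ha hx)
      · intro v hv
        have hvX : v ∈ ⋃ i, W i := mem_iUnion.2 ⟨a, hv⟩
        have hy : (e0 (e0.symm ⟨v, hvX⟩) : X) = v := by rw [Equiv.apply_symm_apply]
        have hya : e0.symm ⟨v, hvX⟩ < a := by
          rw [key a ha.2.1 ha.2.2, hy]
          exact hv
        refine ⟨sw T z (e0.symm ⟨v, hvX⟩), sw_lt T z h1 h2 ha hya, ?_⟩
        show (e0 (sw T z (sw T z (e0.symm ⟨v, hvX⟩))) : X) = v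
        rw [sw_sw T z h1 h2, hy]
    · show (e0 (sw T z a) : X) = w a
      rw [sw_mem T z ha]
      exact hz a ha.1

end Pool.Agent.W910.NS.T_O3
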