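import Pool.Agent.W910.NS.Stmts

/-! From filtered obstructions to obstructions. -/

set_option autoImplicit false

open Cardinal Set

namespace Pool.Agent.W910.NS.T_O4

universe u

theorem main (hS : S_swap.{u}) : S_ob.{u} := by
  intro L _ _ hL V G hOb
  obtain ⟨W, w, S, hFil, hB, hdis, hSt, hCw, hw⟩ := hOb
  obtain ⟨e, S', hsub, hinj, hmem, hSt', heq⟩ := hS L hL (Set V) W w S hFil hSt
    (fun a ha => ⟨(hw a ha).1, (hw a ha).2.1⟩)
  refine ⟨e, S', fun x => hB (e x) (hmem x),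
    fun x y hxy => hdis _ (hmem x) _ (hmem y) (fun h => hxy (hinj h)), hSt',
    fun a ha => hCw a (hsub ha), fun a ha => ?_⟩
  have h := (hw a (hsub ha)).2.2
  intro hfin
  apply h
  refine (hfin.image e).subset ?_
  rintro B ⟨hB1, hB2⟩
  rw [← (heq a ha).1] at hB1
  obtain ⟨x, hx, rfl⟩ := hB1
  exact ⟨x, ⟨hx, by rw [(heq a ha).2]; exact hB2⟩, rfl⟩

end Pool.Agent.W910.NS.T_O4
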