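import Pool.Agent.W910.NS.T_O1
import Pool.Agent.W910.NS.T_O2
import Pool.Agent.W910.NS.T_O3
import Pool.Agent.W910.NS.T_O4
import Pool.Agent.W910.NS.T_O5
import Pool.Agent.W910.NS.T_G1
import Pool.Agent.W910.NS.T_G2
import Pool.Agent.W910.NS.T_G3
import Pool.Agent.W910.NS.T_G4
import Pool.Agent.W910.NS.T_G5
import Pool.Agent.W910.NS.T_G6
import Pool.Agent.W910.NS.T_G7
import Pool.Agent.W910.NS.T_G8
import Pool.Agent.W910.NS.T_G9
import Pool.Agent.W910.NS.T_G10
import Pool.Agent.W910.NS.T_G11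
import Pool.Agent.W910.NS.T_G12
import Pool.Agent.W910.NS.T_G13
import Pool.Agent.W910.NS.T_G14
import Pool.Agent.W910.NS.T_G15
import Pool.Agent.W910.NS.T_M2
import Pool.Agent.W910.NS.T_F1
import Pool.Agent.W910.NS.T_F3

/-! Assembly, part 1. -/

set_option autoImplicit false

open Cardinal Set

namespace Pool.Agent.W910.NS.All1

open Pool.Agent.W910.NS

universe u

theorem swap : S_swap.{u} := T_O3.main T_O1.inter T_O1.unb T_O2.card
theorem ob : S_ob.{u} := T_O4.main swap
theorem red : S_red.{u} := T_O5.main T_O1.inter T_O1.cw1 T_O2.reg swap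
theorem union : S_union.{u} := T_G3.main
theorem ctbl : S_ctbl.{u} := T_G5.main union
theorem tree : S_tree.{u} := T_G4.main T_G1.main T_G2.main union
theorem chain : S_chain.{u} := T_G8.main T_G6.clos T_G6.clop T_G7.main T_O2.card
theorem caseA : S_caseA.{u} := T_G9.main T_O1.unb T_O1.cw T_O2.card
theorem caseB : S_caseB.{u} := T_G10.main T_O1.inter
theorem fac : S_fac.{u} := T_G11.main T_O1.press T_O1.split T_O1.inter caseA caseB
theorem gfReg : S_gfReg.{u} := T_G12.main T_O2.reg chain fac ob T_O1.cw T_O1.inter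
theorem ext : S_ext.{u} := T_G13.ext T_O2.reg chain fac ob T_O1.cw T_O1.inter
theorem gfSeq : S_gfSeq.{u} := T_G13.seq ext
theorem gfSing : S_gfSing.{u} := T_G14.main T_G6.clos T_G6.clop T_O2.reg
theorem main2 : S_main2.{u} := T_M2.main tree ctbl gfReg gfSeq gfSing T_G15.sub1 T_G15.sub2
theorem frp : S_frp.{u} := T_F3.main T_O2.reg T_O2.stat

/-- Fallback: `FRP` gives the characterisation, given the passage to official minors. -/
theorem frpChar (hm : S_minor.{u}) (h : FRP.{u}) : SmallCharacterisation.{u} := by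
  intro V G hG
  by_contra hcon
  rw [not_or] at hcon
  obtain ⟨h1, h2⟩ := hcon
  have hn : ∀ κ : Cardinal.{u}, κ.IsRegular → ℵ₀ < κ → ¬ Ob G (Ltype κ) := by
    intro κ hκ h0 hO
    have hle : ℵ₁ ≤ κ := by
      rw [← Cardinal.succ_aleph0]; exact Order.succ_le_of_lt h0
    rcases hle.eq_or_lt with he | hlt
    · subst he
      exact h2 (hm V G hO)
    · have hR := T_O2.reg κ hκ h0
      refine h2 (hm V G (red (Ltype κ) hR ?_ (frp κ hκ hlt (h κ hκ hlt)) V G hO))
      simpa [Cardinal.mk_ord_toType] using hlt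
  have : Nonempty V := hG.nonempty
  obtain ⟨r⟩ := this
  obtain ⟨le, hle⟩ := main2 V G hG (fun κ a b _ => hn κ a b) r
  exact h1 (T_F1.main V G r le hle)

end Pool.Agent.W910.NS.All1
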