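import Pool.Agent.W910.NS.Stmts2

/-! Statements for the equivalence with the Fodor-type Reflection Principle. -/

set_option autoImplicit false

open Cardinal Set

namespace Pool.Agent.W910.NS

universe u

/-- The characterisation by obstructions of size `ℵ₁` for graphs of size at most `θ`. -/
def SmallUpTo (θ : Cardinal.{u}) : Prop :=
  ∀ (V : Type u) (G : SimpleGraph V), #V ≤ θ → G.Connected →
    HasNormalSpanningTree G ∨ SmallObstruction G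

/-- Coding of countable sets below `a` by ladders of order type `ω`. -/
def S_code2 : Prop := ∀ (L : Type u) [LinearOrder L] [WellFoundedLT L], Reg L →
  ∀ (S : Set L) (N : L → Set L), St S → (∀ a ∈ S, Cw a) →
    (∀ a ∈ S, (∀ x ∈ N a, x < a) ∧ (N a).Countable ∧ (N a).Nonempty) →
    ∃ (S' : Set L) (A : L → Set L) (D : L → Set L), S' ⊆ S ∧ St S' ∧ (∀ x, (D x).Countable) ∧
      (∀ a ∈ S', (∀ x ∈ A a, x < a) ∧ (A a).Infinite ∧ ∀ b ∈ A a, (A a ∩ Iio b).Finite) ∧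
      (∀ a ∈ S', ∀ a' ∈ S', a ≠ a' → (A a ∩ A a').Finite) ∧
      ∀ a ∈ S', ∀ K : Set L, (∀ x ∈ K, D x ⊆ K) → (A a ∩ K).Infinite → N a ⊆ K

/-- An obstruction of size `ℵ₁` in the ladder graph only uses `ℵ₁` indices. -/
def S_tr : Prop := ∀ (L : Type u) [LinearOrder L] (S : Set L) (A : L → Set L),
  SmallObstruction (LG S A) → ∃ I₀ : Set L, #I₀ ≤ ℵ₁ ∧
    ∀ I : Set L, I₀ ⊆ I → ∀ b, (∀ x ∈ I, x < b) →
      SmallObstruction ((LG (S ∩ I) A).induce (LV b))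

/-- If there is no stationary set of bad indices, the ladders are essentially disjoint. -/
def S_disj : Prop := ∀ (L : Type u) [LinearOrder L] [WellFoundedLT L] (S : Set L)
  (A E : L → Set L) (e : Ltype (ℵ₁ : Cardinal.{u}) → L), Function.Injective e →
  (∀ x, (E x).Countable) → (∀ x ∈ Set.range e, E x ⊆ Set.range e) →
  (∀ a ∈ S, a ∈ Set.range e ∧ A a ⊆ Set.range e ∧ (A a).Infinite ∧
    ∀ b ∈ A a, (A a ∩ Iio b).Finite) →
  (∀ a ∈ S, ∀ a' ∈ S, a ≠ a' → (A a ∩ A a').Finite) →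
  ¬ St {i | (∀ x ∈ e '' Iio i, E x ⊆ e '' Iio i) ∧
    ∃ w ∈ S, w ∉ e '' Iio i ∧ (A w ∩ e '' Iio i).Infinite} →
  ∃ f : L → L, (∀ a ∈ S, ∃ x ∈ A a, f a < x) ∧
    ∀ a ∈ S, ∀ a' ∈ S, a ≠ a' → Disjoint (A a \ Iio (f a)) (A a' \ Iio (f a'))

/-- An obstruction of size `ℵ₁` in the ladder graph gives a set of `ℵ₁` indices with a stationary
set of bad initial parts. -/
def S_refl : Prop := ∀ (L : Type u) [LinearOrder L] [WellFoundedLT L], Reg L → ℵ₁ < #L →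
  ∀ (S : Set L) (A E : L → Set L), (∀ x, (E x).Countable) →
    (∀ a ∈ S, (∀ x ∈ A a, x < a) ∧ (A a).Infinite ∧ ∀ b ∈ A a, (A a ∩ Iio b).Finite) →
    (∀ a ∈ S, ∀ a' ∈ S, a ≠ a' → (A a ∩ A a').Finite) →
    SmallObstruction (LG S A) →
    ∃ (e : Ltype (ℵ₁ : Cardinal.{u}) → L) (T : Set (Ltype (ℵ₁ : Cardinal.{u})))
      (w : Ltype (ℵ₁ : Cardinal.{u}) → L), Function.Injective e ∧ St T ∧
      (∀ x ∈ Set.range e, E x ⊆ Set.range e) ∧
      ∀ i ∈ T, (∀ x ∈ e '' Iio i, E x ⊆ e '' Iio i) ∧ w i ∈ S ∧ w i ∈ Set.range e ∧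
        w i ∉ e '' Iio i ∧ (A (w i) ∩ e '' Iio i).Infinite

/-- The set required by the Fodor-type Reflection Principle. -/
def S_back : Prop := ∀ (L : Type u) [LinearOrder L] [WellFoundedLT L], Reg L → ℵ₁ < #L →
  ∀ (S : Set L) (g : L → Set L) (h : L → L) (e : Ltype (ℵ₁ : Cardinal.{u}) → L)
    (T : Set (Ltype (ℵ₁ : Cardinal.{u}))) (w : Ltype (ℵ₁ : Cardinal.{u}) → L),
    Function.Injective e → St T → (∀ a ∈ S, (g a).Countable) →
    (∀ a ∈ S, ∀ x ∈ g a, x < h a) → (∀ a ∈ S, a ∈ Set.range e → g a ⊆ Set.range e) →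
    (∀ i ∈ T, w i ∈ S ∧ w i ∈ Set.range e ∧ w i ∉ e '' Iio i ∧ (∀ x < w i, h x < w i) ∧
      (∀ x ∈ g (w i), x < w i → x ∈ e '' Iio i) ∧
      ∀ b < w i, ∃ x ∈ e '' Iio i, b < x ∧ x < w i) →
    ∃ I : Set L, #I = ℵ₁ ∧ Order.cof I = ℵ₁ ∧ (∀ a ∈ I ∩ S, g a ⊆ I) ∧
      ∃ δ, IsLUB I δ ∧ ∀ f : L → L, (∀ a ∈ S ∩ I, f a < a ∧ f a ∈ g a) →
        ∃ c, IsStationary {x : Iio δ | (x : L) ∈ S ∩ I ∧ f x = c}

/-- The characterisation up to `κ` implies the Fodor-type Reflection Principle at `κ`. -/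
def S_conv2 : Prop := ∀ κ : Cardinal.{u}, κ.IsRegular → ℵ₁ < κ → SmallUpTo κ → FRPAt κ

/-- `ADS⁻(κ)` gives a graph of size `κ` without normal spanning tree and without obstruction of
size `ℵ₁`. -/
def S_conv1 : Prop := ∀ κ : Cardinal.{u}, κ.IsRegular → ℵ₁ < κ → SmallUpTo κ → ¬ ADSm κ

end Pool.Agent.W910.NS
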