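import Pool.Agent.W910.NS.Stmts2

/-! Connected sets outside a down-closed set have finitely many neighbours in it. -/

set_option autoImplicit false

open Cardinal Set

namespace Pool.Agent.W910.NS.T_E1

universe u

open Pool.Agent.W910.NS

theorem gen {V : Type u} {G : SimpleGraph V} {A : Set V} {r : V} {le : V → V → Prop}
    (h : NT G A r le) {U : Set V} (hUA : U ⊆ A) (hU : ∀ x ∈ U, ∀ y, le y x → y ∈ U)
    {C : Set V} (hCA : C ⊆ A) (hC : CS G C) (hd : Disjoint C U) :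
    {v | v ∈ U ∧ ∃ c ∈ C, G.Adj c v}.Finite := by
  obtain ⟨⟨x, hx⟩, hcon⟩ := hC
  refine (h.fin x).subset ?_
  rintro v ⟨hv, c, hc, hcv⟩
  have hnot : ∀ d ∈ C, ¬ le d v := fun d hd' hle => Set.disjoint_left.1 hd hd' (hU v hv d hle)
  have h1 : le v c := by
    rcases h.norm c (hCA hc) v (hUA hv) hcv with h1 | h1
    · exact absurd h1 (hnot c hc)
    · exact h1
  have key : ∀ x, Cn G C x c → le v x := by
    intro x hx
    refine Cn.ind (P := fun z => le v z) h1 ?_ hx
    intro a b ha hb hab _ hvb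
    rcases h.norm a (hCA ha) b (hCA hb) hab with h2 | h2
    · rcases h.chain v a b hvb h2 with h3 | h3
      · exact h3
      · exact absurd h3 (hnot a ha)
    · exact h.tr v b a hvb h2
  exact key x (hcon x hx c hc)

theorem down : S_down.{u} := by
  intro V G r le h U hU C hC hd
  exact gen h (subset_univ U) hU (subset_univ C) hC hd

theorem treeOp : S_treeOp.{u} := by
  intro V G A r le h L T B hB hdis
  have : Nonempty V := ⟨r⟩
  have hdisj : ∀ x ∈ T, ∀ y ∈ T, ∀ b, b ∈ B x → b ∈ B y → x = y := by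
    intro x hx y hy b hbx hby
    by_contra hne
    exact Set.disjoint_left.1 (hdis x hx y hy hne) hbx hby
  refine ⟨fun x => {y | x ∈ T ∧ y ∈ T ∧ ∃ b ∈ B y, ∃ b' ∈ B x, le b b'}, ?_, ?_⟩
  · intro x
    by_cases hx : x ∈ T
    · have hD : (⋃ b' ∈ B x, {b | le b b'}).Countable :=
        (hB x hx).1.biUnion fun b' _ => (h.fin b').countable
      have hch : ∀ y ∈ {y | x ∈ T ∧ y ∈ T ∧ ∃ b ∈ B y, ∃ b' ∈ B x, le b b'},
          ∃ b, b ∈ B y ∧ b ∈ ⋃ b' ∈ B x, {b | le b b'} := by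
        rintro y ⟨-, -, b, hb, b', hb', hle⟩
        exact ⟨b, hb, mem_biUnion hb' hle⟩
      choose! f hf using hch
      refine Set.MapsTo.countable_of_injOn (f := f) (fun y hy => (hf y hy).2) ?_ hD
      intro y hy y' hy' hyy
      refine hdisj y hy.2.1 y' hy'.2.1 (f y) (hf y hy).1 ?_
      rw [hyy]
      exact (hf y' hy').1
    · have : {y | x ∈ T ∧ y ∈ T ∧ ∃ b ∈ B y, ∃ b' ∈ B x, le b b'} = ∅ := by
        ext y
        simp only [Set.mem_ofPred_eq, mem_empty_iff_false, iff_false]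
        exact fun hy => hx hy.1
      simp only [this, countable_empty]
  · intro a ha K hK hcl haK
    have hfin := gen h (U := {v | ∃ x ∈ K, ∃ b ∈ B x, le v b}) (C := B a)
      (by
        rintro v ⟨x, hx, b, hb, hle⟩
        exact (h.dom v b hle).1)
      (by
        rintro v ⟨x, hx, b, hb, hle⟩ y hy
        exact ⟨x, hx, b, hb, h.tr y v b hy hle⟩)
      (hB a ha).2.2 (hB a ha).2.1
      (by
        rw [Set.disjoint_left]
        rintro b hb ⟨x, hx, b', hb', hle⟩
        exact haK (hcl x hx ⟨⟨hK hx, ha, b, hb, b', hb', hle⟩, ha⟩))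
    have hch : ∀ x ∈ {x | x ∈ K ∧ Ed G (B x) (B a)}, ∃ v, v ∈ B x ∧
        v ∈ {v | v ∈ {v | ∃ x ∈ K, ∃ b ∈ B x, le v b} ∧ ∃ c ∈ B a, G.Adj c v} := by
      rintro x ⟨hx, v, hv, c, hc, hvc⟩
      exact ⟨v, hv, ⟨x, hx, v, hv, h.rfl' v ((hB x (hK hx)).2.2 hv)⟩, c, hc, hvc.symm⟩
    choose! f hf using hch
    refine Set.Finite.of_injOn (f := f) (fun y hy => (hf y hy).2) ?_ hfin
    intro y hy y' hy' hyy
    refine hdisj y (hK hy.1) y' (hK hy'.1) (f y) (hf y hy).1 ?_
    rw [hyy]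
    exact (hf y' hy').1

end Pool.Agent.W910.NS.T_E1
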