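import Pool.Agent.W910.NS.Stmts2

/-! NS-E11: the Fodor-type Reflection Principle refutes `ADS⁻`. -/

set_option autoImplicit false

open Cardinal Set

namespace Pool.Agent.W910.NS.T_E11

universe u

theorem countable_of_seg {L : Type u} [LinearOrder L] (B : Set L)
    (h : ∀ b ∈ B, (B ∩ Iio b).Finite) : B.Countable := by
  rw [countable_iff_exists_injOn]
  refine ⟨fun b => (B ∩ Iio b).ncard, ?_⟩
  have key : ∀ x ∈ B, ∀ y ∈ B, x < y → (B ∩ Iio x).ncard < (B ∩ Iio y).ncard := by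
    intro x hx y hy hxy
    apply ncard_lt_ncard _ (h y hy)
    rw [ssubset_iff_of_subset (inter_subset_inter_right _ (Iio_subset_Iio hxy.le))]
    exact ⟨x, ⟨hx, hxy⟩, fun h' => lt_irrefl x h'.2⟩
  intro x hx y hy hxy
  rcases lt_trichotomy x y with h1 | h1 | h1
  · exact absurd hxy (key x hx y hy h1).ne
  · exact h1
  · exact absurd hxy (key y hy x hx h1).ne'

theorem main (_hr : S_reg.{u}) : S_frpAds.{u} := by
  classical
  rintro κ _ _ hF ⟨S, A, hS, hcof, hA, hads⟩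
  obtain ⟨I, hI1, hIcof, -, δ, hδ, hfib⟩ :=
    hF S hS hcof A (fun a ha => countable_of_seg (A a) (hA a ha).2.2)
  have hnt : NoTopOrder I := by
    rw [← Order.cof_ne_one_iff, hIcof]
    exact (lt_trans Cardinal.one_lt_aleph0 Cardinal.aleph0_lt_aleph_one).ne'
  have hnomax : ∀ x ∈ I, ∃ y ∈ I, x < y := by
    intro x hx
    obtain ⟨y, hy⟩ := hnt.exists_not_le (⟨x, hx⟩ : I)
    exact ⟨y.1, y.2, lt_of_not_ge hy⟩
  have hId : ∀ x ∈ I, x < δ := by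
    intro x hx
    obtain ⟨y, hy, hxy⟩ := hnomax x hx
    exact hxy.trans_le (hδ.1 hy)
  have hIc : ∀ t, t < δ → ∃ x ∈ I, t < x := by
    intro t ht
    obtain ⟨x, hx, htx⟩ := (lt_isLUB_iff hδ).1 ht
    exact ⟨x, hx, htx⟩
  obtain ⟨f0, hf1, hf2⟩ := hads δ
  let h : κ.ord.ToType → κ.ord.ToType := fun a =>
    if ha : a ∈ S ∧ a < δ then (hf1 a ha.1 ha.2).choose else a
  have hh : ∀ a ∈ S, a < δ → h a ∈ A a ∧ f0 a < h a := by
    intro a haS had
    have e : h a = (hf1 a haS had).choose := dif_pos ⟨haS, had⟩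
    rw [e]
    exact (hf1 a haS had).choose_spec
  obtain ⟨c, hc⟩ := hfib h (fun a ha => by
    have h1 := hh a ha.1 (hId a ha.2)
    exact ⟨(hA a ha.1).1 _ h1.1, h1.1⟩)
  have hclub : ∀ b : Iio δ, IsClub (Ici b) := by
    intro b
    refine ⟨?_, ?_⟩
    · intro d hd hdn _ a ha
      obtain ⟨x, hx⟩ := hdn
      exact (show b ≤ x from hd hx).trans (ha.1 hx)
    · intro x
      exact ⟨max x b, mem_Ici.2 (le_max_right _ _), le_max_left _ _⟩
  have hne : I.Nonempty := by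
    rw [nonempty_iff_ne_empty]
    rintro rfl
    rw [Cardinal.mk_emptyCollection] at hI1
    exact (Cardinal.aleph_pos 1).ne hI1
  obtain ⟨b0, hb0⟩ := hne
  obtain ⟨x0, hx0, -⟩ := hc (hclub ⟨b0, hId b0 hb0⟩)
  obtain ⟨b1, hb1, hlt⟩ := hIc x0.1 x0.2
  obtain ⟨x1, hx1, hx1b⟩ := hc (hclub ⟨b1, hId b1 hb1⟩)
  have hlt2 : x0.1 < x1.1 := lt_of_lt_of_le hlt (show b1 ≤ x1.1 from hx1b)
  have m0 := hh x0.1 hx0.1.1 x0.2
  have m1 := hh x1.1 hx1.1.1 x1.2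
  have hd := hf2 x0.1 hx0.1.1 x0.2 x1.1 hx1.1.1 x1.2 hlt2.ne
  rw [hx0.2] at m0
  rw [hx1.2] at m1
  exact disjoint_left.1 hd ⟨m0.1, fun h' => lt_asymm m0.2 h'⟩ ⟨m1.1, fun h' => lt_asymm m1.2 h'⟩

end Pool.Agent.W910.NS.T_E11
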