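import Pool.Agent.W910.NS.Stmts2

set_option autoImplicit false

/-! From a normal spanning tree to its order. -/

open Cardinal Set

namespace Pool.Agent.W910.NS.T_E2

universe u

open Pool.Agent.W910.NS

variable {V : Type u} {T : SimpleGraph V} {r : V}

/-- one path is enough -/
theorem le_of_path (hT : T.IsTree) {x y : V} (p : T.Walk r y) (hp : p.IsPath)
    (hx : x ∈ p.support) : TreeLe T r x y := by
  intro q hq
  obtain ⟨p0, _, hu⟩ := hT.existsUnique_path r y
  have h1 := hu p hp
  have h2 := hu q hq
  rw [h2, ← h1]
  exact hx

theorem exists_path (hT : T.IsTree) (y : V) : ∃ p : T.Walk r y, p.IsPath := by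
  obtain ⟨p0, h, _⟩ := hT.existsUnique_path r y
  exact ⟨p0, h⟩

theorem main : S_toNT := by
  classical
  intro V G hG
  obtain ⟨T, r, hTG, hT, hn⟩ := hG
  refine ⟨r, TreeLe T r, ?_⟩
  refine ⟨fun x y _ => ⟨mem_univ _, mem_univ _⟩, ?_, ?_, ?_, mem_univ _, ?_, ?_, ?_, ?_, ?_⟩
  · intro x _ p _
    exact p.end_mem_support
  · intro x y z hxy hyz p hp
    have hy := hyz p hp
    have hx := hxy (p.takeUntil y hy) (hp.takeUntil hy)
    exact p.support_takeUntil_subset_support hy hx
  · intro x y hxy hyx
    by_contra hne
    obtain ⟨p, hp⟩ := exists_path (r := r) hT y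
    have hx := hxy p hp
    have hy := hyx (p.takeUntil x hx) (hp.takeUntil hx)
    exact SimpleGraph.Walk.endpoint_notMem_support_takeUntil hp hx (fun h => hne h.symm) hy
  · intro x _ p _
    exact p.start_mem_support
  · intro x
    obtain ⟨p, hp⟩ := exists_path (r := r) hT x
    exact (p.support.finite_toSet).subset (fun y hy => hy p hp)
  · intro x y z hxz hyz
    obtain ⟨p, hp⟩ := exists_path (r := r) hT z
    have hx := hxz p hp
    have hy := hyz p hp
    have hsp := p.take_spec hy
    rw [← hsp, SimpleGraph.Walk.mem_support_append_iff] at hx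
    rcases hx with hx | hx
    · left
      exact le_of_path hT _ (hp.takeUntil hy) hx
    · right
      have hsp2 := (p.dropUntil y hy).take_spec hx
      have hp2 : ((p.takeUntil y hy).append ((p.dropUntil y hy).takeUntil x hx)).IsPath := by
        have h3 : p = ((p.takeUntil y hy).append ((p.dropUntil y hy).takeUntil x hx)).append
            ((p.dropUntil y hy).dropUntil x hx) := by
          rw [← SimpleGraph.Walk.append_assoc, hsp2, hsp]
        rw [h3] at hp
        exact hp.of_append_left
      apply le_of_path hT _ hp2
      rw [SimpleGraph.Walk.mem_support_append_iff]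
      left
      exact SimpleGraph.Walk.end_mem_support _
  · intro x _ hxr
    obtain ⟨p, hp⟩ := exists_path (r := r) hT x
    have hpr := hp.reverse
    cases hq : p.reverse with
    | nil => exact absurd rfl hxr
    | @cons _ y _ h q =>
      rw [hq, SimpleGraph.Walk.cons_isPath_iff] at hpr
      have hsup : ∀ z, z ∈ p.support ↔ z = x ∨ z ∈ q.support := by
        intro z
        have : z ∈ p.support ↔ z ∈ p.reverse.support := by
          rw [SimpleGraph.Walk.support_reverse, List.mem_reverse]
        rw [this, hq, SimpleGraph.Walk.support_cons, List.mem_cons]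
      refine ⟨y, ?_, h.ne', hTG h.symm, ?_⟩
      · apply le_of_path hT p hp
        rw [hsup]
        right
        exact q.start_mem_support
      · intro z hz hzx
        have hz1 := (hsup z).mp (hz p hp)
        rcases hz1 with hz1 | hz1
        · exact absurd hz1 hzx
        · apply le_of_path hT q.reverse hpr.1.reverse
          rw [SimpleGraph.Walk.support_reverse, List.mem_reverse]
          exact hz1
  · intro x _ y _ hxy
    exact hn x y hxy

end Pool.Agent.W910.NS.T_E2
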