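import Pool.Agent.W910.NS.Stmts2

set_option autoImplicit false

/-! A graph with a normal spanning tree has no obstruction of size `ℵ₁`. -/

open Cardinal Set

namespace Pool.Agent.W910.NS.T_E3

universe u

open Pool.Agent.W910.NS

section

variable {V : Type u} {G : SimpleGraph V}

theorem cn_of_walk {B : Set V} {x y : B} (p : (G.induce B).Walk x y) : Cn G B x y := by
  induction p with
  | @nil u => exact Cn.refl u.2
  | @cons u v w h _ ih => exact (Cn.adj u.2 v.2 h).trans ih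

theorem cs_of_induce {B : Set V} (h : (G.induce B).Connected) : CS G B := by
  obtain ⟨⟨x0, hx0⟩⟩ := h.nonempty
  refine ⟨⟨x0, hx0⟩, ?_⟩
  intro x hx y hy
  obtain ⟨p⟩ := h.preconnected ⟨x, hx⟩ ⟨y, hy⟩
  exact cn_of_walk p

/-- the down closure -/
def dn (le : V → V → Prop) (X : Set V) : Set V := {y | ∃ x ∈ X, le y x}

theorem dn_countable {r : V} {le : V → V → Prop} (h : NT G Set.univ r le) {X : Set V}
    (hX : X.Countable) : (dn le X).Countable := by
  have : dn le X = ⋃ x ∈ X, {y | le y x} := by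
    ext y
    simp [dn]
  rw [this]
  exact hX.biUnion (fun x _ => (h.fin x).countable)

theorem sub_dn {r : V} {le : V → V → Prop} (h : NT G Set.univ r le) {X : Set V} : X ⊆ dn le X :=
  fun x hx => ⟨x, hx, h.rfl' x (mem_univ _)⟩

theorem dn_down {r : V} {le : V → V → Prop} (h : NT G Set.univ r le) {X : Set V} :
    ∀ x ∈ dn le X, ∀ y, le y x → y ∈ dn le X := by
  rintro x ⟨w, hw, hxw⟩ y hy
  exact ⟨w, hw, h.tr _ _ _ hy hxw⟩

/-- countably many members of a disjoint family meet a countable set -/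
theorem meet_countable {W : Type u} {B : W → Set V} (hd : ∀ x y, x ≠ y → Disjoint (B x) (B y))
    {U : Set V} (hU : U.Countable) : {x | ¬ Disjoint (B x) U}.Countable := by
  classical
  have h1 : ∀ x ∈ {x | ¬ Disjoint (B x) U}, ∃ v, v ∈ B x ∧ v ∈ U := by
    intro x hx
    exact Set.not_disjoint_iff.mp hx
  rcases isEmpty_or_nonempty V with hV | hV
  · have : {x | ¬ Disjoint (B x) U} = ∅ := by
      apply Set.eq_empty_of_forall_notMem
      intro x hx
      obtain ⟨v, _⟩ := h1 x hx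
      exact hV.false v
    rw [this]
    exact Set.countable_empty
  choose! v hv using h1
  apply Set.MapsTo.countable_of_injOn (f := v) (t := U) (fun x hx => (hv x hx).2) _ hU
  intro x hx y hy hxy
  by_contra hne
  exact Set.disjoint_left.mp (hd x y hne) (hv x hx).1 (by rw [hxy]; exact (hv y hy).1)

/-- finitely many members of a disjoint family are adjacent -/
theorem fin_adj {W : Type u} {B : W → Set V} (hd : ∀ x y, x ≠ y → Disjoint (B x) (B y))
    {U C : Set V} (hf : {v | v ∈ U ∧ ∃ c ∈ C, G.Adj c v}.Finite) {I : Set W}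
    (hI : ∀ x ∈ I, B x ⊆ U ∧ ∃ c ∈ C, ∃ v ∈ B x, G.Adj c v) : I.Finite := by
  classical
  have h1 : ∀ x ∈ I, ∃ v, v ∈ B x ∧ v ∈ U ∧ ∃ c ∈ C, G.Adj c v := by
    intro x hx
    obtain ⟨hU, c, hc, v, hv, hcv⟩ := hI x hx
    exact ⟨v, hv, hU hv, c, hc, hcv⟩
  rcases isEmpty_or_nonempty V with hV | hV
  · have : I = ∅ := by
      apply Set.eq_empty_of_forall_notMem
      intro x hx
      obtain ⟨v, _⟩ := h1 x hx
      exact hV.false v
    rw [this]
    exact Set.finite_empty
  choose! v hv using h1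
  apply Set.Finite.of_injOn (f := v) (t := {v | v ∈ U ∧ ∃ c ∈ C, G.Adj c v})
    (fun x hx => (hv x hx).2) _ hf
  intro x hx y hy hxy
  by_contra hne
  exact Set.disjoint_left.mp (hd x y hne) (hv x hx).1 (by rw [hxy]; exact (hv y hy).1)

end

theorem main (hdn : S_down.{u}) (hst : S_stat.{u}) (hr : S_reg.{u}) : S_noObs.{u} := by
  classical
  intro V G r le hNT hobs
  rcases hobs with ⟨W, H, ⟨A, B', hAB, hun, hA, hB, hbip, hinf⟩, Br, hBr, hdis, hadj⟩ | ⟨H, ⟨S, hS, hSH⟩, Br, hBr, hdis, hadj⟩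
  · -- first kind
    have hAc : A.Countable := by
      rw [← Cardinal.le_aleph0_iff_set_countable, hA]
    have hXc : (⋃ a ∈ A, Br a).Countable := hAc.biUnion (fun a _ => (hBr a).1)
    have hUc := dn_countable hNT hXc
    have hmeet := meet_countable hdis hUc
    have hex : ∃ b ∈ B', Disjoint (Br b) (dn le (⋃ a ∈ A, Br a)) := by
      by_contra hcon
      push Not at hcon
      have hsub : B' ⊆ {x | ¬ Disjoint (Br x) (dn le (⋃ a ∈ A, Br a))} := fun b hb => hcon b hb
      have := hmeet.mono hsub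
      rw [← Cardinal.le_aleph0_iff_set_countable, hB] at this
      exact absurd this (not_le.mpr Cardinal.aleph0_lt_aleph_one)
    obtain ⟨b, hb, hbd⟩ := hex
    have hfin := hdn V G r le hNT _ (dn_down hNT (X := ⋃ a ∈ A, Br a)) (Br b) (cs_of_induce (hBr b).2) hbd
    apply hinf b hb
    apply fin_adj hdis hfin
    intro x hx
    have hx' : H.Adj b x := hx
    have hxA : x ∈ A := by
      rcases hbip b x hx' with h | h
      · exact absurd hb (Set.disjoint_left.mp hAB h.1)
      · exact h.2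
    refine ⟨?_, ?_⟩
    · exact (Set.subset_biUnion_of_mem (u := Br) hxA).trans (sub_dn hNT)
    · obtain ⟨c, hc, v, hv, hcv⟩ := hadj b x hx'
      exact ⟨c, hc, v, hv, hcv⟩
  · -- second kind
    have hreg := hr (ℵ₁ : Cardinal.{u}) Cardinal.isRegular_aleph_one Cardinal.aleph0_lt_aleph_one
    have hcard : #(ℵ₁ : Cardinal.{u}).ord.ToType = ℵ₁ := Cardinal.mk_ord_toType _
    have hSt := (hst _ hreg S).mp hS
    have hcl : ∀ s : Set (ℵ₁ : Cardinal.{u}).ord.ToType, s.Countable →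
        #s < #(ℵ₁ : Cardinal.{u}).ord.ToType := by
      intro s hs
      rw [hcard]
      have h1 := Cardinal.le_aleph0_iff_set_countable.mpr hs
      exact h1.trans_lt Cardinal.aleph0_lt_aleph_one
    have hIio :  ∀ b : (ℵ₁ : Cardinal.{u}).ord.ToType, (Iio b).Countable := by
      intro b
      have := hreg.seg b
      rw [hcard] at this
      rw [← Cardinal.le_aleph0_iff_set_countable]
      exact Order.lt_succ_iff.mp (this.trans_eq Cardinal.succ_aleph0.symm)
    have hUc :  ∀ b : (ℵ₁ : Cardinal.{u}).ord.ToType, (dn le (⋃ x ∈ Iio b, Br x)).Countable := fun b =>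
      dn_countable hNT ((hIio b).biUnion (fun a _ => (hBr a).1))
    have hg :  ∀ b : (ℵ₁ : Cardinal.{u}).ord.ToType, ∃ g : (ℵ₁ : Cardinal.{u}).ord.ToType, ∀ x, ¬ Disjoint (Br x) (dn le (⋃ x ∈ Iio b, Br x)) → x < g := by
      intro b
      obtain ⟨g, hg⟩ := hreg.bd _ (hcl _ (meet_countable hdis (hUc b)))
      exact ⟨g, fun x hx => hg x hx⟩
    choose g hg using hg
    obtain ⟨s, hs, hLm, hcl2⟩ := hSt g
    have hdisj : Disjoint (Br s) (dn le (⋃ x ∈ Iio s, Br x)) := by
      rw [Set.disjoint_left]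
      intro v hv hvU
      obtain ⟨w, hw, hvw⟩ := hvU
      rw [Set.mem_iUnion₂] at hw
      obtain ⟨x, hx, hwx⟩ := hw
      obtain ⟨b, hxb, hbs⟩ := hLm.2 x hx
      have h1 : ¬ Disjoint (Br s) (dn le (⋃ x ∈ Iio b, Br x)) := by
        rw [Set.not_disjoint_iff]
        exact ⟨v, hv, w, Set.mem_iUnion₂.mpr ⟨x, hxb, hwx⟩, hvw⟩
      exact absurd ((hg b s h1).trans (hcl2 b hbs)) (lt_irrefl _)
    have hfin := hdn V G r le hNT _ (dn_down hNT (X := ⋃ x ∈ Iio s, Br x)) (Br s)
      (cs_of_induce (hBr s).2) hdisj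
    have hI : {x | x < s ∧ H.Adj s x}.Finite := by
      apply fin_adj hdis hfin
      rintro x ⟨hx, hsx⟩
      refine ⟨?_, ?_⟩
      · exact (Set.subset_biUnion_of_mem (u := Br) (show x ∈ Iio s from hx)).trans (sub_dn hNT)
      · obtain ⟨c, hc, v, hv, hcv⟩ := hadj s x hsx
        exact ⟨c, hc, v, hv, hcv⟩
    obtain ⟨a, ha⟩ := hLm.1
    obtain ⟨x0, hx0, hx0s, hx0a⟩ := (hSH s hs).2 a ha
    obtain ⟨m, hm, hmax⟩ := hI.exists_maximal ⟨x0, hx0s, hx0a⟩
    obtain ⟨b, hmb, hbs⟩ := hLm.2 m hm.1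
    obtain ⟨x1, hx1, hx1s, hx1a⟩ := (hSH s hs).2 b hbs
    have h2 : x1 ≤ m := hmax ⟨hx1s, hx1a⟩ (hmb.le.trans hx1)
    exact absurd (hmb.trans_le (hx1.trans h2)) (lt_irrefl _)

end Pool.Agent.W910.NS.T_E3
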