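import Pool.Agent.W910.NS.Stmts2

/-! The graph of a ladder system: it is connected, and it has no normal spanning tree if the
index set is stationary. -/

set_option autoImplicit false

open Cardinal Set

namespace Pool.Agent.W910.NS.T_E4

universe u

section adj

variable {L : Type u} [LinearOrder L] {S : Set L} {A : L → Set L}

theorem insert_cl (x : L) (s : Finset L) :
    (letI := Classical.decEq L; insert x s : Finset L) = insert x s := by
  ext y
  simp

theorem adj_ins {s : Finset L} {x : L} (h : ∀ y ∈ s, y < x) :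
    (LG S A).Adj (Sum.inl s) (Sum.inl (insert x s)) := by
  rw [LG, SimpleGraph.fromRel_adj]
  refine ⟨?_, Or.inl (Or.inl ⟨s, x, h, rfl, ?_⟩)⟩
  · intro he
    have he' := Sum.inl.inj he
    have hx : x ∈ s := by
      rw [he']
      exact Finset.mem_insert_self x s
    exact lt_irrefl x (h x hx)
  · rw [insert_cl]

theorem adj_top {s : Finset L} {a : L} (ha : a ∈ S) (h : Ini (A a) s) :
    (LG S A).Adj (Sum.inl s) (Sum.inr a) := by
  rw [LG, SimpleGraph.fromRel_adj]
  exact ⟨by simp, Or.inl (Or.inr (Or.inl ⟨s, a, ha, h, rfl, rfl⟩))⟩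

theorem adj_root {a : L} (ha : a ∉ S) : (LG S A).Adj (Sum.inl ∅) (Sum.inr a) := by
  rw [LG, SimpleGraph.fromRel_adj]
  exact ⟨by simp, Or.inl (Or.inr (Or.inr ⟨a, ha, rfl, rfl⟩))⟩

theorem ini_empty (B : Set L) : Ini B ∅ := by
  refine ⟨by simp, ?_⟩
  intro x _ y hy
  simp at hy

theorem adj_root' (a : L) : (LG S A).Adj (Sum.inl ∅) (Sum.inr a) := by
  by_cases ha : a ∈ S
  · exact adj_top ha (ini_empty _)
  · exact adj_root ha

theorem reach_inl (s : Finset L) : (LG S A).Reachable (Sum.inl ∅) (Sum.inl s) := by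
  induction s using Finset.induction_on_max with
  | empty => exact SimpleGraph.Reachable.refl _
  | insert a s h ih => exact ih.trans (adj_ins h).reachable

theorem reach (p : Finset L ⊕ L) : (LG S A).Reachable (Sum.inl ∅) p := by
  rcases p with s | a
  · exact reach_inl s
  · exact (adj_root' a).reachable

end adj

theorem conn : S_lgConn.{u} := by
  intro L _ S A
  have : Nonempty (Finset L ⊕ L) := ⟨Sum.inl ∅⟩
  exact ⟨fun p q => (reach p).symm.trans (reach q)⟩

section lv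

variable {L : Type u} [LinearOrder L]

theorem LV_mono {b c : L} (h : b ≤ c) : LV b ⊆ LV c := by
  rintro p (⟨s, hs, rfl⟩ | ⟨a, ha, rfl⟩)
  · exact Or.inl ⟨s, fun x hx => lt_of_lt_of_le (hs x hx) h, rfl⟩
  · exact Or.inr ⟨a, lt_of_lt_of_le ha h, rfl⟩

theorem LV_lim {d : L} (hd : Lm d) {p : Finset L ⊕ L} (hp : p ∈ LV d) : ∃ b, b < d ∧ p ∈ LV b := by
  rcases hp with ⟨s, hs, rfl⟩ | ⟨a, ha, rfl⟩
  · rcases s.eq_empty_or_nonempty with rfl | hne
    · obtain ⟨a, ha⟩ := hd.1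
      exact ⟨a, ha, Or.inl ⟨∅, by simp, rfl⟩⟩
    · obtain ⟨b, hb1, hb2⟩ := hd.2 (s.max' hne) (hs _ (s.max'_mem hne))
      exact ⟨b, hb2, Or.inl ⟨s, fun x hx => lt_of_le_of_lt (s.le_max' x hx) hb1, rfl⟩⟩
  · obtain ⟨b, hb1, hb2⟩ := hd.2 a ha
    exact ⟨b, hb2, Or.inr ⟨a, hb1, rfl⟩⟩

theorem inr_notMem (d : L) : (Sum.inr d : Finset L ⊕ L) ∉ LV d := by
  rintro (⟨s, _, h⟩ | ⟨a, ha, h⟩)
  · cases h
  · cases h
    exact lt_irrefl _ ha

theorem mk_fin_lt (hL : Reg L) (b : L) : #(Finset (Iio b)) < #L := by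
  rcases finite_or_infinite (Iio b) with h | h
  · exact lt_trans (Cardinal.lt_aleph0_of_finite _) hL.unc
  · rw [Cardinal.mk_finset_of_infinite]
    exact hL.seg b

theorem mk_LV (hL : Reg L) (b : L) : #(LV b) < #L := by
  classical
  have h1 : LV b ⊆ Set.range (fun s : Finset (Iio b) =>
      (Sum.inl (s.map (Function.Embedding.subtype _)) : Finset L ⊕ L)) ∪
      Sum.inr '' (Iio b) := by
    rintro p (⟨s, hs, rfl⟩ | ⟨a, ha, rfl⟩)
    · left
      refine ⟨s.subtype (fun x => x ∈ Iio b), ?_⟩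
      simp only
      congr 1
      ext x
      simp only [Finset.mem_map, Finset.mem_subtype, Function.Embedding.subtype_apply,
        Subtype.exists, exists_and_left, exists_prop, exists_eq_right_right, mem_Iio]
      constructor
      · rintro ⟨h, _⟩
        exact h
      · intro h
        exact ⟨h, hs x h⟩
    · right
      exact ⟨a, ha, rfl⟩
  have h2 : #(Set.range (fun s : Finset (Iio b) =>
      (Sum.inl (s.map (Function.Embedding.subtype _)) : Finset L ⊕ L))) < #L :=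
    lt_of_le_of_lt Cardinal.mk_range_le (mk_fin_lt hL b)
  have h3 : #((Sum.inr : L → Finset L ⊕ L) '' (Iio b)) < #L :=
    lt_of_le_of_lt Cardinal.mk_image_le (hL.seg b)
  refine lt_of_le_of_lt (Cardinal.mk_le_mk_of_subset h1) ?_
  refine lt_of_le_of_lt (Cardinal.mk_union_le _ _) ?_
  exact Cardinal.add_lt_of_lt hL.unc.le h2 h3

theorem LV_cov (hL : Reg L) (p : Finset L ⊕ L) : ∃ b, p ∈ LV b := by
  rcases p with s | a
  · have h : #((s : Set L)) < #L :=
      lt_trans (Cardinal.lt_aleph0_of_finite _) hL.unc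
    obtain ⟨b, hb⟩ := hL.bd _ h
    exact ⟨b, Or.inl ⟨s, fun x hx => hb x hx, rfl⟩⟩
  · have h : #(({a} : Set L)) < #L :=
      lt_trans (Cardinal.lt_aleph0_of_finite _) hL.unc
    obtain ⟨b, hb⟩ := hL.bd _ h
    exact ⟨b, Or.inr ⟨a, hb a rfl, rfl⟩⟩

end lv

theorem no (hd : S_down.{u}) (hk : S_card.{u}) : S_lgNo.{u} := by
  classical
  intro L _ _ hL S A hS hA ⟨r, le, hNT⟩
  choose h hh using LV_cov hL
  -- bounding function
  have hg : ∀ b : L, ∃ c : L, ∀ x ∈ LV b, ∀ y, le y x → y ∈ LV c := by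
    intro b
    have h1 : #(⋃ x : LV b, {y | le y (x : Finset L ⊕ L)} : Set (Finset L ⊕ L)) < #L := by
      refine (hk L hL).2 (Finset L ⊕ L) (LV b) (fun x => {y | le y (x : Finset L ⊕ L)})
        (mk_LV hL b) ?_
      intro x
      exact lt_trans (Cardinal.lt_aleph0_iff_set_finite.2 (hNT.fin x)) hL.unc
    have h2 : #(h '' (⋃ x : LV b, {y | le y (x : Finset L ⊕ L)})) < #L :=
      lt_of_le_of_lt Cardinal.mk_image_le h1
    obtain ⟨c, hc⟩ := hL.bd _ h2
    refine ⟨c, fun x hx y hy => ?_⟩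
    have h3 : h y < c := hc _ ⟨y, mem_iUnion.2 ⟨⟨x, hx⟩, hy⟩, rfl⟩
    exact LV_mono h3.le (hh y)
  choose g hg using hg
  obtain ⟨d, hdS, hdL, hdg⟩ := hS g
  have hcl : ∀ x ∈ (LV d : Set (Finset L ⊕ L)), ∀ y, le y x → y ∈ (LV d : Set (Finset L ⊕ L)) := by
    intro x hx y hy
    obtain ⟨b, hb, hxb⟩ := LV_lim hdL hx
    exact LV_mono (hdg b hb).le (hg b x hxb y hy)
  have hfin := hd (Finset L ⊕ L) (LG S A) r le hNT (LV d) hcl {Sum.inr d}
    ⟨⟨_, rfl⟩, by
      intro x hx y hy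
      rw [mem_singleton_iff] at hx hy
      subst hx
      subst hy
      exact Cn.refl rfl⟩
    (by
      rw [Set.disjoint_singleton_left]
      exact inr_notMem d)
  obtain ⟨hlt, hinf, hloc⟩ := hA d hdS
  -- initial segments
  let seg : L → Finset L := fun x => if hx : x ∈ A d then (hloc x hx).toFinset else ∅
  have hseg : ∀ x ∈ A d, ∀ y, y ∈ seg x ↔ y ∈ A d ∧ y < x := by
    intro x hx y
    simp only [seg, dif_pos hx, Set.Finite.mem_toFinset, mem_inter_iff, mem_Iio]
  have hmaps : Set.MapsTo (fun x => (Sum.inl (seg x) : Finset L ⊕ L)) (A d)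
      {v | v ∈ (LV d : Set (Finset L ⊕ L)) ∧ ∃ c ∈ ({Sum.inr d} : Set (Finset L ⊕ L)),
        (LG S A).Adj c v} := by
    intro x hx
    refine ⟨Or.inl ⟨seg x, fun y hy => hlt y ((hseg x hx y).1 hy).1, rfl⟩, Sum.inr d, rfl, ?_⟩
    refine (adj_top hdS ⟨?_, ?_⟩).symm
    · intro y hy
      exact ((hseg x hx y).1 hy).1
    · intro z hz y hy hzy
      exact (hseg x hx z).2 ⟨hz, lt_of_le_of_lt hzy ((hseg x hx y).1 hy).2⟩
  have hinj : Set.InjOn (fun x => (Sum.inl (seg x) : Finset L ⊕ L)) (A d) := by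
    intro x hx y hy hxy
    have he : seg x = seg y := Sum.inl.inj hxy
    rcases lt_trichotomy x y with h1 | h1 | h1
    · have h2 : x ∈ seg y := (hseg y hy x).2 ⟨hx, h1⟩
      rw [← he] at h2
      exact absurd ((hseg x hx x).1 h2).2 (lt_irrefl x)
    · exact h1
    · have h2 : y ∈ seg x := (hseg x hx y).2 ⟨hy, h1⟩
      rw [he] at h2
      exact absurd ((hseg y hy y).1 h2).2 (lt_irrefl y)
  exact (Set.infinite_of_injOn_mapsTo hinj hmaps hinf) hfin

end Pool.Agent.W910.NS.T_E4
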