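import Pool.Agent.W910.NS.Stmts2

/-! A normal spanning tree of the ladder graph below `b`. -/

set_option autoImplicit false

open Cardinal Set

namespace Pool.Agent.W910.NS.T_E5

universe u

section aux

variable {L : Type u} [LinearOrder L]

theorem ini_refl (s : Finset L) : Ini (s : Set L) s := ⟨Subset.rfl, fun _ hx _ _ _ => hx⟩

theorem ini_trans {A : Set L} {s t : Finset L} (h : Ini (t : Set L) s) (h' : Ini A t) :
    Ini A s :=
  ⟨h.1.trans h'.1, fun x hx y hy hxy => h.2 x (h'.2 x hx y (h.1 hy) hxy) y hy hxy⟩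

theorem ini_comp {A : Set L} {s t : Finset L} (h : Ini A s) (h' : Ini A t) :
    Ini (t : Set L) s ∨ Ini (s : Set L) t := by
  by_cases hst : (s : Set L) ⊆ t
  · exact Or.inl ⟨hst, fun x hx y hy hxy => h.2 x (h'.1 hx) y hy hxy⟩
  · right
    obtain ⟨x, hx, hxt⟩ := Set.not_subset.1 hst
    have hlt : ∀ y ∈ t, y < x := fun y hy => by
      by_contra hc
      exact hxt (h'.2 x (h.1 hx) y hy (not_lt.1 hc))
    exact ⟨fun y hy => h.2 y (h'.1 hy) x hx (hlt y hy).le,
      fun y hy z hz hyz => h'.2 y (h.1 hy) z hz hyz⟩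

theorem ini_antisymm {s t : Finset L} (h : Ini (t : Set L) s) (h' : Ini (s : Set L) t) :
    s = t := Finset.Subset.antisymm (Finset.coe_subset.1 h.1) (Finset.coe_subset.1 h'.1)

theorem ini_ins {s t r : Finset L} {x : L} (hs : ∀ y ∈ s, y < x)
    (ht : ∀ y, y ∈ t ↔ y = x ∨ y ∈ s) (h : Ini (t : Set L) r) :
    r = t ∨ Ini (s : Set L) r := by
  by_cases hx : x ∈ r
  · left
    ext y
    refine ⟨fun hy => h.1 hy, fun hy => ?_⟩
    rcases (ht y).1 hy with h1 | h1
    · exact h1 ▸ hx
    · exact h.2 y hy x hx (hs y h1).le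
  · right
    refine ⟨fun y hy => ?_, fun y hy z hz hyz => h.2 y ((ht y).2 (Or.inr hy)) z hz hyz⟩
    rcases (ht y).1 (h.1 hy) with h1 | h1
    · exact absurd (h1 ▸ hy) hx
    · exact h1

theorem ini_ins' {s t : Finset L} {x : L} (hs : ∀ y ∈ s, y < x)
    (ht : ∀ y, y ∈ t ↔ y = x ∨ y ∈ s) : Ini (t : Set L) s := by
  refine ⟨fun y hy => (ht y).2 (Or.inr hy), fun y hy z hz hyz => ?_⟩
  rcases (ht y).1 hy with h1 | h1
  · exact absurd (hs z hz) (not_lt.2 (h1 ▸ hyz))
  · exact h1

theorem data [WellFoundedLT L] (S : Set L) (A : L → Set L) (b : L) (f : L → L)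
    (hA : ∀ a ∈ S, (∀ x ∈ A a, x < a) ∧ (A a).Infinite ∧ ∀ b ∈ A a, (A a ∩ Iio b).Finite)
    (hf : ∀ a ∈ S, a < b → ∃ x ∈ A a, f a < x) :
    ∃ (t bb : L → Finset L) (m : L → L), (∀ a, ¬ (a ∈ S ∧ a < b) → t a = ∅) ∧
      ∀ a, a ∈ S ∧ a < b → Ini (A a) (t a) ∧ Ini (A a) (bb a) ∧ (∀ y ∈ t a, y < m a) ∧
        (∀ y, y ∈ bb a ↔ y = m a ∨ y ∈ t a) ∧ m a ∈ A a \ Iio (f a) := by
  have key : ∀ a, ∃ (t bb : Finset L) (m : L), (¬ (a ∈ S ∧ a < b) → t = ∅) ∧
      (a ∈ S ∧ a < b → Ini (A a) t ∧ Ini (A a) bb ∧ (∀ y ∈ t, y < m) ∧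
        (∀ y, y ∈ bb ↔ y = m ∨ y ∈ t) ∧ m ∈ A a \ Iio (f a)) := by
    intro a
    by_cases hD : a ∈ S ∧ a < b
    · obtain ⟨x, hx, hfx⟩ := hf a hD.1 hD.2
      have hfin : (A a ∩ Iio (f a)).Finite :=
        ((hA a hD.1).2.2 x hx).subset fun y hy => ⟨hy.1, lt_trans hy.2 hfx⟩
      have hne : (A a \ Iio (f a)).Nonempty := ⟨x, hx, fun h => lt_asymm hfx h⟩
      obtain ⟨m, hm, hmin⟩ := (wellFounded_lt (α := L)).has_min _ hne
      have hfm : f a ≤ m := not_lt.1 hm.2
      have ht : ∀ y, y ∈ hfin.toFinset ↔ y ∈ A a ∧ y < f a := fun y => by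
        rw [Set.Finite.mem_toFinset]; rfl
      refine ⟨hfin.toFinset, insert m hfin.toFinset, m, fun h => absurd hD h, fun _ =>
        ⟨⟨fun y hy => ((ht y).1 hy).1, fun y hy z hz hyz =>
          (ht y).2 ⟨hy, lt_of_le_of_lt hyz ((ht z).1 hz).2⟩⟩, ⟨fun y hy => ?_,
            fun y hy z hz hyz => ?_⟩, fun y hy => lt_of_lt_of_le ((ht y).1 hy).2 hfm,
            fun y => Finset.mem_insert, hm⟩⟩
      · rcases Finset.mem_insert.1 hy with h1 | h1
        · exact h1 ▸ hm.1
        · exact ((ht y).1 h1).1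
      · rcases Finset.mem_insert.1 hz with h1 | h1
        · subst h1
          by_cases hyf : y < f a
          · exact Finset.mem_insert_of_mem ((ht y).2 ⟨hy, hyf⟩)
          · have : ¬ y < z := hmin y ⟨hy, hyf⟩
            rw [le_antisymm hyz (not_lt.1 this)]
            exact Finset.mem_insert_self _ _
        · exact Finset.mem_insert_of_mem ((ht y).2 ⟨hy, lt_of_le_of_lt hyz ((ht z).1 h1).2⟩)
    · exact ⟨∅, ∅, b, fun _ => rfl, fun h => absurd h hD⟩
  choose t bb m h1 h2 using key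
  exact ⟨t, bb, m, h1, h2⟩

/-- The finset of a vertex. -/
def dn (t : L → Finset L) : Finset L ⊕ L → Finset L := Sum.elim id t

/-- Vertices which are not maximal. -/
def ok (D : L → Prop) : Finset L ⊕ L → Prop := Sum.elim (fun _ => True) D

/-- The tree order. -/
def le0 (D : L → Prop) (t bb : L → Finset L) (p q : Finset L ⊕ L) : Prop :=
  p = q ∨ (ok D p ∧ Ini (dn t q : Set L) (dn bb p))

variable {D : L → Prop} {t bb : L → Finset L} {m : L → L}

theorem dn_up (hlt : ∀ a, D a → ∀ y ∈ t a, y < m a)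
    (hbb : ∀ a, D a → ∀ y, y ∈ bb a ↔ y = m a ∨ y ∈ t a) {p : Finset L ⊕ L} (hp : ok D p) :
    Ini (dn bb p : Set L) (dn t p) := by
  rcases p with s | a
  · exact ini_refl s
  · exact ini_ins' (hlt a hp) (hbb a hp)

omit [LinearOrder L] in
theorem up_inj (hinj : ∀ a, D a → ∀ a', D a' → bb a = bb a' → a = a') {p q : Finset L ⊕ L}
    (hp : ok D p) (hq : ok D q) (h : dn bb p = dn bb q) :
    p = q ∨ (∃ a, p = Sum.inr a ∧ q = Sum.inl (bb a)) ∨
      ∃ a, q = Sum.inr a ∧ p = Sum.inl (bb a) := by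
  rcases p with s | a <;> rcases q with s' | a'
  · exact Or.inl (congrArg Sum.inl h)
  · exact Or.inr (Or.inr ⟨a', rfl, congrArg Sum.inl h⟩)
  · exact Or.inr (Or.inl ⟨a, rfl, congrArg Sum.inl h.symm⟩)
  · exact Or.inl (congrArg Sum.inr (hinj a hp a' hq h))

theorem le0_trans (hlt : ∀ a, D a → ∀ y ∈ t a, y < m a)
    (hbb : ∀ a, D a → ∀ y, y ∈ bb a ↔ y = m a ∨ y ∈ t a) {p q r : Finset L ⊕ L}
    (h : le0 D t bb p q) (h' : le0 D t bb q r) : le0 D t bb p r := by
  rcases h with rfl | ⟨h1, h2⟩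
  · exact h'
  rcases h' with rfl | ⟨h3, h4⟩
  · exact Or.inr ⟨h1, h2⟩
  exact Or.inr ⟨h1, ini_trans (ini_trans h2 (dn_up hlt hbb h3)) h4⟩

theorem le0_asy (hlt : ∀ a, D a → ∀ y ∈ t a, y < m a)
    (hbb : ∀ a, D a → ∀ y, y ∈ bb a ↔ y = m a ∨ y ∈ t a) {p q : Finset L ⊕ L}
    (h : le0 D t bb p q) (h' : le0 D t bb q p) : p = q := by
  rcases h with rfl | ⟨h1, h2⟩
  · rfl
  rcases h' with rfl | ⟨h3, h4⟩
  · rfl
  -- all four finsets agree
  have a1 : Ini (dn bb p : Set L) (dn t p) := dn_up hlt hbb h1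
  have a2 : Ini (dn bb q : Set L) (dn t q) := dn_up hlt hbb h3
  have e1 : dn t p = dn bb p := ini_antisymm a1 (ini_trans h2 (ini_trans a2 h4))
  have e2 : dn t q = dn bb q := ini_antisymm a2 (ini_trans h4 (ini_trans a1 h2))
  have e3 : dn bb p = dn t q := ini_antisymm h2 (by
    have := ini_trans a2 h4
    rwa [e1] at this)
  have no : ∀ a, D a → t a ≠ bb a := by
    intro a ha he
    have : m a ∈ t a := by
      rw [he]
      exact (hbb a ha _).2 (Or.inl rfl)
    exact lt_irrefl _ (hlt a ha _ this)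
  rcases p with s | a
  · rcases q with s' | a'
    · exact congrArg Sum.inl e3
    · exact absurd e2 (no a' h3)
  · exact absurd e1 (no a h1)

/-- Comparability with a set which is an initial segment of the upper finset. -/
theorem le0_of_up (hlt : ∀ a, D a → ∀ y ∈ t a, y < m a)
    (hbb : ∀ a, D a → ∀ y, y ∈ bb a ↔ y = m a ∨ y ∈ t a)
    (hinj : ∀ a, D a → ∀ a', D a' → bb a = bb a' → a = a') {p q : Finset L ⊕ L}
    (hp : ok D p) (hq : ok D q) (h : Ini (dn bb q : Set L) (dn bb p)) :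
    le0 D t bb p q ∨ le0 D t bb q p := by
  rcases q with s | a
  · exact Or.inl (Or.inr ⟨hp, h⟩)
  · rcases ini_ins (hlt a hq) (hbb a hq) h with h1 | h1
    · rcases up_inj hinj hp hq h1 with rfl | ⟨a', -, h2⟩ | ⟨a', h2, h3⟩
      · exact Or.inl (Or.inl rfl)
      · cases h2
      · right
        right
        refine ⟨hq, ?_⟩
        rw [h3]
        injection h2 with h4
        rw [h4]
        exact ini_refl _
    · exact Or.inl (Or.inr ⟨hp, h1⟩)

theorem le0_chain (hlt : ∀ a, D a → ∀ y ∈ t a, y < m a)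
    (hbb : ∀ a, D a → ∀ y, y ∈ bb a ↔ y = m a ∨ y ∈ t a)
    (hinj : ∀ a, D a → ∀ a', D a' → bb a = bb a' → a = a') {p q r : Finset L ⊕ L}
    (h : le0 D t bb p r) (h' : le0 D t bb q r) : le0 D t bb p q ∨ le0 D t bb q p := by
  rcases h with rfl | ⟨h1, h2⟩
  · exact Or.inr h'
  rcases h' with rfl | ⟨h3, h4⟩
  · exact Or.inl (Or.inr ⟨h1, h2⟩)
  rcases ini_comp h2 h4 with h5 | h5
  · exact le0_of_up hlt hbb hinj h1 h3 h5
  · exact (le0_of_up hlt hbb hinj h3 h1 h5).symm

theorem le0_fin (hinj : ∀ a, D a → ∀ a', D a' → bb a = bb a' → a = a') (p : Finset L ⊕ L) :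
    {q | le0 D t bb q p}.Finite := by
  classical
  have h1 : ({s : Finset L | s ⊆ dn t p}).Finite := by
    have := (dn t p).powerset.finite_toSet
    exact this.subset fun s hs => by
      simp only [Finset.coe_powerset]
      exact Finset.coe_subset.2 hs
  have h2 : ({a : L | D a ∧ bb a ⊆ dn t p}).Finite := by
    refine Set.Finite.of_finite_image (f := bb) (h1.subset ?_) ?_
    · rintro _ ⟨a, ha, rfl⟩
      exact ha.2
    · intro a ha a' ha' h
      exact hinj a ha.1 a' ha'.1 h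
  refine ((Set.finite_singleton p).union ((h1.image Sum.inl).union (h2.image Sum.inr))).subset ?_
  rintro q (rfl | ⟨h3, h4⟩)
  · exact Or.inl rfl
  · right
    rcases q with s | a
    · exact Or.inl ⟨s, Finset.coe_subset.1 h4.1, rfl⟩
    · exact Or.inr ⟨a, ⟨h3, Finset.coe_subset.1 h4.1⟩, rfl⟩

end aux

theorem main : S_lgNT.{u} := by
  intro L _ _ S A b f hA hf hd
  obtain ⟨t, bb, m, ht0, hdat⟩ := data S A b f hA hf
  set D : L → Prop := fun a => a ∈ S ∧ a < b with hD
  have hlt : ∀ a, D a → ∀ y ∈ t a, y < m a := fun a ha => (hdat a ha).2.2.1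
  have hbb : ∀ a, D a → ∀ y, y ∈ bb a ↔ y = m a ∨ y ∈ t a := fun a ha => (hdat a ha).2.2.2.1
  have hm : ∀ a, D a → m a ∈ A a \ Iio (f a) := fun a ha => (hdat a ha).2.2.2.2
  have hmle : ∀ a, D a → ∀ y ∈ bb a, y ≤ m a := by
    intro a ha y hy
    rcases (hbb a ha y).1 hy with h | h
    · exact h.le
    · exact (hlt a ha y h).le
  have hinj : ∀ a, D a → ∀ a', D a' → bb a = bb a' → a = a' := by
    intro a ha a' ha' h
    by_contra hne
    have h1 : m a ∈ bb a' := h ▸ (hbb a ha _).2 (Or.inl rfl)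
    have h2 : m a' ∈ bb a := h ▸ (hbb a' ha' _).2 (Or.inl rfl)
    have h3 : m a = m a' := le_antisymm (hmle a' ha' _ h1) (hmle a ha _ h2)
    have h4 := hm a' ha'
    rw [← h3] at h4
    exact Set.disjoint_left.1 (hd a ha.1 ha.2 a' ha'.1 ha'.2 hne) (hm a ha) h4
  have hIle : ∀ a, D a → ∀ s : Finset L, Ini (A a) s → ∀ x ∈ s, x < b := fun a ha s hs x hx =>
    lt_trans ((hA a ha.1).1 x (hs.1 hx)) ha.2
  refine ⟨fun p q => le0 D t bb p.1 q.1, ?_⟩
  refine ⟨fun _ _ _ => ⟨trivial, trivial⟩, fun x _ => Or.inl rfl,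
    fun x y z h h' => le0_trans hlt hbb h h', fun x y h h' => Subtype.ext (le0_asy hlt hbb h h'),
    trivial, fun x _ => Or.inr ⟨trivial, ⟨by intro z hz; simp [dn] at hz,
      by intro z _ y hy; simp [dn] at hy⟩⟩, fun x => ?_,
    fun x y z h h' => le0_chain hlt hbb hinj h h', ?_, ?_⟩
  · exact (le0_fin hinj x.1).preimage (Subtype.val_injective.injOn)
  · rintro ⟨p, hp⟩ - hne
    rcases p with s | a
    · have hsb : ∀ x ∈ s, x < b := by
        rcases hp with ⟨s', h1, h2⟩ | ⟨a, -, h2⟩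
        · injection h2 with h3
          rw [h3]
          exact h1
        · cases h2
      by_cases hs : ∃ a, D a ∧ bb a = s
      · obtain ⟨a, ha, rfl⟩ := hs
        refine ⟨⟨Sum.inr a, Or.inr ⟨a, ha.2, rfl⟩⟩, Or.inr ⟨ha, ini_refl _⟩, ?_, ?_, ?_⟩
        · intro h
          have := congrArg Subtype.val h
          cases this
        · show (LG S A).Adj (Sum.inr a) (Sum.inl (bb a))
          rw [LG, SimpleGraph.fromRel_adj]
          exact ⟨by simp, Or.inr (Or.inr (Or.inl ⟨bb a, a, ha.1, (hdat a ha).2.1, rfl, rfl⟩))⟩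
        · rintro ⟨z, hz⟩ hzp hzne
          rcases hzp with h | ⟨h1, h2⟩
          · exact absurd (Subtype.ext h) hzne
          · rcases ini_ins (hlt a ha) (hbb a ha) h2 with h3 | h3
            · rcases z with s' | a'
              · exact absurd (Subtype.ext (congrArg Sum.inl h3)) hzne
              · exact Or.inl (congrArg Sum.inr (hinj a' h1 a ha h3))
            · exact Or.inr ⟨h1, h3⟩
      · have hsne : s.Nonempty := by
          rw [Finset.nonempty_iff_ne_empty]
          rintro rfl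
          exact hne rfl
        have hx : ∀ y ∈ s.erase (s.max' hsne), y < s.max' hsne := fun y hy =>
          lt_of_le_of_ne (Finset.le_max' _ _ (Finset.mem_of_mem_erase hy))
            (Finset.ne_of_mem_erase hy)
        have hx' : ∀ y, y ∈ s ↔ y = s.max' hsne ∨ y ∈ s.erase (s.max' hsne) := by
          intro y
          rw [Finset.mem_erase]
          constructor
          · intro h
            by_cases h1 : y = s.max' hsne
            · exact Or.inl h1
            · exact Or.inr ⟨h1, h⟩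
          · rintro (h | h)
            · rw [h]; exact Finset.max'_mem _ _
            · exact h.2
        refine ⟨⟨Sum.inl (s.erase (s.max' hsne)), Or.inl ⟨_, fun x hx =>
          hsb x (Finset.mem_of_mem_erase hx), rfl⟩⟩, Or.inr ⟨trivial, ini_ins' hx hx'⟩, ?_, ?_, ?_⟩
        · intro h
          have h1 := congrArg Subtype.val h
          have h2 : s.erase (s.max' hsne) = s := by
            injection h1
          have h4 := Finset.max'_mem s hsne
          have h3 := Finset.notMem_erase (s.max' hsne) s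
          rw [h2] at h3
          exact h3 h4
        · show (LG S A).Adj (Sum.inl (s.erase (s.max' hsne))) (Sum.inl s)
          rw [LG, SimpleGraph.fromRel_adj]
          refine ⟨?_, Or.inl (Or.inl ⟨s.erase (s.max' hsne), s.max' hsne, hx, rfl,
            congrArg Sum.inl ?_⟩)⟩
          · intro h
            have h2 : s.erase (s.max' hsne) = s := by injection h
            have := Finset.max'_mem s hsne
            have h3 := Finset.notMem_erase (s.max' hsne) s
            rw [h2] at h3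
            exact h3 this
          · ext y
            exact (hx' y).trans (@Finset.mem_insert _ (Classical.decEq L) _ _ _).symm
        · rintro ⟨z, hz⟩ hzp hzne
          rcases hzp with h | ⟨h1, h2⟩
          · exact absurd (Subtype.ext h) hzne
          · rcases ini_ins hx hx' h2 with h3 | h3
            · rcases z with s' | a'
              · exact absurd (Subtype.ext (congrArg Sum.inl h3)) hzne
              · exact absurd ⟨a', h1, h3⟩ hs
            · exact Or.inr ⟨h1, h3⟩
    · have hab : a < b := by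
        rcases hp with ⟨s', h1, h2⟩ | ⟨a', h1, h2⟩
        · cases h2
        · injection h2 with h3
          rw [h3]
          exact h1
      have hmem : (Sum.inl (t a) : Finset L ⊕ L) ∈ LV b := by
        refine Or.inl ⟨t a, ?_, rfl⟩
        by_cases ha : D a
        · exact hIle a ha _ (hdat a ha).1
        · rw [ht0 a ha]
          intro x hx
          exact absurd hx (Finset.notMem_empty x)
      refine ⟨⟨Sum.inl (t a), hmem⟩, Or.inr ⟨trivial, ini_refl _⟩, ?_, ?_, ?_⟩
      · intro h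
        have := congrArg Subtype.val h
        cases this
      · show (LG S A).Adj (Sum.inl (t a)) (Sum.inr a)
        rw [LG, SimpleGraph.fromRel_adj]
        refine ⟨by simp, Or.inl ?_⟩
        by_cases ha : D a
        · exact Or.inr (Or.inl ⟨t a, a, ha.1, (hdat a ha).1, rfl, rfl⟩)
        · rw [ht0 a ha]
          exact Or.inr (Or.inr ⟨a, fun h => ha ⟨h, hab⟩, rfl, rfl⟩)
      · rintro ⟨z, hz⟩ hzp hzne
        rcases hzp with h | ⟨h1, h2⟩
        · exact absurd (Subtype.ext h) hzne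
        · exact Or.inr ⟨h1, h2⟩
  · have key : ∀ p q : Finset L ⊕ L, q ∈ LV b →
        ((∃ (s : Finset L) (x : L), (∀ y ∈ s, y < x) ∧ p = Sum.inl s ∧
          q = Sum.inl (letI := Classical.decEq L; insert x s)) ∨
        (∃ (s : Finset L) (a : L), a ∈ S ∧ Ini (A a) s ∧ p = Sum.inl s ∧ q = Sum.inr a) ∨
        (∃ a : L, a ∉ S ∧ p = Sum.inl ∅ ∧ q = Sum.inr a)) →
        le0 D t bb p q ∨ le0 D t bb q p := by
      rintro p q hq (⟨s, x, h1, rfl, rfl⟩ | ⟨s, a, h1, h2, rfl, rfl⟩ | ⟨a, h1, rfl, rfl⟩)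
      · exact Or.inl (Or.inr ⟨trivial, ini_ins' h1 fun y =>
          @Finset.mem_insert _ (Classical.decEq L) _ _ _⟩)
      · have hab : a < b := by
          rcases hq with ⟨s', h1, h2⟩ | ⟨a', h1, h2⟩
          · cases h2
          · injection h2 with h3
            rw [h3]
            exact h1
        have ha : D a := ⟨h1, hab⟩
        rcases ini_comp h2 (hdat a ha).2.1 with h3 | h3
        · exact le0_of_up (p := Sum.inl s) (q := Sum.inr a) hlt hbb hinj trivial ha h3
        · exact (le0_of_up (p := Sum.inr a) (q := Sum.inl s) hlt hbb hinj ha trivial h3).symm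
      · exact Or.inl (Or.inr ⟨trivial, ⟨by intro z hz; simp [dn] at hz,
          by intro z _ y hy; simp [dn] at hy⟩⟩)
    rintro ⟨p, hp⟩ - ⟨q, hq⟩ - hadj
    have h1 : (LG S A).Adj p q := hadj
    rw [LG, SimpleGraph.fromRel_adj] at h1
    rcases h1.2 with h2 | h2
    · exact key p q hq h2
    · exact (key q p hp h2).symm

end Pool.Agent.W910.NS.T_E5
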