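import Pool.Agent.W910.NS.Stmts2

/-! An obstruction of size `ℵ₁` lies in a member of the filtration. -/

set_option autoImplicit false

open Cardinal Set

namespace Pool.Agent.W910.NS.T_E6

universe u

open Pool.Agent.W910.NS

/-- the iterated induced graph -/
def iso {V : Type u} (G : SimpleGraph V) (A B : Set V) (h : B ⊆ A) :
    (G.induce A).induce (Subtype.val ⁻¹' B : Set A) ≃g G.induce B where
  toFun v := ⟨v.1.1, v.2⟩
  invFun v := ⟨⟨v.1, h v.2⟩, v.2⟩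
  left_inv _ := rfl
  right_inv _ := rfl
  map_rel_iff' := Iff.rfl

theorem key (L : Type u) [LinearOrder L] [WellFoundedLT L] (hL : Reg L) (h1 : ℵ₁ < #L)
    (V : Type u) (G : SimpleGraph V) (W : L → Set V) (hm : ∀ i j, i ≤ j → W i ⊆ W j)
    (hc : ∀ x, ∃ i, x ∈ W i) (W' : Type u) (H : SimpleGraph W') (hW : #W' ≤ ℵ₁)
    (hH : IsCountableMinor H G) : ∃ i, IsCountableMinor H (G.induce (W i)) := by
  obtain ⟨B, hB, hd, he⟩ := hH
  choose idx hidx using hc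
  have hX : #(⋃ x, B x) ≤ ℵ₁ := by
    refine (mk_iUnion_le B).trans ?_
    have h2 : ⨆ x, #(B x) ≤ ℵ₀ := ciSup_le' fun x => (mk_le_aleph0_iff.2 (hB x).1.to_subtype)
    calc #W' * ⨆ x, #(B x) ≤ ℵ₁ * ℵ₀ := mul_le_mul' hW h2
      _ ≤ ℵ₁ * ℵ₁ := mul_le_mul' le_rfl (aleph0_le_aleph 1)
      _ = ℵ₁ := mul_eq_self (aleph0_le_aleph 1)
  have hJ : #(idx '' (⋃ x, B x)) < #L := (mk_image_le.trans hX).trans_lt h1
  obtain ⟨b, hb⟩ := hL.bd _ hJ
  have hsub : ∀ x, B x ⊆ W b := by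
    intro x v hv
    have h2 : idx v < b := hb _ ⟨v, mem_iUnion.2 ⟨x, hv⟩, rfl⟩
    exact hm _ _ h2.le (hidx v)
  refine ⟨b, fun x => Subtype.val ⁻¹' (B x), fun x => ⟨?_, ?_⟩, fun x y hxy => ?_,
    fun x y hxy => ?_⟩
  · exact (hB x).1.preimage Subtype.val_injective
  · exact ((iso G (W b) (B x) (hsub x)).connected_iff).2 (hB x).2
  · exact (hd x y hxy).preimage _
  · obtain ⟨v, hv, w, hw, hvw⟩ := he x y hxy
    exact ⟨⟨v, hsub x hv⟩, hv, ⟨w, hsub y hw⟩, hw, hvw⟩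

theorem main : S_obsSub.{u} := by
  intro L _ _ hL h1 V G W hm hc hO
  rcases hO with ⟨W', H, hH, hM⟩ | ⟨H, hH, hM⟩
  · have hW : #W' ≤ ℵ₁ := by
      obtain ⟨A, B, _, hu, hA, hB, _⟩ := hH
      rw [← mk_univ, ← hu]
      refine (mk_union_le A B).trans ?_
      rw [hA, hB]
      exact (add_le_add (aleph0_le_aleph 1) le_rfl).trans (add_eq_self (aleph0_le_aleph 1)).le
    obtain ⟨i, hi⟩ := key L hL h1 V G W hm hc W' H hW hM
    exact ⟨i, Or.inl ⟨W', H, hH, hi⟩⟩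
  · have hW : #((ℵ₁ : Cardinal.{u}).ord.ToType) ≤ ℵ₁ := (mk_ord_toType _).le
    obtain ⟨i, hi⟩ := key L hL h1 V G W hm hc _ H hW hM
    exact ⟨i, Or.inr ⟨H, hH, hi⟩⟩

end Pool.Agent.W910.NS.T_E6
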