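import Pool.Agent.W910.NS.Stmts2

/-! `ADS⁻` implies that larger obstructions are needed. -/

set_option autoImplicit false

open Cardinal Set

namespace Pool.Agent.W910.NS.T_E7

universe u

theorem main (hr : S_reg.{u}) (hst : S_stat.{u}) (ht : S_toNT.{u}) (hn : S_noObs.{u})
    (hc : S_lgConn.{u}) (hl : S_lgNo.{u}) (hN : S_lgNT.{u}) (ho : S_obsSub.{u}) :
    S_conv.{u} := by
  intro κ hκ hκ1 hads hsc
  obtain ⟨S, A, hS, hcof, hA, hβ⟩ := hads
  have hℵ : ℵ₀ < κ := aleph0_lt_aleph_one.trans hκ1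
  have hReg : Reg (Ltype κ) := hr κ hκ hℵ
  have hcard : #(Ltype κ) = κ := mk_ord_toType κ
  have hSt : St S := (hst (Ltype κ) hReg S).1 hS
  have hfin : ∀ s : Set (Ltype κ), s.Finite → #s < #(Ltype κ) := by
    intro s hs
    rw [hcard]
    exact (lt_aleph0_iff_set_finite.2 hs).trans hℵ
  rcases hsc _ (LG S A) (hc _ S A) with h | h
  · exact hl (Ltype κ) hReg S A hSt hA (ht _ _ h)
  · obtain ⟨b, hb⟩ := ho (Ltype κ) hReg (by rw [hcard]; exact hκ1) _ (LG S A)
      (LV (L := Ltype κ))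
      (by
        intro i j hij p hp
        rcases hp with ⟨s, hs, rfl⟩ | ⟨a, ha, rfl⟩
        · exact Or.inl ⟨s, fun x hx => (hs x hx).trans_le hij, rfl⟩
        · exact Or.inr ⟨a, ha.trans_le hij, rfl⟩)
      (by
        rintro (s | a)
        · obtain ⟨b, hb⟩ := hReg.bd (s : Set (Ltype κ)) (hfin _ s.finite_toSet)
          exact ⟨b, Or.inl ⟨s, fun x hx => hb x (by simpa using hx), rfl⟩⟩
        · obtain ⟨b, hb⟩ := hReg.bd {a} (hfin _ (Set.finite_singleton a))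
          exact ⟨b, Or.inr ⟨a, hb a rfl, rfl⟩⟩) h
    obtain ⟨f, hf1, hf2⟩ := hβ b
    obtain ⟨le, hle⟩ := hN (Ltype κ) S A b f hA hf1 hf2
    exact hn _ _ _ _ hle hb

end Pool.Agent.W910.NS.T_E7
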