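import Pool.Agent.W910.NS.Stmts2

/-! Coding ladders of order type `ω` with finite intersections. -/

set_option autoImplicit false

open Cardinal Set

namespace Pool.Agent.W910.NS.T_E8

universe u

/-- The initial pieces of the list of pairs. -/
def lst {L : Type u} (n c : ℕ → L) (k : ℕ) : List (L × L) :=
  (List.range k).map fun i => (n i, c i)

theorem length_lst {L : Type u} (n c : ℕ → L) (k : ℕ) : (lst n c k).length = k := by
  unfold lst; simp

theorem mem_lst {L : Type u} (n c : ℕ → L) {i k : ℕ} (h : i < k) : (n i, c i) ∈ lst n c k := by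
  unfold lst
  exact List.mem_map.2 ⟨i, List.mem_range.2 h, rfl⟩

theorem getElem?_lst {L : Type u} (n c : ℕ → L) {i k : ℕ} (h : i < k) :
    (lst n c k)[i]? = some (n i, c i) := by
  unfold lst
  rw [List.getElem?_map, List.getElem?_range h]
  rfl

theorem bound_lst {L : Type u} [LinearOrder L] {a : L} (n c : ℕ → L) (hn : ∀ i, n i < a)
    (hc : ∀ i, c i < a) (ha : ∃ b, b < a) (k : ℕ) :
    ∃ b < a, ∀ p ∈ lst n c k, p.1 ≤ b ∧ p.2 ≤ b := by
  induction k with
  | zero =>
    obtain ⟨b, hb⟩ := ha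
    exact ⟨b, hb, fun p hp => by simp [lst] at hp⟩
  | succ k ih =>
    obtain ⟨b, hb, h⟩ := ih
    refine ⟨max b (max (n k) (c k)), max_lt hb (max_lt (hn k) (hc k)), fun p hp => ?_⟩
    unfold lst at hp
    rw [List.range_succ, List.map_append, List.mem_append] at hp
    rcases hp with hp | hp
    · obtain ⟨h1, h2⟩ := h p hp
      exact ⟨h1.trans (le_max_left _ _), h2.trans (le_max_left _ _)⟩
    · simp only [List.map_cons, List.map_nil, List.mem_singleton] at hp
      subst hp
      exact ⟨(le_max_left _ _).trans (le_max_right _ _),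
        (le_max_right _ _).trans (le_max_right _ _)⟩

theorem main (hi : S_inter.{u}) : S_code.{u} := by
  intro L _ _ hR S N hS hCw hN
  have hinf : Infinite L := Cardinal.infinite_iff.2 hR.unc.le
  -- the coding
  have hcard : #(List (L × L)) = #L := by
    rw [Cardinal.mk_list_eq_mk, ← Cardinal.mul_def, Cardinal.mul_eq_self hR.unc.le]
  obtain ⟨code⟩ := Cardinal.eq.1 hcard
  -- the sequences
  have hc' : ∀ a, ∃ c : ℕ → L, a ∈ S → (∀ n, c n < a) ∧ ∀ b < a, ∃ n, b < c n := by
    intro a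
    by_cases ha : a ∈ S
    · obtain ⟨c, h⟩ := hCw a ha
      exact ⟨c, fun _ => h⟩
    · exact ⟨fun _ => a, fun h => absurd h ha⟩
  choose c hc using hc'
  have hn' : ∀ a, ∃ n : ℕ → L, a ∈ S → Function.Injective n ∧ ∀ i, n i ∈ N a := by
    intro a
    by_cases ha : a ∈ S
    · exact ⟨fun i => (hN a ha).2.natEmbedding _ i, fun _ =>
        ⟨fun i j h => ((hN a ha).2.natEmbedding _).injective (Subtype.ext h),
          fun i => ((hN a ha).2.natEmbedding _ i).2⟩⟩
    · exact ⟨fun _ => a, fun h => absurd h ha⟩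
  choose n hn using hn'
  -- segments
  have hIic : ∀ b : L, #(Iic b) < #L := by
    intro b
    obtain ⟨b', hb'⟩ := hR.bd {b} (by
      rw [Cardinal.mk_singleton]
      exact lt_of_lt_of_le Cardinal.one_lt_aleph0 hR.unc.le)
    exact lt_of_le_of_lt (Cardinal.mk_le_mk_of_subset
      (fun x hx => lt_of_le_of_lt hx (hb' b rfl))) (hR.seg b')
  have hsm : ∀ b : L, #({x : L | ∀ p ∈ code.symm x, p.1 ≤ b ∧ p.2 ≤ b} : Set L) < #L := by
    intro b
    have h1 : {x : L | ∀ p ∈ code.symm x, p.1 ≤ b ∧ p.2 ≤ b} ⊆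
        Set.range (fun l : List (Iic b × Iic b) => code (l.map fun p => (p.1.1, p.2.1))) := by
      intro x hx
      refine ⟨(code.symm x).attach.map fun p =>
        (⟨p.1.1, (hx p.1 p.2).1⟩, ⟨p.1.2, (hx p.1 p.2).2⟩), ?_⟩
      show code _ = x
      rw [List.map_map]
      have : ((code.symm x).attach.map
          ((fun p : Iic b × Iic b => (p.1.1, p.2.1)) ∘ fun p : {p // p ∈ code.symm x} =>
            ((⟨p.1.1, (hx p.1 p.2).1⟩, ⟨p.1.2, (hx p.1 p.2).2⟩) : Iic b × Iic b))) =
          (code.symm x).attach.map Subtype.val := by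
        apply List.map_congr_left
        intro p _
        rfl
      rw [this, List.attach_map_subtype_val, Equiv.apply_symm_apply]
    refine lt_of_le_of_lt ((Cardinal.mk_le_mk_of_subset h1).trans Cardinal.mk_range_le) ?_
    refine lt_of_le_of_lt (Cardinal.mk_list_le_max _) (max_lt hR.unc ?_)
    rw [← Cardinal.mul_def]
    exact Cardinal.mul_lt_of_lt hR.unc.le (hIic b) (hIic b)
  have hh' : ∀ b : L, ∃ h : L, ∀ x, (∀ p ∈ code.symm x, p.1 ≤ b ∧ p.2 ≤ b) → x < h := by
    intro b
    obtain ⟨h, hh⟩ := hR.bd _ (hsm b)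
    exact ⟨h, fun x hx => hh x hx⟩
  choose h hh using hh'
  have hSt := hi L hR S h hS
  -- the codes
  have hdec : ∀ a k, code.symm (code (lst (n a) (c a) k)) = lst (n a) (c a) k := fun a k =>
    code.symm_apply_apply _
  have hlt : ∀ a ∈ {a | a ∈ S ∧ Lm a ∧ ∀ b < a, h b < a}, ∀ k,
      code (lst (n a) (c a) k) < a := by
    rintro a ⟨haS, haL, hacl⟩ k
    obtain ⟨b, hb, h1⟩ := bound_lst (n a) (c a) (fun i => (hN a haS).1 _ ((hn a haS).2 i))
      (hc a haS).1 haL.1 k
    refine (hh b _ ?_).trans (hacl b hb)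
    rw [hdec]
    exact h1
  have hinj : ∀ a, Function.Injective fun k => code (lst (n a) (c a) k) := by
    intro a k k' hk
    have h1 := code.injective hk
    rw [← length_lst (n a) (c a) k, h1, length_lst]
  set C : L → Set L := fun a => Set.range fun k => code (lst (n a) (c a) k) with hC
  have hCinf : ∀ a, (C a).Infinite := fun a => Set.infinite_range_of_injective (hinj a)
  refine ⟨{a | a ∈ S ∧ Lm a ∧ ∀ b < a, h b < a}, fun a => {x | x ∈ C a ∧ (C a ∩ Iio x).Finite},
    fun x => {y | ∃ p ∈ code.symm x, p.1 = y}, fun a ha => ha.1, hSt, ?_, ?_, ?_, ?_⟩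
  · intro x
    have : {y | ∃ p ∈ code.symm x, p.1 = y} = Prod.fst '' {p | p ∈ code.symm x} := by
      ext y; simp
    beta_reduce
    rw [this]
    exact ((List.finite_toSet _).image _).countable
  · intro a ha
    refine ⟨?_, ?_, ?_⟩
    · rintro x ⟨⟨k, rfl⟩, -⟩
      exact hlt a ha k
    · intro hfin
      have h1 : (C a \ {x | x ∈ C a ∧ (C a ∩ Iio x).Finite}).Nonempty :=
        ((hCinf a).sdiff hfin).nonempty
      obtain ⟨m, hm, hmin⟩ := WellFounded.has_min (wellFounded_lt (α := L)) _ h1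
      refine hm.2 ⟨hm.1, hfin.subset ?_⟩
      rintro x ⟨hx, hxm⟩
      by_contra h2
      exact hmin x ⟨hx, h2⟩ hxm
    · rintro b ⟨-, hb⟩
      exact hb.subset fun x hx => ⟨hx.1.1, hx.2⟩
  · have key : ∀ a ∈ {a | a ∈ S ∧ Lm a ∧ ∀ b < a, h b < a},
        ∀ a' ∈ {a | a ∈ S ∧ Lm a ∧ ∀ b < a, h b < a}, a < a' →
        (C a ∩ C a').Finite := by
      intro a ha a' ha' hlt'
      obtain ⟨m, hm⟩ := (hc a' ha'.1).2 a hlt'
      refine ((Set.finite_Iic m).image fun k => code (lst (n a) (c a) k)).subset ?_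
      rintro x ⟨⟨k, rfl⟩, ⟨k', hk'⟩⟩
      refine ⟨k, ?_, rfl⟩
      have h1 : lst (n a') (c a') k' = lst (n a) (c a) k := code.injective hk'
      have h2 : k' = k := by
        rw [← length_lst (n a') (c a') k', h1, length_lst]
      subst h2
      by_contra h3
      have h4 : m < k' := lt_of_not_ge h3
      have h5 := getElem?_lst (n a') (c a') h4
      rw [h1, getElem?_lst (n a) (c a) h4] at h5
      have h6 : c a m = c a' m := congrArg Prod.snd (Option.some.inj h5)
      have h7 := (hc a ha.1).1 m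
      rw [h6] at h7
      exact lt_asymm h7 hm
    intro a ha a' ha' hne
    rcases lt_or_gt_of_ne hne with h1 | h1
    · exact (key a ha a' ha' h1).subset fun x hx => ⟨hx.1.1, hx.2.1⟩
    · exact (key a' ha' a ha h1).subset fun x hx => ⟨hx.2.1, hx.1.1⟩
  · intro a ha K hK hfin
    by_contra hinf2
    have h1 : {k | code (lst (n a) (c a) k) ∈ K}.Infinite := by
      intro h2
      refine hinf2 ((h2.image fun k => code (lst (n a) (c a) k)).subset ?_)
      rintro x ⟨⟨⟨k, rfl⟩, -⟩, hx⟩
      exact ⟨k, hx, rfl⟩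
    have h2 : ∀ i, n a i ∈ K := by
      intro i
      obtain ⟨k, hk, hik⟩ := h1.exists_gt i
      refine hK _ hk ⟨(n a i, c a i), ?_, rfl⟩
      rw [hdec]
      exact mem_lst _ _ hik
    exact (Set.infinite_range_of_injective (hn a ha.1).1) (hfin.subset (by
      rintro _ ⟨i, rfl⟩
      exact ⟨(hn a ha.1).2 i, h2 i⟩))

end Pool.Agent.W910.NS.T_E8
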