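import Pool.Agent.W910.NS.Stmts2

set_option autoImplicit false

/-! NS-E9: essential disjointness from unary closure operations. -/

open Cardinal Set

namespace Pool.Agent.W910.NS.T_E9

open Pool.Agent.W910.NS

universe u

/-- closure of a point under a set valued operation -/
def cl {L : Type u} (E' : L → Set L) (y : L) : Set L :=
  {z | Relation.ReflTransGen (fun x z => z ∈ E' x) y z}

theorem cl_self {L : Type u} (E' : L → Set L) (y : L) : y ∈ cl E' y := Relation.ReflTransGen.refl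

theorem cl_closed {L : Type u} (E' : L → Set L) (y : L) : ∀ x ∈ cl E' y, E' x ⊆ cl E' y := by
  intro x hx z hz
  exact Relation.ReflTransGen.tail hx hz

theorem cl_countable {L : Type u} (E' : L → Set L) (hE : ∀ x, (E' x).Countable) (y : L) :
    (cl E' y).Countable := by
  let it : ℕ → Set L := fun n => Nat.rec {y} (fun _ T => ⋃ x ∈ T, E' x) n
  have h0 : it 0 = {y} := rfl
  have hs : ∀ n, it (n + 1) = ⋃ x ∈ it n, E' x := fun n => rfl
  have hc : ∀ n, (it n).Countable := by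
    intro n
    induction n with
    | zero => rw [h0]; exact countable_singleton y
    | succ n ih =>
      rw [hs]
      exact ih.biUnion fun x _ => hE x
  refine (countable_iUnion hc).mono ?_
  intro z hz
  have hz' : Relation.ReflTransGen (fun x z => z ∈ E' x) y z := hz
  induction hz' with
  | refl => exact mem_iUnion.2 ⟨0, by rw [h0]; rfl⟩
  | tail hab hbc ih =>
    obtain ⟨n, hn⟩ := mem_iUnion.1 (ih hab)
    refine mem_iUnion.2 ⟨n + 1, ?_⟩
    rw [hs]
    exact mem_biUnion hn hbc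

theorem A_countable {L : Type u} [LinearOrder L] (A : Set L)
    (h : ∀ b ∈ A, (A ∩ Iio b).Finite) : A.Countable := by
  rw [countable_iff_exists_injOn]
  refine ⟨fun x => (A ∩ Iio x).ncard, ?_⟩
  have hlt : ∀ x ∈ A, ∀ y ∈ A, x < y → (A ∩ Iio x).ncard < (A ∩ Iio y).ncard := by
    intro x hx y hy hxy
    apply ncard_lt_ncard _ (h y hy)
    refine ⟨fun z hz => ⟨hz.1, lt_trans hz.2 hxy⟩, ?_⟩
    intro hc
    exact lt_irrefl x (hc ⟨hx, hxy⟩).2
  intro x hx y hy hxy
  simp only at hxy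
  rcases lt_trichotomy x y with h1 | h1 | h1
  · have := hlt x hx y hy h1; omega
  · exact h1
  · have := hlt y hy x hx h1; omega

theorem exists_above {L : Type u} [LinearOrder L] (A : Set L) (hA : A.Infinite)
    (h : ∀ b ∈ A, (A ∩ Iio b).Finite) (F : Set L) (hF : F.Finite) (hFA : F ⊆ A) :
    ∃ c ∈ A, (∀ b ∈ F, b < c) ∧ ∃ x ∈ A, c < x := by
  have hIic : ∀ b ∈ A, (A ∩ Iic b).Finite := by
    intro b hb
    refine ((h b hb).union (finite_singleton b)).subset ?_
    rintro z ⟨hz, hzb⟩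
    rcases lt_or_eq_of_le hzb with h1 | h1
    · exact Or.inl ⟨hz, h1⟩
    · exact Or.inr h1
  have h1 : (⋃ b ∈ F, (A ∩ Iic b)).Finite := hF.biUnion fun b hb => hIic b (hFA hb)
  obtain ⟨c, hcA, hc⟩ := (hA.sdiff h1).nonempty
  obtain ⟨x, hxA, hx⟩ := (hA.sdiff (hIic c hcA)).nonempty
  refine ⟨c, hcA, ?_, x, hxA, ?_⟩
  · intro b hb
    by_contra hbc
    push Not at hbc
    exact hc (mem_biUnion hb ⟨hcA, hbc⟩)
  · by_contra hxc
    push Not at hxc
    exact hx ⟨hxA, hxc⟩

theorem main : S_ess.{u} := by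
  classical
  intro L _ _ S A E hE hA hAA hEK
  set E' : L → Set L := fun x => E x ∪ (if x ∈ S then A x else ∅) with hE'
  have hE'c : ∀ x, (E' x).Countable := by
    intro x
    refine (hE x).union ?_
    by_cases hx : x ∈ S
    · rw [if_pos hx]; exact A_countable (A x) (hA x hx).2
    · rw [if_neg hx]; exact countable_empty
  set K : L → Set L := fun y => ⋃ z ∈ Iio y, cl E' z with hK
  have hKE' : ∀ y, ∀ x ∈ K y, E' x ⊆ K y := by
    intro y x hx z hz
    obtain ⟨w, hw, hxw⟩ := mem_iUnion₂.1 hx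
    exact mem_iUnion₂.2 ⟨w, hw, cl_closed E' w x hxw hz⟩
  have hKE : ∀ y, ∀ x ∈ K y, E x ⊆ K y := fun y x hx z hz => hKE' y x hx (Or.inl hz)
  have hKA : ∀ y, ∀ a ∈ S, a ∈ K y → A a ⊆ K y := by
    intro y a ha hay z hz
    apply hKE' y a hay
    refine Or.inr ?_
    rw [if_pos ha]; exact hz
  have hrho : ∀ a : L, ∃ y, a ∈ cl E' y ∧ ∀ z < y, a ∉ cl E' z := by
    intro a
    have hne : ({y | a ∈ cl E' y} : Set L).Nonempty := ⟨a, cl_self E' a⟩
    obtain ⟨y, hy, hmin⟩ := wellFounded_lt.has_min _ hne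
    exact ⟨y, hy, fun z hz hza => hmin z hza hz⟩
  choose rho hrho1 hrho2 using hrho
  have hanK : ∀ a, a ∉ K (rho a) := by
    intro a ha
    obtain ⟨w, hw, haw⟩ := mem_iUnion₂.1 ha
    exact hrho2 a w hw haw
  have hinj : ∀ y, ∃ e : L → ℕ, InjOn e (cl E' y) := fun y =>
    countable_iff_exists_injOn.1 (cl_countable E' hE'c y)
  choose e he using hinj
  set B : L → Set L := fun a => {a' | a' ∈ S ∧ rho a' = rho a ∧ e (rho a) a' < e (rho a) a} with hB
  have hBfin : ∀ a, (B a).Finite := by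
    intro a
    have h1 : (e (rho a) '' B a).Finite := by
      refine (finite_Iio (e (rho a) a)).subset ?_
      rintro _ ⟨a', ha', rfl⟩
      exact ha'.2.2
    refine Finite.of_finite_image h1 ?_
    refine (he (rho a)).mono ?_
    intro a' ha'
    have := hrho1 a'
    rwa [ha'.2.1] at this
  set F : L → Set L := fun a => (A a ∩ K (rho a)) ∪ ⋃ a' ∈ B a, (A a ∩ A a') with hF
  have hFfin : ∀ a ∈ S, (F a).Finite := by
    intro a ha
    refine (hEK a ha (K (rho a)) (hKE _) (hanK a)).union ?_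
    refine (hBfin a).biUnion fun a' ha' => ?_
    apply hAA a ha a' ha'.1
    intro h
    have := ha'.2.2
    rw [← h] at this
    exact lt_irrefl _ this
  have hFA : ∀ a, F a ⊆ A a := by
    intro a x hx
    rcases hx with hx | hx
    · exact hx.1
    · obtain ⟨a', _, hx'⟩ := mem_iUnion₂.1 hx
      exact hx'.1
  have hex : ∀ a, ∃ c, a ∈ S → ((∀ b ∈ F a, b < c) ∧ ∃ x ∈ A a, c < x) := by
    intro a
    by_cases ha : a ∈ S
    · obtain ⟨c, _, hc1, hc2⟩ := exists_above (A a) (hA a ha).1 (hA a ha).2 (F a) (hFfin a ha) (hFA a)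
      exact ⟨c, fun _ => ⟨hc1, hc2⟩⟩
    · exact ⟨a, fun h => absurd h ha⟩
  choose f hf using hex
  refine ⟨f, fun a ha => (hf a ha).2, ?_⟩
  -- asymmetric version
  have key1 : ∀ a ∈ S, ∀ a' ∈ S, rho a' < rho a → ∀ x, x ∈ A a → x ∈ A a' → x < f a := by
    intro a ha a' ha' hlt x hx hx'
    apply (hf a ha).1
    refine Or.inl ⟨hx, ?_⟩
    apply hKA (rho a) a' ha' _ hx'
    exact mem_iUnion₂.2 ⟨rho a', hlt, hrho1 a'⟩
  have key2 : ∀ a ∈ S, ∀ a' ∈ S, rho a' = rho a → e (rho a) a' < e (rho a) a →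
      ∀ x, x ∈ A a → x ∈ A a' → x < f a := by
    intro a ha a' ha' heq hlt x hx hx'
    apply (hf a ha).1
    exact Or.inr (mem_iUnion₂.2 ⟨a', ⟨ha', heq, hlt⟩, hx, hx'⟩)
  intro a ha a' ha' hne
  rw [disjoint_left]
  rintro x ⟨hx, hxf⟩ ⟨hx', hxf'⟩
  have hxf1 : ¬ x < f a := hxf
  have hxf1' : ¬ x < f a' := hxf'
  rcases lt_trichotomy (rho a') (rho a) with h | h | h
  · exact hxf1 (key1 a ha a' ha' h x hx hx')
  · have hne' : e (rho a) a ≠ e (rho a) a' := by
      intro h1
      apply hne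
      have h2 := hrho1 a'
      rw [h] at h2
      exact he (rho a) (hrho1 a) h2 h1
    rcases lt_or_gt_of_ne hne' with h1 | h1
    · have h2 : e (rho a') a < e (rho a') a' := by rw [h]; exact h1
      exact hxf1' (key2 a' ha' a ha h.symm h2 x hx' hx)
    · exact hxf1 (key2 a ha a' ha' h h1 x hx hx')
  · exact hxf1' (key1 a' ha' a ha h x hx' hx)

end Pool.Agent.W910.NS.T_E9
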