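import Pool.Agent.W910.NS.Stmts

/-! From an obstruction of length `ω₁` to the two kinds of minors. -/

set_option autoImplicit false

open Cardinal Set

namespace Pool.Agent.W910.NS.T_F2

universe u

section

variable {V : Type u} {G : SimpleGraph V}

theorem induce_connected {A : Set V} (h : CS G A) : (G.induce A).Connected := by
  obtain ⟨hne, hc⟩ := h
  have : Nonempty A := hne.to_subtype
  refine ⟨fun x y => ?_⟩
  obtain ⟨p, hp⟩ := hc x.1 x.2 y.1 y.2
  exact ⟨p.induce A hp⟩

theorem Ed.symm {A B : Set V} (h : Ed G A B) : Ed G B A := by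
  obtain ⟨a, ha, b, hb, hab⟩ := h
  exact ⟨b, hb, a, ha, hab.symm⟩

/-- The bipartite graph. -/
def bip (G : SimpleGraph V) {X Y : Type u} (B : X → Set V) (C : Y → Set V) :
    SimpleGraph (X ⊕ Y) where
  Adj u v := (∃ x a, u = Sum.inl x ∧ v = Sum.inr a ∧ Ed G (B x) (C a)) ∨
    (∃ x a, v = Sum.inl x ∧ u = Sum.inr a ∧ Ed G (B x) (C a))
  symm := ⟨fun u v h => Or.symm h⟩
  loopless := ⟨by
    intro u h
    rcases h with ⟨x, a, h1, h2, _⟩ | ⟨x, a, h1, h2, _⟩
    · rw [h1] at h2
      exact absurd h2 (by simp)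
    · rw [h1] at h2
      exact absurd h2 (by simp)⟩

/-- The graph on a linear order. -/
def lin (G : SimpleGraph V) {X : Type u} (B : X → Set V) : SimpleGraph X where
  Adj x y := x ≠ y ∧ Ed G (B x) (B y)
  symm := ⟨fun _ _ h => ⟨h.1.symm, Ed.symm h.2⟩⟩
  loopless := ⟨fun _ h => h.1 rfl⟩

end

theorem main (hr : S_reg.{u}) (hst : S_stat.{u}) (hp : S_press.{u}) (hs : S_split.{u})
    (_hi : S_inter.{u}) (hu : S_unb.{u}) : S_minor.{u} := by
  classical
  intro V G hO
  have hL : Reg (Ltype (ℵ₁ : Cardinal.{u})) := hr ℵ₁ isRegular_aleph_one aleph0_lt_aleph_one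
  have hcard : #(Ltype (ℵ₁ : Cardinal.{u})) = ℵ₁ := mk_ord_toType _
  have hseg : ∀ a : Ltype (ℵ₁ : Cardinal.{u}), (Iio a).Countable := by
    intro a
    have := hL.seg a
    rw [hcard] at this
    exact (countable_iff_lt_aleph_one _).2 this
  obtain ⟨B, S, hB, hdis, hS, hCw, hinf⟩ := hO
  set S1 : Set (Ltype (ℵ₁ : Cardinal.{u})) := {a | a ∈ S ∧ ∃ c < a, {x | (x < a ∧ Ed G (B x) (B a)) ∧ x < c}.Infinite}
    with hS1
  set S2 : Set (Ltype (ℵ₁ : Cardinal.{u})) := {a | a ∈ S ∧ ∀ c < a, {x | (x < a ∧ Ed G (B x) (B a)) ∧ x < c}.Finite}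
    with hS2
  have hun : S = S1 ∪ S2 := by
    ext a
    constructor
    · intro ha
      by_cases h : ∃ c < a, {x | (x < a ∧ Ed G (B x) (B a)) ∧ x < c}.Infinite
      · exact Or.inl ⟨ha, h⟩
      · push Not at h
        exact Or.inr ⟨ha, fun j hj => h j hj⟩
    · rintro (h | h)
      · exact h.1
      · exact h.1
  rw [hun] at hS
  rcases hs _ hL S1 S2 hS with hSt | hSt
  · -- the bipartite graph
    left
    have hex : ∀ i : (Ltype (ℵ₁ : Cardinal.{u})), ∃ j : (Ltype (ℵ₁ : Cardinal.{u})), i ∈ S1 → j < i ∧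
        {x | (x < i ∧ Ed G (B x) (B i)) ∧ x < j}.Infinite := by
      intro i
      by_cases hi : i ∈ S1
      · obtain ⟨j, h1, h2⟩ := hi.2
        exact ⟨j, fun _ => ⟨h1, h2⟩⟩
      · exact ⟨i, fun h => absurd h hi⟩
    choose f hf using hex
    obtain ⟨c, hc⟩ := hp _ hL S1 f hSt (fun a ha _ => (hf a ha).1)
    have hT := (hu _ hL _ hc).2
    set T : Set (Ltype (ℵ₁ : Cardinal.{u})) := {a | a ∈ S1 ∧ f a = c} with hTdef
    have hTc : ∀ a ∈ T, c < a ∧ {x | (x < a ∧ Ed G (B x) (B a)) ∧ x < c}.Infinite := by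
      rintro a ⟨h1, rfl⟩
      exact hf a h1
    refine ⟨(Iio c) ⊕ T, bip G (fun x : Iio c => B x.1) (fun a : T => B a.1), ?_, ?_⟩
    · have hne : T.Nonempty := by
        obtain ⟨a, ha, _⟩ := (hu _ hL _ hc).1 c
        exact ⟨a, ha⟩
      have hinfc : Infinite (Iio c) := by
        obtain ⟨a, ha⟩ := hne
        have h1 := (hTc a ha).2
        have h2 : (Iio c).Infinite := h1.mono (fun x hx => hx.2)
        exact h2.to_subtype
      have hcc : Countable (Iio c) := (hseg c).to_subtype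
      refine ⟨range Sum.inl, range Sum.inr, ?_, ?_, ?_, ?_, ?_, ?_⟩
      · rw [Set.disjoint_left]
        rintro _ ⟨x, rfl⟩ ⟨y, hy⟩
        exact absurd hy (by simp)
      · exact Set.range_inl_union_range_inr
      · rw [mk_range_eq _ Sum.inl_injective]
        exact mk_eq_aleph0 _
      · rw [mk_range_eq _ Sum.inr_injective, hT, hcard]
      · rintro x y (⟨a, b, rfl, rfl, _⟩ | ⟨a, b, rfl, rfl, _⟩)
        · exact Or.inl ⟨mem_range_self _, mem_range_self _⟩
        · exact Or.inr ⟨mem_range_self _, mem_range_self _⟩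
      · rintro _ ⟨a, rfl⟩
        have h1 := (hTc a.1 a.2).2
        have h2 : Set.MapsTo (fun x : (Ltype (ℵ₁ : Cardinal.{u})) => if h : x < c then
            (Sum.inl ⟨x, h⟩ : (Iio c) ⊕ T) else Sum.inr a)
            {x | (x < a.1 ∧ Ed G (B x) (B a.1)) ∧ x < c}
            ((bip G (fun x : Iio c => B x.1) (fun a : T => B a.1)).neighborSet (Sum.inr a)) := by
          intro x hx
          rw [SimpleGraph.mem_neighborSet]
          right
          refine ⟨⟨x, hx.2⟩, a, ?_, rfl, hx.1.2⟩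
          simp only
          rw [dif_pos hx.2]
        refine Set.infinite_of_injOn_mapsTo ?_ h2 h1
        intro x hx y hy hxy
        simp only at hxy
        rw [dif_pos hx.2, dif_pos hy.2] at hxy
        have := Sum.inl_injective hxy
        exact congrArg Subtype.val this
    · refine ⟨Sum.elim (fun x : Iio c => B x.1) (fun a : T => B a.1), ?_, ?_, ?_⟩
      · rintro (x | a)
        · exact ⟨(hB x.1).1, induce_connected (hB x.1).2⟩
        · exact ⟨(hB a.1).1, induce_connected (hB a.1).2⟩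
      · have hlt : ∀ (x : Iio c) (a : T), x.1 ≠ a.1 := fun x a =>
          (lt_trans x.2 (hTc a.1 a.2).1).ne
        rintro (x | a) (y | b) hxy
        · exact hdis _ _ (fun h => hxy (by rw [Subtype.ext h]))
        · exact hdis _ _ (hlt x b)
        · exact hdis _ _ (hlt y a).symm
        · exact hdis _ _ (fun h => hxy (by rw [Subtype.ext h]))
      · rintro x y (⟨a, b, rfl, rfl, h⟩ | ⟨a, b, rfl, rfl, h⟩)
        · exact h
        · exact Ed.symm h
  · -- the graph on the order
    right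
    refine ⟨lin G B, ⟨S2, (hst _ hL S2).2 hSt, ?_⟩, ?_⟩
    · intro s hs
      refine ⟨(hseg s).mono (fun x hx => hx.1), ?_⟩
      intro y hy
      have h1 := hinf s hs.1
      have h2 := hs.2 y hy
      obtain ⟨x, hx, hx2⟩ := h1.exists_notMem_finite h2
      refine ⟨x, ?_, hx.1, hx.1.ne', Ed.symm hx.2⟩
      by_contra h
      exact hx2 ⟨hx, not_le.1 h⟩
    · refine ⟨B, fun x => ⟨(hB x).1, induce_connected (hB x).2⟩, hdis, ?_⟩
      intro x y h
      exact h.2

end Pool.Agent.W910.NS.T_F2
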