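import Pool.Agent.W910.NS.All1
import Pool.Agent.W910.NS.T_F2
import Pool.Agent.W910.NS.T_E1
import Pool.Agent.W910.NS.T_E2
import Pool.Agent.W910.NS.T_E3
import Pool.Agent.W910.NS.T_E4
import Pool.Agent.W910.NS.T_E5
import Pool.Agent.W910.NS.T_E6
import Pool.Agent.W910.NS.T_E7
import Pool.Agent.W910.NS.T_E8
import Pool.Agent.W910.NS.T_E9
import Pool.Agent.W910.NS.T_E11
import Pool.Agent.W910.NS.Stmts3

/-! Assembly, part 2. -/

set_option autoImplicit false

open Cardinal Set

namespace Pool.Agent.W910.NS.All2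

open Pool.Agent.W910.NS

universe u

theorem minor : S_minor.{u} :=
  T_F2.main T_O2.reg T_O2.stat T_O1.press T_O1.split T_O1.inter T_O1.unb
theorem toNT : S_toNT.{u} := T_E2.main
theorem noObs : S_noObs.{u} := T_E3.main T_E1.down T_O2.stat T_O2.reg
theorem lgConn : S_lgConn.{u} := T_E4.conn
theorem lgNo : S_lgNo.{u} := T_E4.no T_E1.down T_O2.card
theorem lgNT : S_lgNT.{u} := T_E5.main
theorem obsSub : S_obsSub.{u} := T_E6.main
theorem conv : S_conv.{u} := T_E7.main T_O2.reg T_O2.stat toNT noObs lgConn lgNo lgNT obsSub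
theorem code : S_code.{u} := T_E8.main T_O1.inter
theorem ess : S_ess.{u} := T_E9.main
theorem frpAds : S_frpAds.{u} := T_E11.main T_O2.reg

/-- `FRP` gives the characterisation. -/
theorem frpSmall : FRP.{u} → SmallCharacterisation.{u} := All1.frpChar minor

/-- No `ADS⁻` up to `θ` gives the characterisation up to `θ`. -/
theorem upTo (ha : S_ads.{u}) (θ : Cardinal.{u})
    (h : ∀ κ : Cardinal.{u}, κ.IsRegular → ℵ₁ < κ → κ ≤ θ → ¬ ADSm κ) : SmallUpTo θ := by
  intro V G hV hG
  by_contra hcon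
  rw [not_or] at hcon
  obtain ⟨h1, h2⟩ := hcon
  have hn : ∀ κ : Cardinal.{u}, κ.IsRegular → ℵ₀ < κ → κ ≤ #V → ¬ Ob G (Ltype κ) := by
    intro κ
    induction κ using WellFoundedLT.induction with
    | ind κ ih =>
      intro hκ h0 hκV hO
      have hle : ℵ₁ ≤ κ := by
        rw [← Cardinal.succ_aleph0]; exact Order.succ_le_of_lt h0
      rcases hle.eq_or_lt with he | hlt
      · subst he
        exact h2 (minor V G hO)
      · refine h κ hκ hlt (hκV.trans hV) (ha V G κ hG hκ hlt hO ?_)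
        intro A hA hCS
        obtain ⟨e1, e2⟩ := T_G15.sub1 V G A hCS
        refine e2 fun r => ?_
        refine All1.main2 A (G.induce A) e1 (fun κ' hκ' h0' hκA hOb => ?_) r
        exact ih κ' (hκA.trans_lt hA) hκ' h0' (hκA.trans (mk_set_le A))
          (T_G15.sub2 V G A (Ltype κ') hOb)
  have : Nonempty V := hG.nonempty
  obtain ⟨r⟩ := this
  obtain ⟨le, hle⟩ := All1.main2 V G hG hn r
  exact h1 (T_F1.main V G r le hle)

theorem small_iff : SmallCharacterisation.{u} ↔ ∀ θ : Cardinal.{u}, SmallUpTo θ :=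
  ⟨fun h _ V G _ hG => h V G hG, fun h V G hG => h #V V G le_rfl hG⟩

end Pool.Agent.W910.NS.All2
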