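import Pool.Agent.W910.NS.Stmts2

/-! NS-E10: from an obstruction to `ADS⁻`. -/

set_option autoImplicit false

open Cardinal Set

namespace Pool.Agent.W910.NS.T_E10

open Pool.Agent.W910.NS

universe u

theorem cof_Iio_of_Cw {L : Type u} [LinearOrder L] [WellFoundedLT L] {a : L} (h : Cw a) :
    Order.cof (Iio a) = ℵ₀ := by
  obtain ⟨v, hv, hc⟩ := h
  have hne : Nonempty (Iio a) := ⟨⟨v 0, hv 0⟩⟩
  have hnm : NoMaxOrder (Iio a) := by
    refine ⟨fun b => ?_⟩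
    obtain ⟨n, hn⟩ := hc b.1 b.2
    exact ⟨⟨v n, hv n⟩, hn⟩
  refine le_antisymm ?_ Order.aleph0_le_cof
  have hcof : IsCofinal (range fun n : ℕ => (⟨v n, hv n⟩ : Iio a)) := by
    intro b
    obtain ⟨n, hn⟩ := hc b.1 b.2
    exact ⟨⟨v n, hv n⟩, ⟨n, rfl⟩, le_of_lt hn⟩
  exact (Order.cof_le hcof).trans (Cardinal.le_aleph0_iff_set_countable.2 (countable_range _))

theorem main (hr : S_reg.{u}) (hst : S_stat.{u}) (hk : S_card.{u}) (hc : S_clos.{u})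
    (hp : S_clop.{u}) (hco : S_code.{u}) (he : S_ess.{u}) (hto : S_treeOp.{u}) :
    S_ads.{u} := by
  intro V G κ hG hκ hκ1 hOb hNT
  have hκ0 : ℵ₀ < κ := Cardinal.aleph0_lt_aleph_one.trans hκ1
  have hReg : Reg (Ltype κ) := hr κ hκ hκ0
  have hLκ : #(Ltype κ) = κ := mk_ord_toType κ
  obtain ⟨B, S0, hB, hBd, hS0, hCw, hInf⟩ := hOb
  obtain ⟨S', A, D, hS'S, hS'St, hDc, hA, hAA, hAK⟩ := hco (Ltype κ) hReg S0
    (fun a => {x | x < a ∧ Ed G (B x) (B a)}) hS0 hCw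
    (fun a ha => ⟨fun x hx => hx.1, hInf a ha⟩)
  refine ⟨S', A, (hst _ hReg S').2 hS'St, fun a ha => cof_Iio_of_Cw (hCw a (hS'S ha)), hA,
    fun β => ?_⟩
  obtain ⟨r, hrβ⟩ := (hB β).2.1
  obtain ⟨F, hF⟩ := hc V G
  obtain ⟨cl, hcl1, hcl2, _, hcl4, _⟩ := hp V PUnit.{u + 1} (fun _ => F)
  obtain ⟨b, hb⟩ := hReg.bd {β} (by
    rw [Cardinal.mk_singleton, hLκ]
    exact Cardinal.one_lt_aleph0.trans hκ0)
  have hβb : β < b := hb β rfl
  have hX : #(⋃ x : Iio b, B x.1 : Set V) < κ := by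
    have := (hk (Ltype κ) hReg).2 V (Iio b) (fun x => B x.1) (hReg.seg b) (fun x => by
      rw [hLκ]
      exact (Cardinal.le_aleph0_iff_set_countable.2 (hB x.1).1).trans_lt hκ0)
    rwa [hLκ] at this
  have hP : #(cl (⋃ x : Iio b, B x.1)) < κ := by
    refine (hcl4 _).trans_lt ?_
    refine max_lt (max_lt hX ?_) hκ0
    rw [Cardinal.mk_punit]
    exact Cardinal.one_lt_aleph0.trans hκ0
  have hBP : ∀ x, x < b → B x ⊆ cl (⋃ x : Iio b, B x.1) := by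
    intro x hx v hv
    exact hcl1 _ (mem_iUnion.2 ⟨⟨x, hx⟩, hv⟩)
  have hrP : r ∈ cl (⋃ x : Iio b, B x.1) := hBP β hβb hrβ
  have hCl : Cl G (cl (⋃ x : Iio b, B x.1)) := hF _ (fun s hs => hcl2 _ PUnit.unit s hs)
  have hCS : CS G (cl (⋃ x : Iio b, B x.1)) := by
    refine ⟨⟨r, hrP⟩, fun x hx y hy => ?_⟩
    have h1 := hCl x hx y hy ∅ Set.finite_empty (Set.empty_subset _)
      ((Cn.of_connected hG x y).mono (by simp))
    exact h1.mono (fun z hz => hz.1)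
  obtain ⟨le, hle⟩ := hNT _ hP hCS r hrP
  obtain ⟨E0, hE0c, hE0⟩ := hto V G _ r le hle (Ltype κ) (Iio β) B
    (fun x hx => ⟨(hB x).1, (hB x).2, hBP x (lt_trans hx hβb)⟩)
    (fun x _ y _ hxy => hBd x y hxy)
  obtain ⟨f, hf1, hf2⟩ := he (Ltype κ) {a | a ∈ S' ∧ a < β} A
    (fun x => (E0 x ∩ Iio β) ∪ D x)
    (fun x => ((hE0c x).mono inter_subset_left).union (hDc x))
    (fun a ha => ⟨(hA a ha.1).2.1, (hA a ha.1).2.2⟩)
    (fun a ha a' ha' hne => hAA a ha.1 a' ha'.1 hne)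
    (by
      intro a ha K hK haK
      refine hAK a ha.1 K (fun x hx y hy => hK x hx (Or.inr hy)) ?_
      have h1 := hE0 a ha.2 (K ∩ Iio β) inter_subset_right
        (fun x hx y hy => ⟨hK x hx.1 (Or.inl hy), hy.2⟩) (fun h => haK h.1)
      refine h1.subset ?_
      rintro x ⟨⟨hxa, hE⟩, hxK⟩
      exact ⟨⟨hxK, lt_trans hxa ha.2⟩, hE⟩)
  exact ⟨f, fun a ha hab => hf1 a ⟨ha, hab⟩,
    fun a ha hab a' ha' hab' hne => hf2 a ⟨ha, hab⟩ a' ⟨ha', hab'⟩ hne⟩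

end Pool.Agent.W910.NS.T_E10
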