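import Pool.Agent.W910.NS.Stmts3

/-! NS-E13: an obstruction of size aleph_1 in the ladder graph only uses aleph_1 indices. -/

set_option autoImplicit false

open Cardinal Set

namespace Pool.Agent.W910.NS.T_E13

universe u

/-- indices of a vertex of the ladder graph -/
def ind {L : Type u} : Finset L ⊕ L → Set L
  | Sum.inl s => (s : Set L)
  | Sum.inr a => {a}

theorem ind_countable {L : Type u} (p : Finset L ⊕ L) : (ind p).Countable := by
  rcases p with s | a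
  · exact s.countable_toSet
  · exact countable_singleton a

theorem ind_LV {L : Type u} [LinearOrder L] {b : L} {p : Finset L ⊕ L} (h : ∀ x ∈ ind p, x < b) :
    p ∈ LV b := by
  rcases p with s | a
  · exact Or.inl ⟨s, fun x hx => h x hx, rfl⟩
  · exact Or.inr ⟨a, h a rfl, rfl⟩

theorem adj_of {L : Type u} [LinearOrder L] {S I : Set L} {A : L → Set L} {p q : Finset L ⊕ L}
    (hp : ind p ⊆ I) (hq : ind q ⊆ I) (h : (LG S A).Adj p q) : (LG (S ∩ I) A).Adj p q := by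
  unfold LG at h ⊢
  rw [SimpleGraph.fromRel_adj] at h ⊢
  refine ⟨h.1, ?_⟩
  rcases h.2 with h | h
  · left
    rcases h with h | ⟨s, a, ha, hs, h1, h2⟩ | ⟨a, ha, h1, h2⟩
    · exact Or.inl h
    · refine Or.inr (Or.inl ⟨s, a, ⟨ha, ?_⟩, hs, h1, h2⟩)
      subst h2; exact hq rfl
    · exact Or.inr (Or.inr ⟨a, fun h3 => ha h3.1, h1, h2⟩)
  · right
    rcases h with h | ⟨s, a, ha, hs, h1, h2⟩ | ⟨a, ha, h1, h2⟩
    · exact Or.inl h
    · refine Or.inr (Or.inl ⟨s, a, ⟨ha, ?_⟩, hs, h1, h2⟩)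
      subst h2; exact hp rfl
    · exact Or.inr (Or.inr ⟨a, fun h3 => ha h3.1, h1, h2⟩)

theorem key {L : Type u} [LinearOrder L] (S : Set L) (A : L → Set L) {W : Type u}
    (H : SimpleGraph W) (hW : #W ≤ ℵ₁) (hm : IsCountableMinor H (LG S A)) :
    ∃ I₀ : Set L, #I₀ ≤ ℵ₁ ∧ ∀ I : Set L, I₀ ⊆ I → ∀ b, (∀ x ∈ I, x < b) →
      IsCountableMinor H ((LG (S ∩ I) A).induce (LV b)) := by
  obtain ⟨B, hB, hdis, hadj⟩ := hm
  refine ⟨⋃ w : W, ⋃ p ∈ B w, ind p, ?_, ?_⟩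
  · refine (Cardinal.mk_iUnion_le _).trans ?_
    have h1 : (⨆ w : W, #(⋃ p ∈ B w, ind p : Set L)) ≤ ℵ₀ := by
      refine ciSup_le' fun w => ?_
      rw [Cardinal.le_aleph0_iff_set_countable]
      exact (hB w).1.biUnion fun p _ => ind_countable p
    calc #W * (⨆ w : W, #(⋃ p ∈ B w, ind p : Set L)) ≤ ℵ₁ * ℵ₁ :=
          mul_le_mul' hW (h1.trans Cardinal.aleph0_lt_aleph_one.le)
      _ = ℵ₁ := Cardinal.mul_eq_self Cardinal.aleph0_lt_aleph_one.le
  · intro I hI b hb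
    have hind : ∀ w, ∀ p ∈ B w, ind p ⊆ I := by
      intro w p hp x hx
      exact hI (mem_iUnion.2 ⟨w, mem_iUnion₂.2 ⟨p, hp, hx⟩⟩)
    have hLV : ∀ w, ∀ p ∈ B w, p ∈ LV b := fun w p hp => ind_LV fun x hx => hb x (hind w p hp hx)
    refine ⟨fun w => Subtype.val ⁻¹' (B w), fun w => ⟨(hB w).1.preimage Subtype.val_injective, ?_⟩,
      fun x y hxy => ?_, fun x y hxy => ?_⟩
    · let f : (LG S A).induce (B w) →g
          ((LG (S ∩ I) A).induce (LV b)).induce (Subtype.val ⁻¹' (B w)) :=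
        { toFun := fun p => ⟨⟨p.1, hLV w p.1 p.2⟩, p.2⟩
          map_rel' := fun {p q} hpq => adj_of (hind w _ p.2) (hind w _ q.2) hpq }
      exact (hB w).2.map f (fun p => ⟨⟨p.1.1, p.2⟩, rfl⟩)
    · exact (hdis x y hxy).preimage _
    · obtain ⟨p, hp, q, hq, hpq⟩ := hadj x y hxy
      exact ⟨⟨p, hLV _ p hp⟩, hp, ⟨q, hLV _ q hq⟩, hq, adj_of (hind _ p hp) (hind _ q hq) hpq⟩

theorem main : S_tr.{u} := by
  intro L _ S A h
  rcases h with ⟨W, H, hH, hm⟩ | ⟨H, hH, hm⟩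
  · have hW : #W ≤ ℵ₁ := by
      obtain ⟨X, Y, -, hXY, hX, hY, -⟩ := hH
      rw [← Cardinal.mk_univ, ← hXY]
      refine (Cardinal.mk_union_le X Y).trans ?_
      rw [hX, hY]
      exact Cardinal.add_le_of_le Cardinal.aleph0_lt_aleph_one.le
        Cardinal.aleph0_lt_aleph_one.le le_rfl
    obtain ⟨I₀, h1, h2⟩ := key S A H hW hm
    exact ⟨I₀, h1, fun I hI b hb => Or.inl ⟨W, H, hH, h2 I hI b hb⟩⟩
  · obtain ⟨I₀, h1, h2⟩ := key S A H (Cardinal.mk_ord_toType _).le hm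
    exact ⟨I₀, h1, fun I hI b hb => Or.inr ⟨H, hH, h2 I hI b hb⟩⟩

end Pool.Agent.W910.NS.T_E13
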