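import Pool.Agent.W910.NS.All2
import Pool.Agent.W910.NS.T_E10
import Pool.Agent.W910.NS.T_E12
import Pool.Agent.W910.NS.T_E13

/-! Assembly, part 3. -/

set_option autoImplicit false

open Cardinal Set

namespace Pool.Agent.W910.NS.All3

open Pool.Agent.W910.NS

universe u

theorem ads : S_ads.{u} :=
  T_E10.main T_O2.reg T_O2.stat T_O2.card T_G6.clos T_G6.clop All2.code All2.ess T_E1.treeOp
theorem code2 : S_code2.{u} := T_E12.main T_O1.inter
theorem tr : S_tr.{u} := T_E13.main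

theorem adsUpTo (θ : Cardinal.{u})
    (h : ∀ κ : Cardinal.{u}, κ.IsRegular → ℵ₁ < κ → κ ≤ θ → ¬ ADSm κ) : SmallUpTo θ :=
  All2.upTo ads θ h

theorem frpUpTo (θ : Cardinal.{u})
    (h : ∀ κ : Cardinal.{u}, κ.IsRegular → ℵ₁ < κ → κ ≤ θ → FRPAt κ) : SmallUpTo θ :=
  adsUpTo θ fun κ a b c => All2.frpAds κ a b (h κ a b c)

theorem mono {θ κ : Cardinal.{u}} (h : κ ≤ θ) (hs : SmallUpTo θ) : SmallUpTo κ :=
  fun V G hV hG => hs V G (hV.trans h) hG

end Pool.Agent.W910.NS.All3
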