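import Pool.Agent.W910.NS.Defs

/-! Connectivity inside a set: basic lemmas. -/

set_option autoImplicit false

open Cardinal Set

namespace Pool.Agent.W910.NS

universe u

variable {V : Type u} {G : SimpleGraph V}

theorem Cn.refl {B : Set V} {x : V} (h : x ∈ B) : Cn G B x x :=
  ⟨SimpleGraph.Walk.nil, by simpa using h⟩

theorem Cn.symm {B : Set V} {x y : V} (h : Cn G B x y) : Cn G B y x := by
  obtain ⟨p, hp⟩ := h
  exact ⟨p.reverse, by simpa [SimpleGraph.Walk.support_reverse] using hp⟩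

theorem Cn.trans {B : Set V} {x y z : V} (h : Cn G B x y) (h' : Cn G B y z) : Cn G B x z := by
  obtain ⟨p, hp⟩ := h
  obtain ⟨q, hq⟩ := h'
  refine ⟨p.append q, fun t ht => ?_⟩
  rcases SimpleGraph.Walk.mem_support_append_iff .. |>.1 ht with h | h
  · exact hp t h
  · exact hq t h

theorem Cn.mono {B C : Set V} (h : B ⊆ C) {x y : V} (hc : Cn G B x y) : Cn G C x y := by
  obtain ⟨p, hp⟩ := hc
  exact ⟨p, fun t ht => h (hp t ht)⟩

theorem Cn.left {B : Set V} {x y : V} (h : Cn G B x y) : x ∈ B := by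
  obtain ⟨p, hp⟩ := h
  exact hp x p.start_mem_support

theorem Cn.right {B : Set V} {x y : V} (h : Cn G B x y) : y ∈ B := by
  obtain ⟨p, hp⟩ := h
  exact hp y p.end_mem_support

theorem Cn.adj {B : Set V} {x y : V} (hx : x ∈ B) (hy : y ∈ B) (h : G.Adj x y) : Cn G B x y :=
  ⟨SimpleGraph.Walk.cons h SimpleGraph.Walk.nil, by
    intro z hz
    simp only [SimpleGraph.Walk.support_cons, SimpleGraph.Walk.support_nil, List.mem_cons,
      List.not_mem_nil, or_false] at hz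
    rcases hz with h | h
    · exact h ▸ hx
    · exact h ▸ hy⟩

/-- Induction along a walk inside `B`, from the end. -/
theorem Cn.ind {B : Set V} {y : V} {P : V → Prop} (hy : P y)
    (hs : ∀ a b, a ∈ B → b ∈ B → G.Adj a b → Cn G B b y → P b → P a)
    {x : V} (h : Cn G B x y) : P x := by
  obtain ⟨p, hp⟩ := h
  induction p with
  | nil => exact hy
  | cons h q ih =>
    rw [SimpleGraph.Walk.support_cons] at hp
    have hq : ∀ z ∈ q.support, z ∈ B := fun z hz => hp z (List.mem_cons_of_mem _ hz)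
    exact hs _ _ (hp _ List.mem_cons_self) (hq _ q.start_mem_support) h ⟨q, hq⟩ (ih hy hs hq)

/-- A walk inside `B` starting in `C` either stays in `C` or uses an edge of `B` leaving `C`. -/
theorem Cn.exit {B C : Set V} {x y : V} (h : Cn G B x y) (hx : x ∈ C) (hy : y ∉ C) :
    ∃ a b, Cn G (B ∩ C) x a ∧ a ∈ C ∧ b ∉ C ∧ b ∈ B ∧ G.Adj a b := by
  revert hx
  refine Cn.ind (P := fun x => x ∈ C → ∃ a b, Cn G (B ∩ C) x a ∧ a ∈ C ∧ b ∉ C ∧ b ∈ B ∧ G.Adj a b)
    (fun h => absurd h hy) ?_ h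
  intro a b ha hb hab _ ih haC
  by_cases hbC : b ∈ C
  · obtain ⟨c, d, h1, h2⟩ := ih hbC
    exact ⟨c, d, Cn.trans (Cn.adj (B := B ∩ C) ⟨ha, haC⟩ ⟨hb, hbC⟩ hab) h1, h2⟩
  · exact ⟨a, b, Cn.refl ⟨ha, haC⟩, haC, hbC, hb, hab⟩

/-- If no edge of `B` leaves `C`, walks inside `B` starting in `C` stay in `C`. -/
theorem Cn.stay {B C : Set V} (hC : ∀ a b, a ∈ B → a ∈ C → b ∈ B → G.Adj a b → b ∈ C) {x y : V}
    (h : Cn G B x y) (hx : x ∈ C) : Cn G (B ∩ C) x y := by
  revert hx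
  refine Cn.ind (P := fun x => x ∈ C → Cn G (B ∩ C) x y) (fun hyC => Cn.refl ⟨h.right, hyC⟩) ?_ h
  intro a b ha hb hab _ ih haC
  have hbC := hC a b ha haC hb hab
  exact Cn.trans (Cn.adj (B := B ∩ C) ⟨ha, haC⟩ ⟨hb, hbC⟩ hab) (ih hbC)

theorem Cn.finite {B : Set V} {x y : V} (h : Cn G B x y) :
    ∃ s : Finset V, x ∈ s ∧ y ∈ s ∧ (∀ z ∈ s, z ∈ B) ∧ ∀ z ∈ s, Cn G (s : Set V) x z ∧
      Cn G (s : Set V) z y := by
  classical
  obtain ⟨p, hp⟩ := h
  refine ⟨p.support.toFinset, by simp, by simp, by simpa using hp, fun z hz => ?_⟩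
  have hz' : z ∈ p.support := by simpa using hz
  constructor
  · refine ⟨p.takeUntil z hz', fun t ht => ?_⟩
    simpa using p.support_takeUntil_subset_support hz' ht
  · refine ⟨p.dropUntil z hz', fun t ht => ?_⟩
    simpa using p.support_dropUntil_subset_support hz' ht

theorem Cn.connected [Nonempty V] (h : ∀ x y, Cn G (Set.univ) x y) : G.Connected :=
  ⟨fun x y => by obtain ⟨p, _⟩ := h x y; exact ⟨p⟩⟩

theorem Cn.of_connected (h : G.Connected) (x y : V) : Cn G Set.univ x y := by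
  obtain ⟨p⟩ := h.preconnected x y
  exact ⟨p, fun z _ => mem_univ z⟩

end Pool.Agent.W910.NS
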