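import Mathlib

/-! Normal spanning trees and obstructions of size `ℵ₁`: internal definitions. -/

set_option autoImplicit false

open Cardinal Set

namespace Pool.Agent.W910.NS

universe u

/-! ### Graphs -/

section Graph

variable {V : Type u} (G : SimpleGraph V)

/-- `x` and `y` are joined by a walk inside the set `B`. -/
def Cn (B : Set V) (x y : V) : Prop := ∃ p : G.Walk x y, ∀ z ∈ p.support, z ∈ B

/-- `A` is a nonempty connected set of vertices. -/
def CS (A : Set V) : Prop := A.Nonempty ∧ ∀ x ∈ A, ∀ y ∈ A, Cn G A x y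

/-- The neighbours in `U` of the component of `x` outside `U`. -/
def Nb (U : Set V) (x : V) : Set V := {v | v ∈ U ∧ ∃ y, Cn G Uᶜ x y ∧ G.Adj y v}

/-- Every component outside `U` has only finitely many neighbours in `U`. -/
def FA (U : Set V) : Prop := ∀ x, x ∉ U → (Nb G U x).Finite

/-- Two points of `U` which are joined outside a finite subset `S` of `U` are joined inside
`U \ S`. -/
def Cl (U : Set V) : Prop :=
  ∀ x ∈ U, ∀ y ∈ U, ∀ S : Set V, S.Finite → S ⊆ U → Cn G Sᶜ x y → Cn G (U \ S) x y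

/-- A normal spanning tree of the graph induced on `A`, with root `r`, given by its tree order. -/
structure NT (A : Set V) (r : V) (le : V → V → Prop) : Prop where
  dom : ∀ x y, le x y → x ∈ A ∧ y ∈ A
  rfl' : ∀ x ∈ A, le x x
  tr : ∀ x y z, le x y → le y z → le x z
  asy : ∀ x y, le x y → le y x → x = y
  rootMem : r ∈ A
  root : ∀ x ∈ A, le r x
  fin : ∀ x, {y | le y x}.Finite
  chain : ∀ x y z, le x z → le y z → le x y ∨ le y x
  pred : ∀ x ∈ A, x ≠ r → ∃ y, le y x ∧ y ≠ x ∧ G.Adj y x ∧ ∀ z, le z x → z ≠ x → le z y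
  norm : ∀ x ∈ A, ∀ y ∈ A, G.Adj x y → le x y ∨ le y x

/-- The tree on `A` is normal in the whole graph. -/
def NIn (A : Set V) (le : V → V → Prop) : Prop :=
  ∀ x, x ∉ A → ∀ v ∈ Nb G A x, ∀ w ∈ Nb G A x, le v w ∨ le w v

/-- `le'` is an end extension of the order `le` on `A`. -/
def Ext {V : Type u} (A : Set V) (le le' : V → V → Prop) : Prop :=
  ∀ x y, y ∈ A → (le' x y ↔ le x y)

/-- The graph induced on `A` has a normal spanning tree with every root. -/
def HasNT (A : Set V) : Prop := ∀ r ∈ A, ∃ le : V → V → Prop, NT G A r le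

/-- There is an edge between `A` and `B`. -/
def Ed (A B : Set V) : Prop := ∃ a ∈ A, ∃ b ∈ B, G.Adj a b

end Graph

/-! ### Well orders of regular length -/

section Order

variable (L : Type u) [LinearOrder L] [WellFoundedLT L]

/-- `L` is a well order whose length is a regular uncountable cardinal. -/
structure Reg : Prop where
  unc : ℵ₀ < #L
  seg : ∀ a : L, #(Iio a) < #L
  bd : ∀ A : Set L, #A < #L → ∃ b, ∀ a ∈ A, a < b

variable {L}

/-- Limit points. -/
def Lm (δ : L) : Prop := (∃ a, a < δ) ∧ ∀ a < δ, ∃ b, a < b ∧ b < δ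

/-- Points of cofinality `ω`. -/
def Cw (δ : L) : Prop := ∃ a : ℕ → L, (∀ n, a n < δ) ∧ ∀ b < δ, ∃ n, b < a n

/-- `S` contains a limit point closed under any given function: `S` is stationary. -/
def St (S : Set L) : Prop := ∀ f : L → L, ∃ δ ∈ S, Lm δ ∧ ∀ a < δ, f a < δ

/-- `W` is an increasing continuous chain of sets of size less than the length of `L`. -/
structure Fil {X : Type u} (W : L → Set X) : Prop where
  mono : ∀ i j, i ≤ j → W i ⊆ W j
  cont : ∀ i, Lm i → W i ⊆ ⋃ j ∈ Iio i, W j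
  small : ∀ i, #(W i) < #L

/-- The form of the Fodor-type Reflection Principle used here. -/
def FR (L : Type u) [LinearOrder L] [WellFoundedLT L] : Prop :=
  ∀ (S : Set L) (g : L → Set L), St S → (∀ a ∈ S, Cw a) → (∀ a, (g a).Countable) →
    (∀ a ∈ S, (g a).Nonempty ∧ ∀ b ∈ g a, b < a) →
    ∃ I : Set L, #I = ℵ₁ ∧ (∀ a ∈ S ∩ I, g a ⊆ I) ∧
      ∀ f : L → L, (∀ a ∈ S ∩ I, f a ∈ g a) → ∃ c, ¬ ({a | a ∈ S ∩ I ∧ f a = c}).Countable

end Order

/-! ### Obstructions -/

section Obs

variable {V : Type u} (G : SimpleGraph V)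

/-- Obstruction of length `L`: disjoint countable connected branch sets indexed by `L`, and a
stationary set of indices (of cofinality `ω`) whose branch sets have infinitely many smaller
neighbours. -/
def Ob (L : Type u) [LinearOrder L] [WellFoundedLT L] : Prop :=
  ∃ (B : L → Set V) (S : Set L), (∀ x, (B x).Countable ∧ CS G (B x)) ∧
    (∀ x y, x ≠ y → Disjoint (B x) (B y)) ∧ St S ∧ (∀ a ∈ S, Cw a) ∧
    ∀ a ∈ S, {x | x < a ∧ Ed G (B x) (B a)}.Infinite

/-- The same, for a filtration of a family of branch sets. -/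
def Obf (L : Type u) [LinearOrder L] [WellFoundedLT L] : Prop :=
  ∃ (W : L → Set (Set V)) (w : L → Set V) (S : Set L), Fil W ∧
    (∀ B ∈ ⋃ i, W i, B.Countable ∧ CS G B) ∧
    (∀ B ∈ ⋃ i, W i, ∀ B' ∈ ⋃ i, W i, B ≠ B' → Disjoint B B') ∧
    St S ∧ (∀ a ∈ S, Cw a) ∧
    ∀ a ∈ S, w a ∈ ⋃ i, W i ∧ w a ∉ W a ∧ {B | B ∈ W a ∧ Ed G B (w a)}.Infinite

/-- A family of sets of vertices by which `V` can be exhausted. -/
structure GF (r : V) (F : Set (Set V)) : Prop where
  ne : F.Nonempty
  mem : ∀ U ∈ F, r ∈ U ∧ Cl G U ∧ FA G U ∧ #U < #V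
  tot : IsChain (· ⊆ ·) F
  un : ∀ C ⊆ F, C.Nonempty → ⋃₀ C ∈ F ∨ ⋃₀ C = Set.univ
  cov : ∀ x, ∃ U ∈ F, x ∈ U

end Obs

/-- The well order of length `κ`. -/
abbrev Ltype (κ : Cardinal.{u}) : Type u := κ.ord.ToType

end Pool.Agent.W910.NS
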