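import Mathlib

/-!
# Normal spanning trees, minors with countable branch sets, the Fodor-type Reflection Principle

The definitions used in the final statement.
-/

set_option autoImplicit false

open Cardinal Set

namespace Pool.Agent.W910.NS

universe u

section

variable {V W : Type u}

/-- The tree order of the rooted tree `T`: `x ≤ y` if `x` lies on the path from the root to `y`. -/
def TreeLe (T : SimpleGraph V) (r x y : V) : Prop :=
  ∀ p : T.Walk r y, p.IsPath → x ∈ p.support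

/-- `G` has a normal spanning tree: a spanning tree `T` with a root `r` such that the ends of every
edge of `G` are comparable in the tree order. -/
def HasNormalSpanningTree (G : SimpleGraph V) : Prop :=
  ∃ (T : SimpleGraph V) (r : V), T ≤ G ∧ T.IsTree ∧
    ∀ x y, G.Adj x y → TreeLe T r x y ∨ TreeLe T r y x

/-- `H` is a minor of `G` with countable branch sets. -/
def IsCountableMinor (H : SimpleGraph W) (G : SimpleGraph V) : Prop :=
  ∃ B : W → Set V, (∀ x, (B x).Countable ∧ (G.induce (B x)).Connected) ∧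
    (∀ x y, x ≠ y → Disjoint (B x) (B y)) ∧
    ∀ x y, H.Adj x y → ∃ a ∈ B x, ∃ b ∈ B y, G.Adj a b

/-- `H` is an `(ℵ₀, ℵ₁)`-graph: bipartite with sides `A`, `B` of size `ℵ₀`, `ℵ₁`, and every vertex
of `B` has infinite degree. -/
def IsAlephGraph (H : SimpleGraph W) : Prop :=
  ∃ A B : Set W, Disjoint A B ∧ A ∪ B = Set.univ ∧ #A = ℵ₀ ∧ #B = ℵ₁ ∧
    (∀ x y, H.Adj x y → (x ∈ A ∧ y ∈ B) ∨ (x ∈ B ∧ y ∈ A)) ∧
    ∀ b ∈ B, (H.neighborSet b).Infinite

/-- `H` is an `(ω₁, S)`-graph for some stationary `S ⊆ ω₁`: its vertex set is `ω₁`, and every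
`s ∈ S` has countably many neighbours below `s`, and these are cofinal in `s`. -/
def IsStatGraph (H : SimpleGraph (ℵ₁ : Cardinal.{u}).ord.ToType) : Prop :=
  ∃ S : Set (ℵ₁ : Cardinal.{u}).ord.ToType, IsStationary S ∧ ∀ s ∈ S,
    {x | x < s ∧ H.Adj s x}.Countable ∧ ∀ y < s, ∃ x, y ≤ x ∧ x < s ∧ H.Adj s x

/-- `G` contains, as a minor with countable branch sets, an `(ℵ₀, ℵ₁)`-graph or an
`(ω₁, S)`-graph for some stationary set `S ⊆ ω₁`. -/
def SmallObstruction (G : SimpleGraph V) : Prop :=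
  (∃ (W : Type u) (H : SimpleGraph W), IsAlephGraph H ∧ IsCountableMinor H G) ∨
  ∃ H : SimpleGraph (ℵ₁ : Cardinal.{u}).ord.ToType, IsStatGraph H ∧ IsCountableMinor H G

end

/-- The Fodor-type Reflection Principle at `κ` (Fuchino, Juhász, Soukup, Szentmiklóssy, Usuba): for
every stationary set `S` of points of cofinality `ω` of `κ` and every `g : S → [κ]^{≤ ℵ₀}` there is
`I ∈ [κ]^{ℵ₁}` of cofinality `ω₁` such that `g(a) ⊆ I` for `a ∈ I ∩ S`, and for every regressive
`f : S ∩ I → κ` with `f(a) ∈ g(a)` some fibre of `f` is stationary in `sup I`. -/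
def FRPAt (κ : Cardinal.{u}) : Prop :=
  ∀ S : Set κ.ord.ToType, IsStationary S → (∀ a ∈ S, Order.cof (Iio a) = ℵ₀) →
    ∀ g : κ.ord.ToType → Set κ.ord.ToType, (∀ a ∈ S, (g a).Countable) →
      ∃ I : Set κ.ord.ToType, #I = ℵ₁ ∧ Order.cof I = ℵ₁ ∧ (∀ a ∈ I ∩ S, g a ⊆ I) ∧
        ∃ δ, IsLUB I δ ∧ ∀ f : κ.ord.ToType → κ.ord.ToType,
          (∀ a ∈ S ∩ I, f a < a ∧ f a ∈ g a) →
            ∃ c, IsStationary {x : Iio δ | (x : κ.ord.ToType) ∈ S ∩ I ∧ f x = c}

/-- The Fodor-type Reflection Principle. -/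
def FRP : Prop := ∀ κ : Cardinal.{u}, κ.IsRegular → ℵ₁ < κ → FRPAt κ

end Pool.Agent.W910.NS
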