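import Pool.Agent.W910.NS.Off

/-! The principle `ADS⁻(κ)` of Fuchino, Sakai, Soukup and Usuba. -/

set_option autoImplicit false

open Cardinal Set

namespace Pool.Agent.W910.NS

universe u

/-- `ADS⁻(κ)`: there are a stationary set `S` of points of cofinality `ω` of `κ` and sets
`A a ⊆ a` of order type `ω` (`a ∈ S`) such that for every `β < κ` the sets `A a`, `a ∈ S ∩ β`,
become pairwise disjoint after removing a proper initial segment from each of them. -/
def ADSm (κ : Cardinal.{u}) : Prop :=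
  ∃ (S : Set κ.ord.ToType) (A : κ.ord.ToType → Set κ.ord.ToType), IsStationary S ∧
    (∀ a ∈ S, Order.cof (Iio a) = ℵ₀) ∧
    (∀ a ∈ S, (∀ x ∈ A a, x < a) ∧ (A a).Infinite ∧ ∀ b ∈ A a, (A a ∩ Iio b).Finite) ∧
    ∀ β, ∃ f : κ.ord.ToType → κ.ord.ToType, (∀ a ∈ S, a < β → ∃ x ∈ A a, f a < x) ∧
      ∀ a ∈ S, a < β → ∀ a' ∈ S, a' < β → a ≠ a' →
        Disjoint (A a \ Iio (f a)) (A a' \ Iio (f a'))

/-- Every connected graph has a normal spanning tree, or an obstruction of size `ℵ₁`. -/
def SmallCharacterisation : Prop :=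
  ∀ (V : Type u) (G : SimpleGraph V), G.Connected → HasNormalSpanningTree G ∨ SmallObstruction G

end Pool.Agent.W910.NS
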