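import Pool.Agent.W910.NS.Basic
import Pool.Agent.W910.NS.Off

/-! Statements of the parts of the proof. -/

set_option autoImplicit false

open Cardinal Set

namespace Pool.Agent.W910.NS

universe u

/-! ### Order part -/

def S_press : Prop := ∀ (L : Type u) [LinearOrder L] [WellFoundedLT L], Reg L →
  ∀ (S : Set L) (f : L → L), St S → (∀ a ∈ S, Lm a → f a < a) → ∃ c, St {a | a ∈ S ∧ f a = c}

def S_split : Prop := ∀ (L : Type u) [LinearOrder L] [WellFoundedLT L], Reg L →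
  ∀ (A B : Set L), St (A ∪ B) → St A ∨ St B

def S_inter : Prop := ∀ (L : Type u) [LinearOrder L] [WellFoundedLT L], Reg L →
  ∀ (S : Set L) (f : L → L), St S → St {a | a ∈ S ∧ Lm a ∧ ∀ b < a, f b < a}

def S_unb : Prop := ∀ (L : Type u) [LinearOrder L] [WellFoundedLT L], Reg L →
  ∀ (S : Set L), St S → (∀ c, ∃ a ∈ S, c < a) ∧ #S = #L

def S_Cw : Prop := ∀ (L : Type u) [LinearOrder L] [WellFoundedLT L], Reg L →
  ∀ c : L, St {a | Cw a ∧ c ≤ a}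

def S_Cw1 : Prop := ∀ (L : Type u) [LinearOrder L] [WellFoundedLT L], Reg L → #L = ℵ₁ →
  ∀ a : L, Lm a → Cw a

def S_stat : Prop := ∀ (L : Type u) [LinearOrder L] [WellFoundedLT L], Reg L →
  ∀ S : Set L, IsStationary S ↔ St S

def S_reg : Prop := ∀ κ : Cardinal.{u}, κ.IsRegular → ℵ₀ < κ → Reg (Ltype κ)

def S_card : Prop := ∀ (L : Type u) [LinearOrder L] [WellFoundedLT L], Reg L →
  (#L).IsRegular ∧ ∀ (X ι : Type u) (A : ι → Set X), #ι < #L → (∀ i, #(A i) < #L) →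
    #(⋃ i, A i : Set X) < #L

def S_swap : Prop := ∀ (L : Type u) [LinearOrder L] [WellFoundedLT L], Reg L →
  ∀ (X : Type u) (W : L → Set X) (w : L → X) (S : Set L), Fil W → St S →
    (∀ a ∈ S, w a ∈ ⋃ i, W i ∧ w a ∉ W a) →
    ∃ (e : L → X) (S' : Set L), S' ⊆ S ∧ Function.Injective e ∧ (∀ x, e x ∈ ⋃ i, W i) ∧ St S' ∧
      ∀ a ∈ S', e '' (Iio a) = W a ∧ e a = w a

def S_ob : Prop := ∀ (L : Type u) [LinearOrder L] [WellFoundedLT L], Reg L →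
  ∀ (V : Type u) (G : SimpleGraph V), Obf G L → Ob G L

def S_red : Prop := ∀ (L : Type u) [LinearOrder L] [WellFoundedLT L], Reg L → ℵ₁ < #L → FR L →
  ∀ (V : Type u) (G : SimpleGraph V), Ob G L → Ob G (Ltype (ℵ₁ : Cardinal.{u}))

/-! ### Trees -/

def S_step : Prop := ∀ (V : Type u) (G : SimpleGraph V) (A A' : Set V) (r : V)
  (le : V → V → Prop), G.Connected → NT G A r le → FA G A → NIn G A le → A ⊆ A' → Cl G A' →
  (∀ B ⊆ A', CS G B → HasNT G B) → ∃ le', NT G A' r le' ∧ Ext A le le'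

def S_base : Prop := ∀ (V : Type u) (G : SimpleGraph V) (A : Set V) (r : V)
  (le : V → V → Prop), G.Connected → Cl G A → NT G A r le → NIn G A le

def S_union : Prop := ∀ (V : Type u) (G : SimpleGraph V) (r : V)
  (P : Set (Set V × (V → V → Prop))), P.Nonempty → (∀ p ∈ P, NT G p.1 r p.2 ∧ NIn G p.1 p.2) →
  (∀ p ∈ P, ∀ q ∈ P, (p.1 ⊆ q.1 ∧ Ext p.1 p.2 q.2) ∨ (q.1 ⊆ p.1 ∧ Ext q.1 q.2 p.2)) →
  ∃ le, NT G (⋃ p ∈ P, p.1) r le ∧ NIn G (⋃ p ∈ P, p.1) le ∧ ∀ p ∈ P, Ext p.1 p.2 le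

def S_tree : Prop := ∀ (V : Type u) (G : SimpleGraph V) (r : V) (F : Set (Set V)),
  G.Connected → GF G r F → (∀ A : Set V, #A < #V → CS G A → HasNT G A) →
  ∃ le, NT G Set.univ r le

def S_ctbl : Prop := ∀ (V : Type u) (G : SimpleGraph V) (r : V), Countable V → G.Connected →
  ∃ le, NT G Set.univ r le

/-! ### Closed sets and chains -/

def S_clos : Prop := ∀ (V : Type u) (G : SimpleGraph V), ∃ F : Finset V → Finset V,
  ∀ U : Set V, (∀ s : Finset V, (s : Set V) ⊆ U → ((F s : Finset V) : Set V) ⊆ U) → Cl G U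

def S_clop : Prop := ∀ (X ι : Type u) (F : ι → Finset X → Finset X), ∃ cl : Set X → Set X,
  (∀ A, A ⊆ cl A) ∧
  (∀ A i (s : Finset X), (s : Set X) ⊆ cl A → ((F i s : Finset X) : Set X) ⊆ cl A) ∧
  (∀ A B, A ⊆ B → cl A ⊆ cl B) ∧ (∀ A : Set X, #(cl A) ≤ max (max #A #ι) ℵ₀) ∧
  (∀ C : Set (Set X), C.Nonempty → IsChain (· ⊆ ·) C → cl (⋃₀ C) ⊆ ⋃ A ∈ C, cl A)

def S_notFA : Prop := ∀ (V : Type u) (G : SimpleGraph V) (U : Set V), ¬ FA G U →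
  ∃ D : Set V, D.Countable ∧ CS G D ∧ D ⊆ Uᶜ ∧ {x | x ∈ U ∧ ∃ d ∈ D, G.Adj d x}.Infinite

/-- A chain which absorbs the witnesses for infinite adhesion. -/
structure Ch {V : Type u} (G : SimpleGraph V) {L : Type u} [LinearOrder L] [WellFoundedLT L]
    (U D : L → Set V) : Prop where
  fil : Fil U
  cl : ∀ i, Cl G (U i)
  wit : ∀ i, ¬ FA G (U i) → (D i).Countable ∧ CS G (D i) ∧ D i ⊆ (U i)ᶜ ∧
    (∀ j, i < j → D i ⊆ U j) ∧ {x | x ∈ U i ∧ ∃ d ∈ D i, G.Adj d x}.Infinite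

def S_chain : Prop := ∀ (V : Type u) (G : SimpleGraph V) (L : Type u) [LinearOrder L]
  [WellFoundedLT L], Reg L → ∀ (U₀ : Set V) (v : L → V), #U₀ < #L →
  ∃ U D : L → Set V, Ch G U D ∧ (∀ i, U₀ ⊆ U i) ∧ ∀ i j, i < j → v i ∈ U j

def S_caseA : Prop := ∀ (V : Type u) (G : SimpleGraph V) (L : Type u) [LinearOrder L]
  [WellFoundedLT L], Reg L → ∀ (U D : L → Set V) (S : Set L) (j : L), Fil U → St S →
  (∀ i ∈ S, j < i ∧ (D i).Countable ∧ CS G (D i) ∧ D i ⊆ (U i)ᶜ ∧ (∀ k, i < k → D i ⊆ U k) ∧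
    {x | x ∈ U j ∧ ∃ d ∈ D i, G.Adj d x}.Infinite) → Obf G L

def S_caseB : Prop := ∀ (V : Type u) (G : SimpleGraph V) (L : Type u) [LinearOrder L]
  [WellFoundedLT L], Reg L → ∀ (U D : L → Set V) (S : Set L), Fil U → St S →
  (∀ i ∈ S, (D i).Countable ∧ CS G (D i) ∧ D i ⊆ (U i)ᶜ ∧ (∀ k, i < k → D i ⊆ U k) ∧
    {x | x ∈ U i ∧ ∃ d ∈ D i, G.Adj d x}.Infinite ∧
    ∀ j < i, {x | x ∈ U j ∧ ∃ d ∈ D i, G.Adj d x}.Finite) → Obf G L

def S_fac : Prop := ∀ (V : Type u) (G : SimpleGraph V) (L : Type u) [LinearOrder L]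
  [WellFoundedLT L], Reg L → ∀ (U D : L → Set V), Ch G U D → ¬ Obf G L →
  ∃ f : L → L, ∀ i, Lm i → (∀ a < i, f a < i) → FA G (U i)

def S_gfReg : Prop := ∀ (V : Type u) (G : SimpleGraph V) (r : V), ℵ₀ < #V → (#V).IsRegular →
  ¬ Ob G (Ltype #V) → ∃ F, GF G r F

def S_ext : Prop := ∀ (V : Type u) (G : SimpleGraph V) (c : Cardinal.{u}), ℵ₀ ≤ c →
  ¬ Ob G (Ltype (Order.succ c)) → ∀ U₀ : Set V, #U₀ ≤ c →
  ∃ U : Set V, U₀ ⊆ U ∧ Cl G U ∧ FA G U ∧ #U ≤ c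

def S_gfSeq : Prop := ∀ (V : Type u) (G : SimpleGraph V) (r : V), ℵ₀ < #V →
  (∃ X : ℕ → Set V, (∀ n, #(X n) < #V) ∧ ⋃ n, X n = Set.univ) →
  (∀ c : Cardinal.{u}, ℵ₀ ≤ c → c < #V → ¬ Ob G (Ltype (Order.succ c))) → ∃ F, GF G r F

def S_gfSing : Prop := ∀ (V : Type u) (G : SimpleGraph V) (r : V), G.Connected → ℵ₀ < #V →
  ¬ (#V).IsRegular → ¬ (∃ X : ℕ → Set V, (∀ n, #(X n) < #V) ∧ ⋃ n, X n = Set.univ) →
  (∀ A : Set V, #A < #V → CS G A → HasNT G A) → ∃ F, GF G r F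

/-! ### Transfer and induction -/

def S_sub1 : Prop := ∀ (V : Type u) (G : SimpleGraph V) (A : Set V), CS G A →
  (G.induce A).Connected ∧ ((∀ r, ∃ le, NT (G.induce A) Set.univ r le) → HasNT G A)

def S_sub2 : Prop := ∀ (V : Type u) (G : SimpleGraph V) (A : Set V) (L : Type u) [LinearOrder L]
  [WellFoundedLT L], Ob (G.induce A) L → Ob G L

def S_main : Prop := ∀ (V : Type u) (G : SimpleGraph V), G.Connected →
  (∀ κ : Cardinal.{u}, κ.IsRegular → ℵ₀ < κ → ¬ Ob G (Ltype κ)) →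
  ∀ r, ∃ le, NT G Set.univ r le

/-! ### Relation to the official definitions -/

def S_nst : Prop := ∀ (V : Type u) (G : SimpleGraph V) (r : V) (le : V → V → Prop),
  NT G Set.univ r le → HasNormalSpanningTree G

def S_minor : Prop := ∀ (V : Type u) (G : SimpleGraph V), Ob G (Ltype (ℵ₁ : Cardinal.{u})) →
  SmallObstruction G

def S_frp : Prop := ∀ κ : Cardinal.{u}, κ.IsRegular → ℵ₁ < κ → FRPAt κ → FR (Ltype κ)

end Pool.Agent.W910.NS
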