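import Pool.Agent.W910.NS.Stmts
import Pool.Agent.W910.NS.Off2

/-! Statements for the equivalence with `ADS⁻`. -/

set_option autoImplicit false

open Cardinal Set

namespace Pool.Agent.W910.NS

universe u

/-- The main theorem, with the obstruction lengths bounded by the size of the graph. -/
def S_main2 : Prop := ∀ (V : Type u) (G : SimpleGraph V), G.Connected →
  (∀ κ : Cardinal.{u}, κ.IsRegular → ℵ₀ < κ → κ ≤ #V → ¬ Ob G (Ltype κ)) →
  ∀ r, ∃ le, NT G Set.univ r le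

/-! ### From normal spanning trees -/

def S_down : Prop := ∀ (V : Type u) (G : SimpleGraph V) (r : V) (le : V → V → Prop),
  NT G Set.univ r le → ∀ U : Set V, (∀ x ∈ U, ∀ y, le y x → y ∈ U) → ∀ C : Set V, CS G C →
    Disjoint C U → {v | v ∈ U ∧ ∃ c ∈ C, G.Adj c v}.Finite

def S_toNT : Prop := ∀ (V : Type u) (G : SimpleGraph V), HasNormalSpanningTree G →
  ∃ r le, NT G Set.univ r le

def S_noObs : Prop := ∀ (V : Type u) (G : SimpleGraph V) (r : V) (le : V → V → Prop),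
  NT G Set.univ r le → ¬ SmallObstruction G

/-! ### The graph of a ladder system -/

section ladder

variable {L : Type u} [LinearOrder L]

/-- `s` is an initial segment of `A`. -/
def Ini (A : Set L) (s : Finset L) : Prop :=
  (s : Set L) ⊆ A ∧ ∀ x ∈ A, ∀ y ∈ s, x ≤ y → x ∈ s

/-- The graph of the ladder system `A` on `S`: the tree of all finite subsets of `L` (ordered by end
extension), every `a ∈ S` is joined to all finite initial segments of `A a`, and every `a ∉ S` is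
joined to the root. -/
def LG (S : Set L) (A : L → Set L) : SimpleGraph (Finset L ⊕ L) :=
  SimpleGraph.fromRel fun p q =>
    (∃ (s : Finset L) (x : L), (∀ y ∈ s, y < x) ∧ p = Sum.inl s ∧
      q = Sum.inl (letI := Classical.decEq L; insert x s)) ∨
    (∃ (s : Finset L) (a : L), a ∈ S ∧ Ini (A a) s ∧ p = Sum.inl s ∧ q = Sum.inr a) ∨
    (∃ a : L, a ∉ S ∧ p = Sum.inl ∅ ∧ q = Sum.inr a)

/-- The part of the vertex set below `b`. -/
def LV (b : L) : Set (Finset L ⊕ L) :=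
  {p | (∃ s : Finset L, (∀ x ∈ s, x < b) ∧ p = Sum.inl s) ∨ ∃ a, a < b ∧ p = Sum.inr a}

end ladder

def S_lgConn : Prop := ∀ (L : Type u) [LinearOrder L] (S : Set L) (A : L → Set L),
  (LG S A).Connected

/-- No normal spanning tree if `S` is stationary. -/
def S_lgNo : Prop := ∀ (L : Type u) [LinearOrder L] [WellFoundedLT L], Reg L →
  ∀ (S : Set L) (A : L → Set L), St S →
    (∀ a ∈ S, (∀ x ∈ A a, x < a) ∧ (A a).Infinite ∧ ∀ b ∈ A a, (A a ∩ Iio b).Finite) →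
    ¬ ∃ r le, NT (LG S A) Set.univ r le

/-- A normal spanning tree below `b`. -/
def S_lgNT : Prop := ∀ (L : Type u) [LinearOrder L] [WellFoundedLT L]
  (S : Set L) (A : L → Set L) (b : L) (f : L → L),
    (∀ a ∈ S, (∀ x ∈ A a, x < a) ∧ (A a).Infinite ∧ ∀ b ∈ A a, (A a ∩ Iio b).Finite) →
    (∀ a ∈ S, a < b → ∃ x ∈ A a, f a < x) →
    (∀ a ∈ S, a < b → ∀ a' ∈ S, a' < b → a ≠ a' →
      Disjoint (A a \ Iio (f a)) (A a' \ Iio (f a'))) →
    ∃ le, NT ((LG S A).induce (LV b)) Set.univ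
      ⟨Sum.inl ∅, Or.inl ⟨∅, by simp, rfl⟩⟩ le

/-- A small obstruction in a graph on a set filtered by `L` lies in a member of the filtration. -/
def S_obsSub : Prop := ∀ (L : Type u) [LinearOrder L] [WellFoundedLT L], Reg L → ℵ₁ < #L →
  ∀ (V : Type u) (G : SimpleGraph V) (W : L → Set V), (∀ i j, i ≤ j → W i ⊆ W j) →
    (∀ x, ∃ i, x ∈ W i) → SmallObstruction G → ∃ i, SmallObstruction (G.induce (W i))

def S_conv : Prop := ∀ κ : Cardinal.{u}, κ.IsRegular → ℵ₁ < κ → ADSm κ →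
  ¬ SmallCharacterisation.{u}

/-! ### From obstructions to `ADS⁻` -/

/-- Ladders of order type `ω` with finite pairwise intersections, coded from the neighbourhoods in
an obstruction. -/
def S_code : Prop := ∀ (L : Type u) [LinearOrder L] [WellFoundedLT L], Reg L →
  ∀ (S : Set L) (N : L → Set L), St S → (∀ a ∈ S, Cw a) →
    (∀ a ∈ S, (∀ x ∈ N a, x < a) ∧ (N a).Infinite) →
    ∃ (S' : Set L) (A : L → Set L) (D : L → Set L), S' ⊆ S ∧ St S' ∧ (∀ x, (D x).Countable) ∧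
      (∀ a ∈ S', (∀ x ∈ A a, x < a) ∧ (A a).Infinite ∧ ∀ b ∈ A a, (A a ∩ Iio b).Finite) ∧
      (∀ a ∈ S', ∀ a' ∈ S', a ≠ a' → (A a ∩ A a').Finite) ∧
      ∀ a ∈ S', ∀ K : Set L, (∀ x ∈ K, D x ⊆ K) → (N a ∩ K).Finite → (A a ∩ K).Finite

/-- Essential disjointness from unary closure operations. -/
def S_ess : Prop := ∀ (L : Type u) [LinearOrder L] [WellFoundedLT L] (S : Set L)
  (A E : L → Set L), (∀ x, (E x).Countable) →
  (∀ a ∈ S, (A a).Infinite ∧ ∀ b ∈ A a, (A a ∩ Iio b).Finite) →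
  (∀ a ∈ S, ∀ a' ∈ S, a ≠ a' → (A a ∩ A a').Finite) →
  (∀ a ∈ S, ∀ K : Set L, (∀ x ∈ K, E x ⊆ K) → a ∉ K → (A a ∩ K).Finite) →
  ∃ f : L → L, (∀ a ∈ S, ∃ x ∈ A a, f a < x) ∧
    ∀ a ∈ S, ∀ a' ∈ S, a ≠ a' → Disjoint (A a \ Iio (f a)) (A a' \ Iio (f a'))

/-- The unary operation given by a normal spanning tree. -/
def S_treeOp : Prop := ∀ (V : Type u) (G : SimpleGraph V) (A : Set V) (r : V)
  (le : V → V → Prop), NT G A r le → ∀ (L : Type u) (T : Set L) (B : L → Set V),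
  (∀ x ∈ T, (B x).Countable ∧ CS G (B x) ∧ B x ⊆ A) →
  (∀ x ∈ T, ∀ y ∈ T, x ≠ y → Disjoint (B x) (B y)) →
  ∃ E : L → Set L, (∀ x, (E x).Countable) ∧
    ∀ a ∈ T, ∀ K : Set L, K ⊆ T → (∀ x ∈ K, E x ∩ T ⊆ K) → a ∉ K →
      {x | x ∈ K ∧ Ed G (B x) (B a)}.Finite

def S_ads : Prop := ∀ (V : Type u) (G : SimpleGraph V) (κ : Cardinal.{u}), G.Connected →
  κ.IsRegular → ℵ₁ < κ → Ob G (Ltype κ) →
  (∀ A : Set V, #A < κ → CS G A → HasNT G A) → ADSm κ

def S_frpAds : Prop := ∀ κ : Cardinal.{u}, κ.IsRegular → ℵ₁ < κ → FRPAt κ → ¬ ADSm κ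

end Pool.Agent.W910.NS
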