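import Pool.Agent.W910.NS.Stmts

/-! Finite adhesion for club many members of the chain. -/

set_option autoImplicit false

open Cardinal Set

namespace Pool.Agent.W910.NS.T_G11

universe u

theorem main (hp : S_press.{u}) (hs : S_split.{u}) (_hi : S_inter.{u}) (hA : S_caseA.{u})
    (hB : S_caseB.{u}) : S_fac.{u} := by
  classical
  intro V G L _ _ hL U D hC hO
  by_contra hne
  push Not at hne
  have hS0 : St {i : L | ¬ FA G (U i)} := by
    intro f
    obtain ⟨i, h1, h2, h3⟩ := hne f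
    exact ⟨i, h3, h1, h2⟩
  set SA : Set L := {i | ¬ FA G (U i) ∧ ∃ j < i, {x | x ∈ U j ∧ ∃ d ∈ D i, G.Adj d x}.Infinite}
    with hSA
  set SB : Set L := {i | ¬ FA G (U i) ∧ ∀ j < i, {x | x ∈ U j ∧ ∃ d ∈ D i, G.Adj d x}.Finite}
    with hSB
  have hun : {i : L | ¬ FA G (U i)} = SA ∪ SB := by
    ext i
    constructor
    · intro hi
      by_cases h : ∃ j < i, {x | x ∈ U j ∧ ∃ d ∈ D i, G.Adj d x}.Infinite
      · exact Or.inl ⟨hi, h⟩
      · push Not at h
        exact Or.inr ⟨hi, fun j hj => h j hj⟩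
    · rintro (h | h)
      · exact h.1
      · exact h.1
  rw [hun] at hS0
  rcases hs L hL SA SB hS0 with hSt | hSt
  · -- case A
    have hex : ∀ i : L, ∃ j : L, i ∈ SA → j < i ∧
        {x | x ∈ U j ∧ ∃ d ∈ D i, G.Adj d x}.Infinite := by
      intro i
      by_cases hi : i ∈ SA
      · obtain ⟨j, h1, h2⟩ := hi.2
        exact ⟨j, fun _ => ⟨h1, h2⟩⟩
      · exact ⟨i, fun h => absurd h hi⟩
    choose f hf using hex
    obtain ⟨c, hc⟩ := hp L hL SA f hSt (fun a ha _ => (hf a ha).1)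
    refine hO (hA V G L hL U D {a | a ∈ SA ∧ f a = c} c hC.fil hc ?_)
    rintro i ⟨hi, rfl⟩
    obtain ⟨w1, w2, w3, w4, _⟩ := hC.wit i hi.1
    exact ⟨(hf i hi).1, w1, w2, w3, w4, (hf i hi).2⟩
  · -- case B
    refine hO (hB V G L hL U D SB hC.fil hSt ?_)
    intro i hi
    obtain ⟨w1, w2, w3, w4, w5⟩ := hC.wit i hi.1
    exact ⟨w1, w2, w3, w4, w5, hi.2⟩

end Pool.Agent.W910.NS.T_G11
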