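import Pool.Agent.W910.NS.Stmts

/-! The main induction. -/

set_option autoImplicit false

open Cardinal Set

namespace Pool.Agent.W910.NS.T_G16

open Pool.Agent.W910.NS

universe u

theorem main (ht : S_tree.{u}) (hc : S_ctbl.{u}) (hg : S_gfReg.{u}) (hq : S_gfSeq.{u})
    (hs : S_gfSing.{u}) (h1 : S_sub1.{u}) (h2 : S_sub2.{u}) : S_main.{u} := by
  have key : ∀ k : Cardinal.{u}, ∀ V : Type u, #V = k → ∀ G : SimpleGraph V, G.Connected →
      (∀ κ : Cardinal.{u}, κ.IsRegular → ℵ₀ < κ → ¬ Ob G (Ltype κ)) →
      ∀ r, ∃ le, NT G Set.univ r le := by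
    intro k
    induction k using WellFoundedLT.induction with
    | ind k ih =>
      intro V hV G hG hO r
      rcases le_or_gt (#V) ℵ₀ with hle | hlt
      · exact hc V G r (Cardinal.mk_le_aleph0_iff.1 hle) hG
      · have IH : ∀ A : Set V, #A < #V → CS G A → HasNT G A := by
          intro A hA hCS
          obtain ⟨e1, e2⟩ := h1 V G A hCS
          refine e2 fun r' => ?_
          exact ih (#A) (hV ▸ hA) A rfl (G.induce A) e1
            (fun κ hκ hκ' hOb => hO κ hκ hκ' (h2 V G A (Ltype κ) hOb)) r'
        have hF : ∃ F, GF G r F := by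
          by_cases hreg : (#V).IsRegular
          · exact hg V G r hlt hreg (hO _ hreg hlt)
          · by_cases hX : ∃ X : ℕ → Set V, (∀ n, #(X n) < #V) ∧ ⋃ n, X n = Set.univ
            · exact hq V G r hlt hX fun c hc1 _ =>
                hO _ (Cardinal.isRegular_succ hc1) (lt_of_le_of_lt hc1 (Order.lt_succ c))
            · exact hs V G r hG hlt hreg hX IH
        obtain ⟨F, hF⟩ := hF
        exact ht V G r F hG hF IH
  exact fun V G hG hO r => key (#V) V rfl G hG hO r

end Pool.Agent.W910.NS.T_G16
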