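import Pool.Agent.W910.NS.Stmts

/-! Stationary sets of a regular well order (helper538). -/

set_option autoImplicit false
set_option linter.unusedSectionVars false

open Cardinal Set

namespace Pool.Agent.W910.NS.T_O1

open Pool.Agent.W910.NS

universe u

section

variable {L : Type u} [LinearOrder L] [WellFoundedLT L]

theorem iic_lt (hL : Reg L) (b : L) : #(Iic b) < #L := by
  have h1 : (Iic b : Set L) = insert b (Iio b) := by
    ext x
    simp only [mem_Iic, mem_insert_iff, mem_Iio]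
    exact le_iff_eq_or_lt
  rw [h1]
  refine lt_of_le_of_lt (Cardinal.mk_insert_le) ?_
  exact Cardinal.add_lt_of_lt hL.unc.le (hL.seg b) (lt_trans Cardinal.one_lt_aleph0 hL.unc)

theorem bd_image (hL : Reg L) {α : Type u} (A : Set α) (g : α → L) (hA : #A < #L) :
    ∃ b, ∀ a ∈ A, g a < b := by
  obtain ⟨b, hb⟩ := hL.bd (g '' A) (lt_of_le_of_lt Cardinal.mk_image_le hA)
  exact ⟨b, fun a ha => hb _ (mem_image_of_mem g ha)⟩

theorem exists_gt' (hL : Reg L) (c : L) : ∃ s, c < s := by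
  obtain ⟨b, hb⟩ := hL.bd {c} (by
    rw [Cardinal.mk_singleton]
    exact lt_trans Cardinal.one_lt_aleph0 hL.unc)
  exact ⟨b, hb c rfl⟩

end

theorem press : S_press.{u} := by
  intro L _ _ hL S f hS hf
  by_contra hcon
  push Not at hcon
  have h1 : ∀ c, ∃ g : L → L, ∀ δ, δ ∈ S → f δ = c → Lm δ → ∃ a, a < δ ∧ δ ≤ g a := by
    intro c
    have h2 := hcon c
    unfold St at h2
    push Not at h2
    obtain ⟨g, hg⟩ := h2
    refine ⟨g, fun δ hδ hc hl => ?_⟩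
    obtain ⟨a, ha, hb⟩ := hg δ ⟨hδ, hc⟩ hl
    exact ⟨a, ha, hb⟩
  choose g hg using h1
  have h3 : ∀ b : L, ∃ h : L, ∀ c ≤ b, ∀ b' ≤ b, g c b' < h := by
    intro b
    have hc : #((Iic b ×ˢ Iic b : Set (L × L))) < #L := by
      rw [Cardinal.mk_setProd]
      exact Cardinal.mul_lt_of_lt hL.unc.le (iic_lt hL b) (iic_lt hL b)
    obtain ⟨h, hh⟩ := bd_image hL (Iic b ×ˢ Iic b : Set (L × L)) (fun p => g p.1 p.2) hc
    exact ⟨h, fun c hc b' hb' => hh (c, b') ⟨hc, hb'⟩⟩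
  choose h hh using h3
  obtain ⟨δ, hδ, hl, hcl⟩ := hS h
  have hlt : f δ < δ := hf δ hδ hl
  obtain ⟨a, ha, hb⟩ := hg (f δ) δ hδ rfl hl
  have h4 : g (f δ) a < h (max a (f δ)) := hh _ _ (le_max_right _ _) _ (le_max_left _ _)
  have h5 : h (max a (f δ)) < δ := hcl _ (max_lt ha hlt)
  exact absurd (lt_trans h4 h5) (not_lt.2 hb)

theorem split : S_split.{u} := by
  intro L _ _ hL A B hAB
  by_contra hcon
  push Not at hcon
  obtain ⟨hA, hB⟩ := hcon
  unfold St at hA hB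
  push Not at hA hB
  obtain ⟨f, hf⟩ := hA
  obtain ⟨g, hg⟩ := hB
  obtain ⟨δ, hδ, hl, hcl⟩ := hAB (fun a => max (f a) (g a))
  rcases hδ with h | h
  · obtain ⟨a, ha, hb⟩ := hf δ h hl
    exact absurd (lt_of_le_of_lt (le_max_left _ _) (hcl a ha)) (not_lt.2 hb)
  · obtain ⟨a, ha, hb⟩ := hg δ h hl
    exact absurd (lt_of_le_of_lt (le_max_right _ _) (hcl a ha)) (not_lt.2 hb)

theorem inter : S_inter.{u} := by
  intro L _ _ hL S f hS g
  obtain ⟨δ, hδ, hl, hcl⟩ := hS (fun a => max (f a) (g a))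
  exact ⟨δ, ⟨hδ, hl, fun b hb => lt_of_le_of_lt (le_max_left _ _) (hcl b hb)⟩, hl,
    fun b hb => lt_of_le_of_lt (le_max_right _ _) (hcl b hb)⟩

theorem unb : S_unb.{u} := by
  intro L _ _ hL S hS
  have h1 : ∀ c, ∃ a ∈ S, c < a := by
    intro c
    obtain ⟨s, hs⟩ := exists_gt' hL c
    obtain ⟨δ, hδ, hl, hcl⟩ := hS (fun _ => s)
    obtain ⟨a, ha⟩ := hl.1
    exact ⟨δ, hδ, lt_trans hs (hcl a ha)⟩
  refine ⟨h1, ?_⟩
  refine le_antisymm (Cardinal.mk_set_le S) (not_lt.1 fun hlt => ?_)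
  obtain ⟨b, hb⟩ := hL.bd S hlt
  obtain ⟨a, ha, hba⟩ := h1 b
  exact absurd (hb a ha) (not_lt.2 hba.le)

theorem cw : S_Cw.{u} := by
  intro L _ _ hL c f
  have h1 : ∀ a : L, ∃ s, a < s ∧ ∀ b ≤ a, f b < s := by
    intro a
    obtain ⟨s, hs⟩ := exists_gt' hL a
    obtain ⟨s', hs'⟩ := bd_image hL (Iic a) f (iic_lt hL a)
    exact ⟨max s s', lt_of_lt_of_le hs (le_max_left _ _),
      fun b hb => lt_of_lt_of_le (hs' b hb) (le_max_right _ _)⟩
  choose nx hnx hnx' using h1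
  let a : ℕ → L := fun n => Nat.rec c (fun _ x => nx x) n
  have ha0 : a 0 = c := rfl
  have has : ∀ n, a (n + 1) = nx (a n) := fun n => rfl
  have hrange : #(range a) < #L :=
    lt_of_le_of_lt (Cardinal.mk_le_aleph0_iff.2 (countable_range a).to_subtype) hL.unc
  obtain ⟨s, hs⟩ := hL.bd (range a) hrange
  let T : Set L := {s | ∀ n, a n < s}
  have hT : T.Nonempty := ⟨s, fun n => hs _ (mem_range_self n)⟩
  have wf : WellFounded ((· < ·) : L → L → Prop) := wellFounded_lt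
  let δ : L := wf.min T hT
  have hδ : ∀ n, a n < δ := wf.min_mem T hT
  have hmin : ∀ b < δ, ∃ n, b ≤ a n := by
    intro b hb
    by_contra hcon
    push Not at hcon
    exact wf.not_lt_min T hcon hb
  have hmin' : ∀ b < δ, ∃ n, b < a n := by
    intro b hb
    obtain ⟨n, hn⟩ := hmin b hb
    exact ⟨n + 1, lt_of_le_of_lt hn (by rw [has]; exact hnx _)⟩
  refine ⟨δ, ⟨⟨a, hδ, hmin'⟩, (ha0 ▸ hδ 0 : c < δ).le⟩, ⟨⟨a 0, hδ 0⟩, ?_⟩, ?_⟩
  · intro b hb
    obtain ⟨n, hn⟩ := hmin' b hb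
    exact ⟨a n, hn, hδ n⟩
  · intro b hb
    obtain ⟨n, hn⟩ := hmin b hb
    refine lt_trans (hnx' (a n) b hn) ?_
    rw [← has]
    exact hδ (n + 1)

theorem cw1 : S_Cw1.{u} := by
  intro L _ _ hL hcard a ha
  have h1 : (Iio a).Countable := by
    rw [← Cardinal.le_aleph0_iff_set_countable, ← Order.lt_succ_iff, Cardinal.succ_aleph0,
      ← hcard]
    exact hL.seg a
  obtain ⟨b0, hb0⟩ := ha.1
  obtain ⟨g, hg⟩ := h1.exists_eq_range ⟨b0, hb0⟩
  refine ⟨g, fun n => ?_, fun b hb => ?_⟩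
  · have : g n ∈ Iio a := by
      rw [hg]
      exact mem_range_self n
    exact this
  · obtain ⟨b', h2, h3⟩ := ha.2 b hb
    have : b' ∈ range g := by
      rw [← hg]
      exact h3
    obtain ⟨n, rfl⟩ := this
    exact ⟨n, h2⟩

end Pool.Agent.W910.NS.T_O1
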